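import Pool.Agent.Fary.Bas

/-!
# FARY-Avoid (0.5h): points in general position in an open set

PLAN.  (private) `avoid1`: for `α ≠ 0 ∨ β ≠ 0` and an open nonempty `O` the set
`O ∩ {y | α * y.1 + β * y.2 + γ ≠ 0}` is open (continuity) and nonempty: take `y₀ ∈ O`; if the affine
function does not vanish at `y₀` done; else move to `y₀ + t • (α, β)`: the value is `t * (α^2 + β^2)`,
nonzero for `t ≠ 0`, and for small `t` the point is in `O` (`t ↦ y₀ + t • (α, β)` is continuous at `0`;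
e.g. use `Metric.isOpen_iff` or `Filter.Eventually` in `nhds 0` together with `nhdsWithin 0 {0}ᶜ` not bot).
Then a finite list of affine functions by induction (`Finset.induction_on` over the finset, generalizing
`O`).  `avoid_points`: the lines `y.2 - p.2` for `p ∈ S` and `o p q y` for `p ≠ q` in `S`, where
`o p q y = -(q.2 - p.2) * y.1 + (q.1 - p.1) * y.2 + ((q.2 - p.2) * p.1 - (q.1 - p.1) * p.2)`,
not both coefficients vanish as `p ≠ q`.
-/

set_option autoImplicit false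

namespace Pool.Agent.Fary

private theorem avoid1 {O : Set (ℝ × ℝ)} (hO : IsOpen O) (hne : O.Nonempty) (α β γ : ℝ)
    (h : α ≠ 0 ∨ β ≠ 0) :
    IsOpen (O ∩ {y : ℝ × ℝ | α * y.1 + β * y.2 + γ ≠ 0}) ∧
      (O ∩ {y : ℝ × ℝ | α * y.1 + β * y.2 + γ ≠ 0}).Nonempty := by
  have hc : Continuous fun y : ℝ × ℝ => α * y.1 + β * y.2 + γ := by fun_prop
  refine ⟨hO.inter (isOpen_ne_fun hc continuous_const), ?_⟩
  obtain ⟨y0, hy0⟩ := hne
  by_cases hv : α * y0.1 + β * y0.2 + γ ≠ 0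
  · exact ⟨y0, hy0, hv⟩
  push Not at hv
  have hcont : Continuous fun t : ℝ => ((y0.1 + t * α, y0.2 + t * β) : ℝ × ℝ) := by fun_prop
  have hopen : IsOpen ((fun t : ℝ => ((y0.1 + t * α, y0.2 + t * β) : ℝ × ℝ)) ⁻¹' O) :=
    hO.preimage hcont
  have h0 : (0 : ℝ) ∈ (fun t : ℝ => ((y0.1 + t * α, y0.2 + t * β) : ℝ × ℝ)) ⁻¹' O := by
    simpa using hy0
  obtain ⟨ε, hε, hb⟩ := Metric.isOpen_iff.1 hopen 0 h0
  have hm : (ε / 2) ∈ Metric.ball (0 : ℝ) ε := by
    rw [Metric.mem_ball, Real.dist_eq, sub_zero, abs_of_pos (by positivity)]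
    linarith
  have hmem := hb hm
  refine ⟨(y0.1 + ε / 2 * α, y0.2 + ε / 2 * β), hmem, ?_⟩
  have hpos : 0 < α ^ 2 + β ^ 2 := by
    rcases h with h | h
    · have := pow_pos (abs_pos.2 h) 2
      rw [sq_abs] at this
      nlinarith [sq_nonneg β]
    · have := pow_pos (abs_pos.2 h) 2
      rw [sq_abs] at this
      nlinarith [sq_nonneg α]
  have hval : α * (y0.1 + ε / 2 * α) + β * (y0.2 + ε / 2 * β) + γ = ε / 2 * (α ^ 2 + β ^ 2) := by
    linear_combination hv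
  show α * (y0.1 + ε / 2 * α) + β * (y0.2 + ε / 2 * β) + γ ≠ 0
  rw [hval]
  positivity

private theorem avoidL (L : List (ℝ × ℝ × ℝ)) :
    ∀ O : Set (ℝ × ℝ), IsOpen O → O.Nonempty → (∀ c ∈ L, c.1 ≠ 0 ∨ c.2.1 ≠ 0) →
      ∃ y ∈ O, ∀ c ∈ L, c.1 * y.1 + c.2.1 * y.2 + c.2.2 ≠ 0 := by
  induction L with
  | nil =>
    intro O _ hne _
    obtain ⟨y, hy⟩ := hne
    exact ⟨y, hy, by simp⟩
  | cons c L ih =>
    intro O hO hne hL
    obtain ⟨h1, h2⟩ := avoid1 hO hne c.1 c.2.1 c.2.2 (hL c (by simp))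
    obtain ⟨y, hy, hy2⟩ := ih _ h1 h2 (fun d hd => hL d (by simp [hd]))
    refine ⟨y, hy.1, ?_⟩
    intro d hd
    rcases List.mem_cons.1 hd with rfl | hd
    · exact hy.2
    · exact hy2 d hd

theorem avoid_points {O : Set (ℝ × ℝ)} (hO : IsOpen O) (hne : O.Nonempty) (S : Finset (ℝ × ℝ)) :
    ∃ y ∈ O, (∀ p ∈ S, p.2 ≠ y.2) ∧ ∀ p ∈ S, ∀ q ∈ S, p ≠ q → o p q y ≠ 0 := by
  classical
  let L : List (ℝ × ℝ × ℝ) := (S.toList.map fun p => ((0 : ℝ), (1 : ℝ), -p.2)) ++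
    (((S ×ˢ S).filter fun c => c.1 ≠ c.2).toList.map fun c =>
      (-(c.2.2 - c.1.2), (c.2.1 - c.1.1),
        ((c.2.2 - c.1.2) * c.1.1 - (c.2.1 - c.1.1) * c.1.2)))
  obtain ⟨y, hy, hL⟩ := avoidL L O hO hne (by
    intro c hc
    rcases List.mem_append.1 hc with hc | hc
    · obtain ⟨p, _, rfl⟩ := List.mem_map.1 hc
      exact Or.inr one_ne_zero
    · obtain ⟨c', hc', rfl⟩ := List.mem_map.1 hc
      have h2 := (Finset.mem_filter.1 (Finset.mem_toList.1 hc')).2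
      by_contra hcon
      push Not at hcon
      obtain ⟨ha, hb⟩ := hcon
      apply h2
      apply Prod.ext
      · simp only at hb; linarith
      · simp only at ha; linarith)
  refine ⟨y, hy, ?_, ?_⟩
  · intro p hp heq
    have := hL ((0 : ℝ), (1 : ℝ), -p.2) (List.mem_append.2 (Or.inl (List.mem_map.2
      ⟨p, Finset.mem_toList.2 hp, rfl⟩)))
    apply this
    simp only
    linarith
  · intro p hp q hq hpq h0
    have := hL (-(q.2 - p.2), (q.1 - p.1), ((q.2 - p.2) * p.1 - (q.1 - p.1) * p.2))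
      (List.mem_append.2 (Or.inr (List.mem_map.2 ⟨(p, q), Finset.mem_toList.2
        (Finset.mem_filter.2 ⟨Finset.mem_product.2 ⟨hp, hq⟩, hpq⟩), rfl⟩)))
    apply this
    simp only [o] at h0
    simp only
    linarith

end Pool.Agent.Fary
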