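import Pool.Agent.Fary.Defs

/-!
# FARY-Bas: basic facts on triples
-/

set_option autoImplicit false

namespace Pool.Agent.Fary

open Finset

variable {V : Type} [DecidableEq V] {T : Finset (Finset V)}

theorem tri_swap (a b c : V) : ({a, b, c} : Finset V) = {b, a, c} := Finset.insert_comm _ _ _

theorem tri_swap' (a b c : V) : ({a, b, c} : Finset V) = {a, c, b} := by rw [Finset.pair_comm b c]

theorem tri_rot (a b c : V) : ({a, b, c} : Finset V) = {b, c, a} := by
  rw [tri_swap, tri_swap' b a c]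

theorem mem_tri {a b c x : V} : x ∈ ({a, b, c} : Finset V) ↔ x = a ∨ x = b ∨ x = c := by
  simp only [Finset.mem_insert, Finset.mem_singleton]

theorem card_tri {a b c : V} : ({a, b, c} : Finset V).card = 3 ↔ a ≠ b ∧ a ≠ c ∧ b ≠ c := by
  constructor
  · intro h
    refine ⟨?_, ?_, ?_⟩
    · rintro rfl
      have : ({a, a, c} : Finset V) = {a, c} := by simp
      rw [this] at h
      have := Finset.card_le_two (a := a) (b := c)
      omega
    · rintro rfl
      have : ({a, b, a} : Finset V) = {a, b} := by rw [tri_swap' a b a]; simp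
      rw [this] at h
      have := Finset.card_le_two (a := a) (b := b)
      omega
    · rintro rfl
      have : ({a, b, b} : Finset V) = {a, b} := by simp
      rw [this] at h
      have := Finset.card_le_two (a := a) (b := b)
      omega
  · rintro ⟨h1, h2, h3⟩
    exact Finset.card_eq_three.2 ⟨a, b, c, h1, h2, h3, rfl⟩

/-- the third vertex is determined -/
theorem eq_of_tri {a b x y : V} (h : ({a, b, x} : Finset V) = {a, b, y}) (h1 : x ≠ a) (h2 : x ≠ b) :
    x = y := by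
  have h3 : x ∈ ({a, b, y} : Finset V) := by rw [← h]; exact mem_tri.2 (Or.inr (Or.inr rfl))
  rcases mem_tri.1 h3 with h4 | h4 | h4
  · exact absurd h4 h1
  · exact absurd h4 h2
  · exact h4

namespace Tri2

theorem ne (h : Tri2 T) {a b c : V} (ht : ({a, b, c} : Finset V) ∈ T) : a ≠ b ∧ a ≠ c ∧ b ≠ c :=
  card_tri.1 (h.three _ ht)

theorem exists_third (h : Tri2 T) {t : Finset V} (ht : t ∈ T) {a b : V} (ha : a ∈ t) (hb : b ∈ t)
    (hab : a ≠ b) : ∃ c, t = {a, b, c} := by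
  obtain ⟨x, y, z, hxy, hxz, hyz, rfl⟩ := Finset.card_eq_three.1 (h.three t ht)
  rcases mem_tri.1 ha with rfl | rfl | rfl <;> rcases mem_tri.1 hb with rfl | rfl | rfl
  · exact absurd rfl hab
  · exact ⟨z, rfl⟩
  · exact ⟨y, tri_swap' _ _ _⟩
  · exact ⟨z, tri_swap _ _ _⟩
  · exact absurd rfl hab
  · exact ⟨x, tri_rot _ _ _⟩
  · exact ⟨y, by rw [tri_rot, tri_rot]⟩
  · exact ⟨x, by rw [tri_rot, tri_swap]⟩
  · exact absurd rfl hab

theorem adj (h : Tri2 T) {a b c : V} (ht : ({a, b, c} : Finset V) ∈ T) :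
    (gT T).Adj a b ∧ (gT T).Adj a c ∧ (gT T).Adj b c := by
  obtain ⟨h1, h2, h3⟩ := h.ne ht
  exact ⟨⟨h1, _, ht, mem_tri.2 (by simp), mem_tri.2 (by simp)⟩,
    ⟨h2, _, ht, mem_tri.2 (by simp), mem_tri.2 (by simp)⟩,
    ⟨h3, _, ht, mem_tri.2 (by simp), mem_tri.2 (by simp)⟩⟩

/-- the other triangle at an edge -/
theorem other (h : Tri2 T) {a b x : V} (ht : ({a, b, x} : Finset V) ∈ T) :
    ∃ y, y ≠ x ∧ ({a, b, y} : Finset V) ∈ T := by
  obtain ⟨h1, h2, h3⟩ := h.ne ht
  have h4 := h.two a b (h.adj ht).1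
  obtain ⟨s, t, hst, h5⟩ := Finset.card_eq_two.1 h4
  have h6 : ∀ u, u ∈ T ∧ a ∈ u ∧ b ∈ u ↔ u = s ∨ u = t := by
    intro u
    have : u ∈ T.filter (fun t => a ∈ t ∧ b ∈ t) ↔ u ∈ ({s, t} : Finset (Finset V)) := by rw [h5]
    simpa using this
  have h7 := (h6 {a, b, x}).1 ⟨ht, by simp, by simp⟩
  rcases h7 with h7 | h7
  · obtain ⟨h8, h9, h10⟩ := (h6 t).2 (Or.inr rfl)
    obtain ⟨y, rfl⟩ := h.exists_third h8 h9 h10 h1
    exact ⟨y, by rintro rfl; exact hst h7.symm, h8⟩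
  · obtain ⟨h8, h9, h10⟩ := (h6 s).2 (Or.inl rfl)
    obtain ⟨y, rfl⟩ := h.exists_third h8 h9 h10 h1
    exact ⟨y, by rintro rfl; exact hst h7, h8⟩

/-- there is no third triangle at an edge -/
theorem third (h : Tri2 T) {a b x y z : V} (hx : ({a, b, x} : Finset V) ∈ T)
    (hy : ({a, b, y} : Finset V) ∈ T) (hxy : x ≠ y) (hz : ({a, b, z} : Finset V) ∈ T) :
    z = x ∨ z = y := by
  by_contra hcon
  push Not at hcon
  obtain ⟨h1, h2, h3⟩ := h.ne hx
  obtain ⟨h1', h2', h3'⟩ := h.ne hy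
  have h4 := h.two a b (h.adj hx).1
  have h5 : ({{a, b, x}, {a, b, y}, {a, b, z}} : Finset (Finset V)) ⊆
      T.filter (fun t => a ∈ t ∧ b ∈ t) := by
    intro t ht
    rw [Finset.mem_insert, Finset.mem_insert, Finset.mem_singleton] at ht
    rcases ht with rfl | rfl | rfl
    · exact Finset.mem_filter.2 ⟨hx, by simp, by simp⟩
    · exact Finset.mem_filter.2 ⟨hy, by simp, by simp⟩
    · exact Finset.mem_filter.2 ⟨hz, by simp, by simp⟩
  have h6 := Finset.card_le_card h5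
  have h7 : ({{a, b, x}, {a, b, y}, {a, b, z}} : Finset (Finset V)).card = 3 := by
    rw [Finset.card_eq_three]
    refine ⟨_, _, _, ?_, ?_, ?_, rfl⟩
    · intro h8; exact hxy (eq_of_tri h8 h2.symm h3.symm)
    · intro h8; exact hcon.1 (eq_of_tri h8 h2.symm h3.symm).symm
    · intro h8; exact hcon.2 (eq_of_tri h8 h2'.symm h3'.symm).symm
  omega

end Tri2

theorem InT.perm {a b c y : ℝ × ℝ} (h : InT a b c y) : InT b c a y ∧ InT b a c y := by
  obtain ⟨h1, h2, h3⟩ := h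
  have e1 := o_cyc a b c
  refine ⟨⟨h2, h3, h1⟩, ?_, ?_, ?_⟩
  · rw [o_swap a b c, o_swap a b y]; linarith
  · rw [o_swap c a b, o_swap c a y]; linarith
  · rw [o_swap b c a, o_swap b c y]; linarith

end Pool.Agent.Fary
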