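import Pool.Agent.Fary.Bas

/-!
# FARY-Base (0.8h): four vertices

PLAN.  `T0 = {a, b, c}` (`Finset.card_eq_three`), `T0 ⊆ vs T`, so `vs T = {a, b, c, v}` with `v ∉ T0`
(card 4).  Take `f a = (0, 0)`, `f b = (3, 0)`, `f c = (0, 3)`, `f v = (1, 1)` (`f x = if x = a then .. `).
All triples of distinct elements of `vs T` have `o ≠ 0` (24 cases up to symmetry: `o_cyc`, `o_swap`; or
brute force over the membership in the list `[a, b, c, v]` with `simp`/`norm_num [o]`).
`inn`: `{x1, x2, x}`, `{x1, x2, y} ∈ T` distinct, so `x1, x2, x, y` are the four vertices, not both `x1, x2`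
in `T0`, so `v ∈ {x1, x2}`, the other is one of `a, b, c`: the other two are on different sides of the
line.  `out`: `{x1, x2, x} = T0`, `y = v`: same side.  (Again brute force over `x1, x2, x, y ∈ {a, b, c, v}`:
all elements of members of `T` are in `vs T`.)
-/

set_option autoImplicit false

namespace Pool.Agent.Fary

open Finset

variable {V : Type} [DecidableEq V] {T : Finset (Finset V)}

theorem base (h : Tri2 T) (h4 : (vs T).card = 4) {T0 : Finset V} (h0 : T0 ∈ T) :
    ∃ f : V → ℝ × ℝ, Good f T T0 := by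
  obtain ⟨a, b, c, hab, hac, hbc, rfl⟩ := Finset.card_eq_three.1 (h.three _ h0)
  have hsub : ({a, b, c} : Finset V) ⊆ vs T := fun x hx => mem_vs.2 ⟨_, h0, hx⟩
  have hc1 : ((vs T) \ {a, b, c}).card = 1 := by
    rw [Finset.card_sdiff_of_subset hsub, h4, h.three _ h0]
  obtain ⟨v, hv⟩ := Finset.card_eq_one.1 hc1
  have hv1 : v ∈ (vs T) \ {a, b, c} := by rw [hv]; exact Finset.mem_singleton_self v
  have hv2 := Finset.mem_sdiff.1 hv1
  have key : ∀ x ∈ vs T, x = a ∨ x = b ∨ x = c ∨ x = v := by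
    intro x hx
    by_cases hx3 : x ∈ ({a, b, c} : Finset V)
    · rcases mem_tri.1 hx3 with h5 | h5 | h5
      · exact Or.inl h5
      · exact Or.inr (Or.inl h5)
      · exact Or.inr (Or.inr (Or.inl h5))
    · have h6 : x ∈ (vs T) \ {a, b, c} := Finset.mem_sdiff.2 ⟨hx, hx3⟩
      rw [hv, Finset.mem_singleton] at h6
      exact Or.inr (Or.inr (Or.inr h6))
  have hva : v ≠ a := fun e => hv2.2 (mem_tri.2 (Or.inl e))
  have hvb : v ≠ b := fun e => hv2.2 (mem_tri.2 (Or.inr (Or.inl e)))
  have hvc : v ≠ c := fun e => hv2.2 (mem_tri.2 (Or.inr (Or.inr e)))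
  obtain ⟨f, fa, fb, fc, fv⟩ : ∃ f : V → ℝ × ℝ, f a = (0, 0) ∧ f b = (3, 0) ∧ f c = (0, 3) ∧
      f v = (1, 1) := by
    refine ⟨fun x => if x = a then (0, 0) else if x = b then (3, 0) else if x = c then (0, 3)
      else (1, 1), ?_, ?_, ?_, ?_⟩
    · simp
    · simp [hab.symm]
    · simp [hac.symm, hbc.symm]
    · simp [hva, hvb, hvc]
  have hin : ∀ x1 x2 x : V, ({x1, x2, x} : Finset V) ∈ T → x1 ∈ vs T ∧ x2 ∈ vs T ∧ x ∈ vs T := by
    intro x1 x2 x ht
    exact ⟨mem_vs.2 ⟨_, ht, mem_tri.2 (Or.inl rfl)⟩, mem_vs.2 ⟨_, ht, mem_tri.2 (Or.inr (Or.inl rfl))⟩,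
      mem_vs.2 ⟨_, ht, mem_tri.2 (Or.inr (Or.inr rfl))⟩⟩
  refine ⟨f, ?_, ?_, ?_⟩
  · intro x y z hx hy hz h1 h2 h3
    rcases key x hx with e1 | e1 | e1 | e1 <;> rcases key y hy with e2 | e2 | e2 | e2 <;>
    first
    | exact absurd (e1.trans e2.symm) h1
    | (rcases key z hz with e3 | e3 | e3 | e3 <;>
       first
       | exact absurd (e1.trans e3.symm) h2
       | exact absurd (e2.trans e3.symm) h3
       | (rw [e1, e2, e3]
          simp only [fa, fb, fc, fv, o]
          norm_num))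
  · intro x1 x2 x y hx hy hxy hn
    obtain ⟨m1, m2, m3⟩ := hin _ _ _ hx
    obtain ⟨-, -, m4⟩ := hin _ _ _ hy
    obtain ⟨n1, n2, n3⟩ := h.ne hx
    obtain ⟨-, n4, n5⟩ := h.ne hy
    rcases key x1 m1 with e1 | e1 | e1 | e1 <;> rcases key x2 m2 with e2 | e2 | e2 | e2 <;>
    first
    | exact absurd (e1.trans e2.symm) n1
    | exact absurd ⟨mem_tri.2 (by tauto), mem_tri.2 (by tauto)⟩ hn
    | (rcases key x m3 with e3 | e3 | e3 | e3 <;>
       first
       | exact absurd (e1.trans e3.symm) n2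
       | exact absurd (e2.trans e3.symm) n3
       | (rcases key y m4 with e4 | e4 | e4 | e4 <;>
          first
          | exact absurd (e1.trans e4.symm) n4
          | exact absurd (e2.trans e4.symm) n5
          | exact absurd (e3.trans e4.symm) hxy
          | (rw [e1, e2, e3, e4]
             simp only [fa, fb, fc, fv, o]
             norm_num)))
  · intro x1 x2 x y hx hy hxy
    obtain ⟨m1, m2, m4⟩ := hin _ _ _ hy
    obtain ⟨n1, n4, n5⟩ := h.ne hy
    have hxT : ({x1, x2, x} : Finset V) ∈ T := by rw [hx]; exact h0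
    obtain ⟨-, -, m3⟩ := hin _ _ _ hxT
    obtain ⟨-, n2, n3⟩ := h.ne hxT
    have q1 : x1 ∈ ({a, b, c} : Finset V) := by rw [← hx]; exact mem_tri.2 (Or.inl rfl)
    have q2 : x2 ∈ ({a, b, c} : Finset V) := by rw [← hx]; exact mem_tri.2 (Or.inr (Or.inl rfl))
    have q3 : x ∈ ({a, b, c} : Finset V) := by rw [← hx]; exact mem_tri.2 (Or.inr (Or.inr rfl))
    rcases mem_tri.1 q1 with e1 | e1 | e1 <;> rcases mem_tri.1 q2 with e2 | e2 | e2 <;>
    first
    | exact absurd (e1.trans e2.symm) n1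
    | (rcases mem_tri.1 q3 with e3 | e3 | e3 <;>
       first
       | exact absurd (e1.trans e3.symm) n2
       | exact absurd (e2.trans e3.symm) n3
       | (rcases key y m4 with e4 | e4 | e4 | e4 <;>
          first
          | exact absurd (e1.trans e4.symm) n4
          | exact absurd (e2.trans e4.symm) n5
          | exact absurd (e3.trans e4.symm) hxy
          | (rw [e1, e2, e3, e4]
             simp only [fa, fb, fc, fv, o]
             norm_num)))

end Pool.Agent.Fary
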