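import Pool.Agent.Fary.Link

/-!
# The corner at a vertex of degree 3 or 4
-/

set_option autoImplicit false

namespace Pool.Agent.Fary

open Finset

variable {V : Type} [DecidableEq V] {T : Finset (Finset V)}

/-- the four vertices around a vertex of degree 3 whose link is a triangle of `T` -/
private theorem c3_sub (h : Tr T) {v a b c : V} (hnd : [v, a, b, c].Nodup)
    (hst : ∀ t, (t ∈ T ∧ v ∈ t) ↔ (t = {v, a, b} ∨ t = {v, b, c} ∨ t = {v, c, a}))
    (habc : ({a, b, c} : Finset V) ∈ T) : vs T ⊆ {v, a, b, c} := by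
  have h2 : Tri2 T := h.toTri2
  have hva : v ≠ a := by rintro rfl; simp at hnd
  have hvb : v ≠ b := by rintro rfl; simp at hnd
  have hvc : v ≠ c := by rintro rfl; simp at hnd
  have t1 : ({v, a, b} : Finset V) ∈ T := ((hst _).2 (Or.inl rfl)).1
  have t2 : ({v, b, c} : Finset V) ∈ T := ((hst _).2 (Or.inr (Or.inl rfl))).1
  have t3 : ({v, c, a} : Finset V) ∈ T := ((hst _).2 (Or.inr (Or.inr rfl))).1
  have key : ∀ x y, (x = a ∨ x = b ∨ x = c) → (y = a ∨ y = b ∨ y = c) → x ≠ y →
      ∃ z, (z = a ∨ z = b ∨ z = c) ∧ v ≠ z ∧ ({x, y, v} : Finset V) ∈ T ∧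
        ({x, y, z} : Finset V) ∈ T := by
    intro x y hx hy hxy
    rcases hx with rfl | rfl | rfl <;> rcases hy with rfl | rfl | rfl
    · exact absurd rfl hxy
    · exact ⟨c, Or.inr (Or.inr rfl), hvc, by rw [← tri_rot]; exact t1, habc⟩
    · refine ⟨b, Or.inr (Or.inl rfl), hvb, ?_, ?_⟩
      · rw [← tri_rot, tri_swap' v x y]
        exact t3
      · rw [tri_swap']
        exact habc
    · refine ⟨c, Or.inr (Or.inr rfl), hvc, ?_, ?_⟩
      · rw [← tri_rot, tri_swap' v x y]
        exact t1
      · rw [tri_swap]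
        exact habc
    · exact absurd rfl hxy
    · refine ⟨a, Or.inl rfl, hva, ?_, ?_⟩
      · rw [← tri_rot]
        exact t2
      · rw [← tri_rot]
        exact habc
    · refine ⟨b, Or.inr (Or.inl rfl), hvb, ?_, ?_⟩
      · rw [← tri_rot]
        exact t3
      · rw [tri_rot]
        exact habc
    · refine ⟨a, Or.inl rfl, hva, ?_, ?_⟩
      · rw [← tri_rot, tri_swap' v x y]
        exact t2
      · rw [tri_rot, tri_swap]
        exact habc
    · exact absurd rfl hxy
  have hin : ∀ x, x ∈ ({v, a, b, c} : Finset V) ↔ x = v ∨ x = a ∨ x = b ∨ x = c := by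
    intro x
    simp only [Finset.mem_insert, Finset.mem_singleton]
  -- a triangle with two vertices among the four
  have hclosed : ∀ t ∈ T, ∀ x y, x ≠ y → x ∈ t → y ∈ t → x ∈ ({v, a, b, c} : Finset V) →
      y ∈ ({v, a, b, c} : Finset V) → t ⊆ {v, a, b, c} := by
    intro t ht x y hxy hxt hyt hx hy
    by_cases hvt : v ∈ t
    · intro z hz
      rw [hin]
      rcases (hst t).1 ⟨ht, hvt⟩ with rfl | rfl | rfl <;> rcases mem_tri.1 hz with rfl | rfl | rfl <;>
        simp
    · have hxv : x ≠ v := by
        rintro rfl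
        exact hvt hxt
      have hyv : y ≠ v := by
        rintro rfl
        exact hvt hyt
      have hx' : x = a ∨ x = b ∨ x = c := ((hin x).1 hx).resolve_left hxv
      have hy' : y = a ∨ y = b ∨ y = c := ((hin y).1 hy).resolve_left hyv
      obtain ⟨z, hz, hvz, hz1, hz2⟩ := key x y hx' hy' hxy
      obtain ⟨q, rfl⟩ := h2.exists_third ht hxt hyt hxy
      have h4 := h2.third hz1 hz2 hvz ht
      intro u hu
      rcases mem_tri.1 hu with rfl | rfl | rfl
      · exact hx
      · exact hy
      · rw [hin]
        rcases h4 with rfl | rfl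
        · exact Or.inl rfl
        · exact Or.inr hz
  have hall : T.filter (fun t => t ⊆ {v, a, b, c}) = T := by
    by_contra hne
    obtain ⟨s, hs, t, ht, htP, x, y, hxy, hxs, hys, hxt, hyt⟩ :=
      h.dual (T.filter (fun t => t ⊆ {v, a, b, c})) (Finset.filter_subset _ _)
        ⟨{v, a, b}, Finset.mem_filter.2 ⟨t1, by
          intro z hz
          rw [hin]
          rcases mem_tri.1 hz with rfl | rfl | rfl <;> simp⟩⟩ hne
    have hs' := (Finset.mem_filter.1 hs).2
    exact htP (Finset.mem_filter.2 ⟨ht, hclosed t ht x y hxy hxt hyt (hs' hxs) (hs' hys)⟩)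
  intro z hz
  obtain ⟨t, ht, hzt⟩ := mem_vs.1 hz
  rw [← hall] at ht
  exact (Finset.mem_filter.1 ht).2 hzt

theorem cor3 (h : Tr T) (hn : 5 ≤ (vs T).card) {v : V} (hd : dg T v = 3) :
    ∃ w : ℕ → V, Cor T v 3 w := by
  obtain ⟨a, b, c, hnd, hst⟩ := link3 h.toTri2 hd
  have hnd' := hnd
  simp only [List.nodup_cons, List.mem_cons, List.not_mem_nil, or_false, not_or,
    List.nodup_nil, and_true, not_false_eq_true] at hnd'
  obtain ⟨⟨n1, n2, n3⟩, ⟨n5, n6⟩, n8⟩ := hnd'
  refine ⟨fun i => if i = 0 then a else if i = 1 then b else if i = 2 then c else a,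
    ⟨le_rfl, ?_, ?_, ?_, ?_, ?_, ?_⟩⟩
  · intro i j hi hj hij
    interval_cases i <;> interval_cases j <;> simp_all
  · intro i hi
    interval_cases i <;> simp_all [eq_comm]
  · simp
  · intro t
    rw [hst]
    constructor
    · rintro (rfl | rfl | rfl)
      · exact ⟨0, by omega, by simp⟩
      · exact ⟨1, by omega, by simp⟩
      · exact ⟨2, by omega, by simp⟩
    · rintro ⟨i, hi, rfl⟩
      interval_cases i
      · left; simp
      · right; left; simp
      · right; right; simp
  · intro i h3 h4
    omega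
  · intro i h3 h4 h5
    have h6 : i = 1 := by omega
    subst h6
    have h7 : ({a, b, c} : Finset V) ∈ T := by simpa using h5
    have h8 := Finset.card_le_card (c3_sub h hnd hst h7)
    have h9 : ({v, a, b, c} : Finset V).card ≤ 4 := Finset.card_le_four
    omega

/-- the corner `a` if `a c` is not an edge -/
private theorem c4_aux (h : Tr T) {v a b c e : V} (hnd : [v, a, b, c, e].Nodup)
    (hst : ∀ t, (t ∈ T ∧ v ∈ t) ↔
      (t = {v, a, b} ∨ t = {v, b, c} ∨ t = {v, c, e} ∨ t = {v, e, a}))
    (hac : ¬ (gT T).Adj a c) : ∃ w : ℕ → V, Cor T v 4 w := by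
  have h2 : Tri2 T := h.toTri2
  simp only [List.nodup_cons, List.mem_cons, List.not_mem_nil, or_false, not_or,
    List.nodup_nil, and_true, not_false_eq_true] at hnd
  obtain ⟨⟨n1, n2, n3, n4⟩, ⟨n5, n6, n7⟩, ⟨n8, n9⟩, n10⟩ := hnd
  refine ⟨fun i => if i = 0 then a else if i = 1 then b else if i = 2 then c else
    if i = 3 then e else a, ⟨by omega, ?_, ?_, ?_, ?_, ?_, ?_⟩⟩
  · intro i j hi hj hij
    interval_cases i <;> interval_cases j <;> simp_all
  · intro i hi
    interval_cases i <;> simp_all [eq_comm]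
  · simp
  · intro t
    rw [hst]
    constructor
    · rintro (rfl | rfl | rfl | rfl)
      · exact ⟨0, by omega, by simp⟩
      · exact ⟨1, by omega, by simp⟩
      · exact ⟨2, by omega, by simp⟩
      · exact ⟨3, by omega, by simp⟩
    · rintro ⟨i, hi, rfl⟩
      interval_cases i
      · left; simp
      · right; left; simp
      · right; right; left; simp
      · right; right; right; simp
  · intro i h3 h4
    have h5 : i = 2 := by omega
    subst h5
    simpa using hac
  · intro i h3 h4 h5
    have h6 : i = 1 ∨ i = 2 := by omega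
    rcases h6 with rfl | rfl
    · exact hac (h2.adj (a := a) (b := b) (c := c) (by simpa using h5)).2.1
    · exact hac (h2.adj (a := a) (b := c) (c := e) (by simpa using h5)).1

theorem cor4 (h : Tr T) {v : V} (hd : dg T v = 4) : ∃ w : ℕ → V, Cor T v 4 w := by
  obtain ⟨a, b, c, e, hnd, hst⟩ := link4 h.toTri2 hd
  by_cases hac : (gT T).Adj a c
  · by_cases hbe : (gT T).Adj b e
    · exfalso
      have h2 : Tri2 T := h.toTri2
      have t1 : ({v, a, b} : Finset V) ∈ T := ((hst _).2 (Or.inl rfl)).1
      have t2 : ({v, b, c} : Finset V) ∈ T := ((hst _).2 (Or.inr (Or.inl rfl))).1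
      have t3 : ({v, c, e} : Finset V) ∈ T := ((hst _).2 (Or.inr (Or.inr (Or.inl rfl)))).1
      have t4 : ({v, e, a} : Finset V) ∈ T := ((hst _).2 (Or.inr (Or.inr (Or.inr rfl)))).1
      obtain ⟨a1, a2, a3⟩ := h2.adj t1
      obtain ⟨_, a4, a5⟩ := h2.adj t2
      obtain ⟨_, a6, a7⟩ := h2.adj t3
      obtain ⟨_, _, a8⟩ := h2.adj t4
      have hadj : ∀ i j : Fin 5, i ≠ j → (gT T).Adj (![v, a, b, c, e] i) (![v, a, b, c, e] j) := by
        intro i j hij
        fin_cases i <;> fin_cases j <;> first
          | exact absurd rfl hij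
          | exact a1
          | exact a2
          | exact a3
          | exact a4
          | exact a5
          | exact a6
          | exact a7
          | exact a8
          | exact hac
          | exact hbe
          | exact a1.symm
          | exact a2.symm
          | exact a3.symm
          | exact a4.symm
          | exact a5.symm
          | exact a6.symm
          | exact a7.symm
          | exact a8.symm
          | exact hac.symm
          | exact hbe.symm
      refine h.k5 (Pool.Agent.Helper36.BL.IsMinor.of_inj ![v, a, b, c, e] ?_ ?_)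
      · intro i j hij
        by_contra hne
        have h5 := hadj i j hne
        rw [hij] at h5
        exact h5.1 rfl
      · intro i j hij
        exact hadj i j hij
    · refine c4_aux h (a := b) (b := c) (c := e) (e := a) ?_ ?_ hbe
      · simp only [List.nodup_cons, List.mem_cons, List.not_mem_nil, or_false, not_or,
          List.nodup_nil, and_true, not_false_eq_true] at hnd ⊢
        obtain ⟨⟨n1, n2, n3, n4⟩, ⟨n5, n6, n7⟩, ⟨n8, n9⟩, n10⟩ := hnd
        exact ⟨⟨n2, n3, n4, n1⟩, ⟨n8, n9, fun h => n5 h.symm⟩, ⟨n10, fun h => n6 h.symm⟩,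
          fun h => n7 h.symm⟩
      · intro t
        rw [hst]
        tauto
  · exact c4_aux h hnd hst hac

end Pool.Agent.Fary
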