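import Pool.Agent.Fary.Link

/-!
# FARY-Cor5: the corner at a vertex of degree 5

The link is a 5-cycle; two crossing chords would give a `K₅` minor, so some corner is in no chord.
-/

set_option autoImplicit false

namespace Pool.Agent.Fary

open Finset

open Pool.Agent.Helper36.BL in
private theorem cor5_cross {V : Type} {G : SimpleGraph V} {v a b c e g : V}
    (hnd : [v, a, b, c, e, g].Nodup) (va : G.Adj v a) (vb : G.Adj v b) (vc : G.Adj v c)
    (ve : G.Adj v e) (ab : G.Adj a b) (bc : G.Adj b c) (ce : G.Adj c e) (eg : G.Adj e g)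
    (ga : G.Adj g a) (ac : G.Adj a c) (be : G.Adj b e) : ¬ K5Free G := by
  simp only [List.nodup_cons, List.mem_cons, List.not_mem_nil, or_false, not_or,
    not_false_eq_true, List.nodup_nil, and_true] at hnd
  obtain ⟨⟨n1, n2, n3, n4, n5⟩, ⟨n6, n7, n8, n9⟩, ⟨n10, n11, n12⟩, ⟨n13, n14⟩, n15⟩ := hnd
  have s1 : ∀ x : V, (G.induce ({x} : Set V)).Connected := fun x =>
    star_connected G {x} x rfl (fun y hy hne => absurd hy hne)
  intro hK
  apply hK
  refine ⟨![{v}, {a, g}, {b}, {c}, {e}], ?_, ?_, ?_⟩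
  · intro i
    fin_cases i
    · exact s1 v
    · refine star_connected G {a, g} a (Or.inl rfl) ?_
      rintro x (hx | hx) hne
      · exact absurd hx hne
      · rw [hx]
        exact ga.symm
    · exact s1 b
    · exact s1 c
    · exact s1 e
  · intro i j hij
    rw [Set.disjoint_left]
    intro x hx hx'
    fin_cases i <;> fin_cases j <;> simp at hij hx hx' <;> aesop
  · have m : ∀ {A B : Set V} {x y : V}, x ∈ A → y ∈ B → G.Adj x y → 
        ∃ x ∈ A, ∃ y ∈ B, G.Adj x y := fun hx hy h => ⟨_, hx, _, hy, h⟩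
    have a1 : a ∈ ({a, g} : Set V) := Or.inl rfl
    have g1 : g ∈ ({a, g} : Set V) := Or.inr rfl
    have t : ∀ x : V, x ∈ ({x} : Set V) := fun x => rfl
    intro i j hij
    fin_cases i <;> fin_cases j
    · exact absurd rfl hij
    · exact m (t v) a1 va
    · exact m (t v) (t b) vb
    · exact m (t v) (t c) vc
    · exact m (t v) (t e) ve
    · exact m a1 (t v) va.symm
    · exact absurd rfl hij
    · exact m a1 (t b) ab
    · exact m a1 (t c) ac
    · exact m g1 (t e) eg.symm
    · exact m (t b) (t v) vb.symm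
    · exact m (t b) a1 ab.symm
    · exact absurd rfl hij
    · exact m (t b) (t c) bc
    · exact m (t b) (t e) be
    · exact m (t c) (t v) vc.symm
    · exact m (t c) a1 ac.symm
    · exact m (t c) (t b) bc.symm
    · exact absurd rfl hij
    · exact m (t c) (t e) ce
    · exact m (t e) (t v) ve.symm
    · exact m (t e) g1 eg
    · exact m (t e) (t b) be.symm
    · exact m (t e) (t c) ce.symm
    · exact absurd rfl hij

variable {V : Type} [DecidableEq V] {T : Finset (Finset V)}

private theorem cor5_corner {v a b c e g : V} (hnd : [v, a, b, c, e, g].Nodup)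
    (hst : ∀ t, (t ∈ T ∧ v ∈ t) ↔ (t = {v, a, b} ∨ t = {v, b, c} ∨ t = {v, c, e} ∨
      t = {v, e, g} ∨ t = {v, g, a}))
    (h1 : ¬ (gT T).Adj a c) (h2 : ¬ (gT T).Adj a e) : ∃ w : ℕ → V, Cor T v 5 w := by
  simp only [List.nodup_cons, List.mem_cons, List.not_mem_nil, or_false, not_or,
    not_false_eq_true, List.nodup_nil, and_true] at hnd
  obtain ⟨⟨n1, n2, n3, n4, n5⟩, ⟨n6, n7, n8, n9⟩, ⟨n10, n11, n12⟩, ⟨n13, n14⟩, n15⟩ := hnd
  have hac : ∀ t ∈ T, a ∈ t → c ∉ t := fun t ht ha hc => h1 ⟨n7, t, ht, ha, hc⟩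
  have hae : ∀ t ∈ T, a ∈ t → e ∉ t := fun t ht ha he => h2 ⟨n8, t, ht, ha, he⟩
  refine ⟨fun i => if i = 0 then a else if i = 1 then b else if i = 2 then c else
    if i = 3 then e else if i = 4 then g else a, ?_⟩
  refine ⟨by norm_num, ?_, ?_, rfl, ?_, ?_, ?_⟩
  · intro i j hi hj hij
    interval_cases i <;> interval_cases j <;> simp at hij <;>
      first
        | rfl
        | exact absurd hij (by assumption)
        | exact absurd hij.symm (by assumption)
  · intro i hi hiv
    interval_cases i <;> simp at hiv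
    · exact n1 hiv.symm
    · exact n2 hiv.symm
    · exact n3 hiv.symm
    · exact n4 hiv.symm
    · exact n5 hiv.symm
  · intro t
    rw [hst t]
    constructor
    · rintro (h | h | h | h | h)
      · exact ⟨0, by norm_num, h⟩
      · exact ⟨1, by norm_num, h⟩
      · exact ⟨2, by norm_num, h⟩
      · exact ⟨3, by norm_num, h⟩
      · exact ⟨4, by norm_num, h⟩
    · rintro ⟨i, hi, h⟩
      interval_cases i
      · exact Or.inl h
      · exact Or.inr (Or.inl h)
      · exact Or.inr (Or.inr (Or.inl h))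
      · exact Or.inr (Or.inr (Or.inr (Or.inl h)))
      · exact Or.inr (Or.inr (Or.inr (Or.inr h)))
  · intro i hi hi'
    have hi3 : i < 4 := by omega
    interval_cases i
    · exact h1
    · exact h2
  · intro i hi hi' ht
    have hi3 : i < 4 := by omega
    interval_cases i
    · exact hac {a, b, c} ht (by simp) (by simp)
    · exact hac {a, c, e} ht (by simp) (by simp)
    · exact hae {a, e, g} ht (by simp) (by simp)

private theorem cor5_rot {v a b c e g : V} (h : [v, a, b, c, e, g].Nodup) :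
    [v, b, c, e, g, a].Nodup := by
  have hp : [v, a, b, c, e, g].Perm [v, b, c, e, g, a] := by
    apply List.Perm.cons
    exact (List.perm_append_comm (l₁ := [a]) (l₂ := [b, c, e, g]))
  exact hp.nodup_iff.1 h

theorem cor5 (h : Tr T) {v : V} (hd : dg T v = 5) : ∃ w : ℕ → V, Cor T v 5 w := by
  obtain ⟨a, b, c, e, g, hnd, hst⟩ := link5 h.toTri2 hd
  have m1 := ((hst {v, a, b}).2 (Or.inl rfl)).1
  have m2 := ((hst {v, b, c}).2 (Or.inr (Or.inl rfl))).1
  have m3 := ((hst {v, c, e}).2 (Or.inr (Or.inr (Or.inl rfl)))).1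
  have m4 := ((hst {v, e, g}).2 (Or.inr (Or.inr (Or.inr (Or.inl rfl))))).1
  have m5 := ((hst {v, g, a}).2 (Or.inr (Or.inr (Or.inr (Or.inr rfl))))).1
  obtain ⟨va, vb, ab⟩ := h.adj m1
  obtain ⟨-, vc, bc⟩ := h.adj m2
  obtain ⟨-, ve, ce⟩ := h.adj m3
  obtain ⟨-, vg, eg⟩ := h.adj m4
  obtain ⟨-, -, ga⟩ := h.adj m5
  have r1 := cor5_rot hnd
  have r2 := cor5_rot r1
  have r3 := cor5_rot r2
  have r4 := cor5_rot r3
  by_cases c0 : (gT T).Adj a c
  · have c1 : ¬ (gT T).Adj b e := fun hc =>
      cor5_cross hnd va vb vc ve ab bc ce eg ga c0 hc h.k5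
    have c4 : ¬ (gT T).Adj b g := fun hc =>
      cor5_cross r4 vg va vb vc ga ab bc ce eg hc.symm c0 h.k5
    exact cor5_corner r1 (fun t => (hst t).trans (by tauto)) c1 c4
  · by_cases c3 : (gT T).Adj e a
    · have c2 : ¬ (gT T).Adj c g := fun hc =>
        cor5_cross r2 vc ve vg va ce eg ga ab bc hc c3 h.k5
      exact cor5_corner r2 (fun t => (hst t).trans (by tauto)) c2 (fun hc => c0 hc.symm)
    · exact cor5_corner hnd hst c0 (fun hc => c3 hc.symm)

end Pool.Agent.Fary
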