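import Pool.Agent.Fary.TriId

/-!
# FARY-Cover: a generic point lies in at most one inner triangle
-/

set_option autoImplicit false

namespace Pool.Agent.Fary

open Finset

private theorem cv_sg_same {u v : ℝ} (h : 0 < u * v) : sg u = sg v := by
  unfold sg
  rcases lt_trichotomy u 0 with hu | hu | hu
  · have hv : v < 0 := by
      by_contra hv
      have := mul_nonpos_of_nonpos_of_nonneg hu.le (not_lt.1 hv)
      linarith
    rw [if_neg (by linarith), if_neg (by linarith)]
  · rw [hu, zero_mul] at h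
    exact absurd h (lt_irrefl 0)
  · have hv : 0 < v := pos_of_mul_pos_right h hu.le
    rw [if_pos hu, if_pos hv]

private theorem cv_sg_opp {u v : ℝ} (h : u * v < 0) : sg u + sg v = 0 := by
  unfold sg
  rcases lt_trichotomy u 0 with hu | hu | hu
  · have hv : 0 < v := by
      by_contra hv
      have := mul_nonneg_of_nonpos_of_nonpos hu.le (not_lt.1 hv)
      linarith
    rw [if_neg (by linarith), if_pos hv]
    rfl
  · rw [hu, zero_mul] at h
    exact absurd h (lt_irrefl 0)
  · have hv : ¬ 0 < v := by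
      intro hv
      have := mul_pos hu hv
      linarith
    rw [if_pos hu, if_neg hv]
    rfl

variable {V : Type} [DecidableEq V]

/-- ordered triples with a given set of entries -/
private theorem cv_six [Fintype V] {a b c : V} (h1 : a ≠ b) (h2 : a ≠ c) (h3 : b ≠ c)
    (g : V → V → V → ℤ) :
    (∑ x : V × V × V, if ({x.1, x.2.1, x.2.2} : Finset V) = {a, b, c} then g x.1 x.2.1 x.2.2
      else 0) =
      g a b c + g b a c + g b c a + g c b a + g c a b + g a c b := by
  rw [← Finset.sum_filter]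
  have hf : (Finset.univ : Finset (V × V × V)).filter
      (fun x => ({x.1, x.2.1, x.2.2} : Finset V) = {a, b, c}) =
      {(a, b, c), (b, a, c), (b, c, a), (c, b, a), (c, a, b), (a, c, b)} := by
    ext ⟨p, q, r⟩
    simp only [Finset.mem_filter, Finset.mem_univ, true_and, Finset.mem_insert,
      Finset.mem_singleton, Prod.mk.injEq]
    constructor
    · intro h
      have hc : ({p, q, r} : Finset V).card = 3 := by
        rw [h]
        exact card_tri.2 ⟨h1, h2, h3⟩
      obtain ⟨g1, g2, g3⟩ := card_tri.1 hc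
      have hp : p ∈ ({a, b, c} : Finset V) := by rw [← h]; exact mem_tri.2 (Or.inl rfl)
      have hq : q ∈ ({a, b, c} : Finset V) := by
        rw [← h]; exact mem_tri.2 (Or.inr (Or.inl rfl))
      have hr : r ∈ ({a, b, c} : Finset V) := by
        rw [← h]; exact mem_tri.2 (Or.inr (Or.inr rfl))
      rcases mem_tri.1 hp with rfl | rfl | rfl <;> rcases mem_tri.1 hq with rfl | rfl | rfl <;>
        rcases mem_tri.1 hr with rfl | rfl | rfl <;>
        first
        | exact absurd rfl g1
        | exact absurd rfl g2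
        | exact absurd rfl g3
        | simp
    · rintro (⟨rfl, rfl, rfl⟩ | ⟨rfl, rfl, rfl⟩ | ⟨rfl, rfl, rfl⟩ | ⟨rfl, rfl, rfl⟩ |
        ⟨rfl, rfl, rfl⟩ | ⟨rfl, rfl, rfl⟩)
      · rfl
      · exact tri_swap _ _ _
      · rw [tri_rot, tri_rot]
      · rw [tri_rot, tri_swap]
      · exact tri_rot _ _ _
      · exact tri_swap' _ _ _
  rw [hf]
  have h1' := h1.symm
  have h2' := h2.symm
  have h3' := h3.symm
  rw [Finset.sum_insert, Finset.sum_insert, Finset.sum_insert, Finset.sum_insert,
    Finset.sum_insert, Finset.sum_singleton]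
  · ring
  · simp [h1, h2, h3, h1', h2', h3']
  · simp [h1, h2, h3, h1', h2', h3']
  · simp [h1, h2, h3, h1', h2', h3']
  · simp [h1, h2, h3, h1', h2', h3']
  · simp [h1, h2, h3, h1', h2', h3']

/-- the two triangles at an edge cancel -/
private theorem cv_edge [Fintype V] {T : Finset (Finset V)} {T0 : Finset V} {f : V → ℝ × ℝ}
    (h : Tri2 T) (h0 : T0 ∈ T) (g : Good f T T0) (p q : V) :
    (∑ r : V, if ({p, q, r} : Finset V) ∈ T then
      (if ({p, q, r} : Finset V) = T0 then (-1 : ℤ) else 1) * sg (o (f p) (f q) (f r)) else 0) =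
      0 := by
  by_cases hex : ∃ x, ({p, q, x} : Finset V) ∈ T
  · obtain ⟨x, hx⟩ := hex
    obtain ⟨z, hzx, hz⟩ := h.other hx
    obtain ⟨hpq, hpx, hqx⟩ := h.ne hx
    obtain ⟨_, hpz, hqz⟩ := h.ne hz
    rw [← Finset.sum_filter]
    have hf : (Finset.univ : Finset V).filter (fun r => ({p, q, r} : Finset V) ∈ T) = {x, z} := by
      ext r
      simp only [Finset.mem_filter, Finset.mem_univ, true_and, Finset.mem_insert,
        Finset.mem_singleton]
      constructor
      · intro hr
        exact h.third hx hz hzx.symm hr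
      · rintro (rfl | rfl)
        · exact hx
        · exact hz
    rw [hf, Finset.sum_pair hzx.symm]
    by_cases e1 : ({p, q, x} : Finset V) = T0
    · have e2 : ({p, q, z} : Finset V) ≠ T0 := by
        intro e2
        exact hzx (eq_of_tri (e2.trans e1.symm) hpz.symm hqz.symm)
      rw [if_pos e1, if_neg e2, cv_sg_same (g.out p q x z e1 hz hzx.symm)]
      ring
    · by_cases e2 : ({p, q, z} : Finset V) = T0
      · rw [if_neg e1, if_pos e2, cv_sg_same (g.out p q z x e2 hx hzx)]
        ring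
      · rw [if_neg e1, if_neg e2, one_mul, one_mul]
        apply cv_sg_opp
        apply g.inn p q x z hx hz hzx.symm
        rintro ⟨hp, hq⟩
        obtain ⟨r, hr⟩ := h.exists_third h0 hp hq hpq
        rw [hr] at h0
        rcases h.third hx hz hzx.symm h0 with rfl | rfl
        · exact e1 hr.symm
        · exact e2 hr.symm
  · push Not at hex
    apply Finset.sum_eq_zero
    intro r _
    rw [if_neg (hex r)]

theorem cover {V : Type} [DecidableEq V] [Fintype V] {T : Finset (Finset V)} {T0 : Finset V}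
    {f : V → ℝ × ℝ} (h : Tri2 T) (h0 : T0 ∈ T) (g : Good f T T0) {y : ℝ × ℝ}
    (hy1 : ∀ a ∈ vs T, (f a).2 ≠ y.2)
    (hy2 : ∀ a ∈ vs T, ∀ b ∈ vs T, a ≠ b → o (f a) (f b) y ≠ 0) {a b c a' b' c' : V}
    (h1 : ({a, b, c} : Finset V) ∈ T) (h2 : ({a', b', c'} : Finset V) ∈ T)
    (hn1 : ({a, b, c} : Finset V) ≠ T0) (hn2 : ({a', b', c'} : Finset V) ≠ T0)
    (i1 : InT (f a) (f b) (f c) y) (i2 : InT (f a') (f b') (f c') y) :
    ({a, b, c} : Finset V) = {a', b', c'} := by
  classical
  set F : Finset V → ℤ := fun t => ∑ x : V × V × V,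
    if ({x.1, x.2.1, x.2.2} : Finset V) = t then
      X (f x.1) (f x.2.1) y * sg (o (f x.1) (f x.2.1) (f x.2.2)) else 0 with hF
  -- the value at a triangle
  have hval : ∀ a b c : V, ({a, b, c} : Finset V) ∈ T →
      F {a, b, c} = if InT (f a) (f b) (f c) y then 1 else 0 := by
    intro a b c ht
    obtain ⟨g1, g2, g3⟩ := h.ne ht
    have ma : a ∈ vs T := mem_vs.2 ⟨_, ht, mem_tri.2 (Or.inl rfl)⟩
    have mb : b ∈ vs T := mem_vs.2 ⟨_, ht, mem_tri.2 (Or.inr (Or.inl rfl))⟩
    have mc : c ∈ vs T := mem_vs.2 ⟨_, ht, mem_tri.2 (Or.inr (Or.inr rfl))⟩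
    have h3 := cv_six g1 g2 g3
      (fun p q r => X (f p) (f q) y * sg (o (f p) (f q) (f r)))
    have h4 := tri_id (hy1 a ma) (hy1 b mb) (hy1 c mc) (g.gp a b c ma mb mc g1 g2 g3)
      (hy2 a ma b mb g1) (hy2 b mb c mc g3) (hy2 c mc a ma g2.symm)
    rw [← h4]
    exact h3
  have hF01 : ∀ t ∈ T, 0 ≤ F t ∧ F t ≤ 1 := by
    intro t ht
    obtain ⟨a, b, c, _, _, _, rfl⟩ := Finset.card_eq_three.1 (h.three t ht)
    rw [hval a b c ht]
    split_ifs <;> simp
  -- the total sum
  have hsum : ∑ t ∈ T, (if t = T0 then (-1 : ℤ) else 1) * F t = 0 := by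
    have e1 : ∑ t ∈ T, (if t = T0 then (-1 : ℤ) else 1) * F t =
        ∑ x : V × V × V, ∑ t ∈ T, (if ({x.1, x.2.1, x.2.2} : Finset V) = t then
          (if t = T0 then (-1 : ℤ) else 1) *
          (X (f x.1) (f x.2.1) y * sg (o (f x.1) (f x.2.1) (f x.2.2))) else 0) := by
      rw [Finset.sum_comm]
      refine Finset.sum_congr rfl fun t _ => ?_
      rw [hF]
      simp only
      rw [Finset.mul_sum]
      refine Finset.sum_congr rfl fun x _ => ?_
      split_ifs <;> simp
    have e2 : ∀ x : V × V × V, (∑ t ∈ T, (if ({x.1, x.2.1, x.2.2} : Finset V) = t then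
          (if t = T0 then (-1 : ℤ) else 1) *
          (X (f x.1) (f x.2.1) y * sg (o (f x.1) (f x.2.1) (f x.2.2))) else 0)) =
        X (f x.1) (f x.2.1) y * (if ({x.1, x.2.1, x.2.2} : Finset V) ∈ T then
          (if ({x.1, x.2.1, x.2.2} : Finset V) = T0 then (-1 : ℤ) else 1) *
            sg (o (f x.1) (f x.2.1) (f x.2.2)) else 0) := by
      intro x
      rw [Finset.sum_ite_eq]
      split_ifs <;> ring
    rw [e1, Finset.sum_congr rfl fun x _ => e2 x, Fintype.sum_prod_type]
    apply Finset.sum_eq_zero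
    intro p _
    rw [Fintype.sum_prod_type]
    apply Finset.sum_eq_zero
    intro q _
    simp only
    rw [← Finset.mul_sum, cv_edge h h0 g p q, mul_zero]
  by_contra hne
  rw [← Finset.add_sum_erase T _ h0, if_pos rfl] at hsum
  have e3 : ∑ t ∈ T.erase T0, (if t = T0 then (-1 : ℤ) else 1) * F t =
      ∑ t ∈ T.erase T0, F t := by
    refine Finset.sum_congr rfl fun t ht => ?_
    rw [if_neg (Finset.ne_of_mem_erase ht), one_mul]
  have e4 : ∑ t ∈ ({({a, b, c} : Finset V), ({a', b', c'} : Finset V)} : Finset (Finset V)), F t ≤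
      ∑ t ∈ T.erase T0, F t := by
    apply Finset.sum_le_sum_of_subset_of_nonneg
    · intro t ht
      rw [Finset.mem_insert, Finset.mem_singleton] at ht
      rcases ht with rfl | rfl
      · exact Finset.mem_erase.2 ⟨hn1, h1⟩
      · exact Finset.mem_erase.2 ⟨hn2, h2⟩
    · intro t ht _
      exact (hF01 t (Finset.mem_of_mem_erase ht)).1
  rw [Finset.sum_pair hne, hval a b c h1, hval a' b' c' h2, if_pos i1, if_pos i2] at e4
  rw [e3] at hsum
  have e5 := (hF01 T0 h0).2
  linarith

end Pool.Agent.Fary
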