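import Mathlib
import Pool.Agent.Helper1.PG.Minor
import Pool.Agent.Helper36.BL.Minor

/-!
# Straight line drawings of the graphs of the class `Pl` (Fary): definitions

Project FARY for MP_0d034c_co, architect helper21.  Target: `pl_drawn : Pl G → Drawn G`
(`Pool/Agent/Fary/Final.lean`).  A triangulation is a finset `T` of triples of vertices.
-/

set_option autoImplicit false

namespace Pool.Agent.Fary

open Finset
open Pool.Agent.Helper36.BL (K5Free)

/-- The graph `H` is drawn in the plane: the vertices are different points, the edges are injective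
arcs that pass through no further vertex, and arcs of different edges have disjoint interiors. -/
def Drawn {V : Type} (H : SimpleGraph V) : Prop :=
  ∃ (f : V → ℝ × ℝ) (γ : V → V → ℝ → ℝ × ℝ),
    Function.Injective f ∧
    (∀ u v : V, H.Adj u v →
      ContinuousOn (γ u v) (Set.Icc (0 : ℝ) 1) ∧ Set.InjOn (γ u v) (Set.Icc (0 : ℝ) 1) ∧
      γ u v 0 = f u ∧ γ u v 1 = f v ∧
      ∀ t ∈ Set.Ioo (0 : ℝ) 1, ∀ w : V, γ u v t ≠ f w) ∧
    (∀ u v u' v' : V, H.Adj u v → H.Adj u' v' → s(u, v) ≠ s(u', v') →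
      ∀ t ∈ Set.Ioo (0 : ℝ) 1, ∀ t' ∈ Set.Ioo (0 : ℝ) 1, γ u v t ≠ γ u' v' t')

/-- restriction of a drawing along an injective map -/
theorem Drawn.comap {V W : Type} {H : SimpleGraph V} {G : SimpleGraph W} (h : Drawn H) (i : W → V)
    (hi : Function.Injective i) (hG : ∀ u v, G.Adj u v → H.Adj (i u) (i v)) : Drawn G := by
  obtain ⟨f, γ, h1, h2, h3⟩ := h
  refine ⟨fun w => f (i w), fun u v => γ (i u) (i v), h1.comp hi, ?_, ?_⟩
  · intro u v huv
    obtain ⟨a1, a2, a3, a4, a5⟩ := h2 _ _ (hG u v huv)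
    exact ⟨a1, a2, a3, a4, fun t ht w => a5 t ht (i w)⟩
  · intro u v u' v' huv huv' hne
    refine h3 _ _ _ _ (hG u v huv) (hG u' v' huv') ?_
    intro h
    apply hne
    rw [Sym2.eq_iff] at h ⊢
    rcases h with ⟨h4, h5⟩ | ⟨h4, h5⟩
    · exact Or.inl ⟨hi h4, hi h5⟩
    · exact Or.inr ⟨hi h4, hi h5⟩

theorem Drawn.mono {V : Type} {H G : SimpleGraph V} (h : Drawn H) (hG : G ≤ H) : Drawn G :=
  h.comap id Function.injective_id (fun _ _ h => hG h)

/-! ### points -/

/-- orientation of three points of the plane -/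
def o (p q r : ℝ × ℝ) : ℝ := (q.1 - p.1) * (r.2 - p.2) - (r.1 - p.1) * (q.2 - p.2)

theorem o_cyc (p q r : ℝ × ℝ) : o q r p = o p q r := by unfold o; ring

theorem o_swap (p q r : ℝ × ℝ) : o q p r = - o p q r := by unfold o; ring

theorem o_swap' (p q r : ℝ × ℝ) : o p r q = - o p q r := by unfold o; ring

theorem o_self (p q : ℝ × ℝ) : o p p q = 0 ∧ o p q p = 0 ∧ o p q q = 0 := by
  unfold o; refine ⟨by ring, by ring, by ring⟩

/-- `y` is an inner point of the triangle `a b c` -/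
def InT (a b c y : ℝ × ℝ) : Prop :=
  0 < o a b c * o a b y ∧ 0 < o b c a * o b c y ∧ 0 < o c a b * o c a y

/-! ### triangulations -/

variable {V : Type} [DecidableEq V]

/-- the vertices of a family of triples -/
def vs (T : Finset (Finset V)) : Finset V := T.biUnion id

theorem mem_vs {T : Finset (Finset V)} {v : V} : v ∈ vs T ↔ ∃ t ∈ T, v ∈ t := by
  unfold vs; simp

/-- the graph of a family of triples -/
def gT (T : Finset (Finset V)) : SimpleGraph V where
  Adj u v := u ≠ v ∧ ∃ t ∈ T, u ∈ t ∧ v ∈ t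
  symm := ⟨fun _ _ ⟨h1, t, h2, h3, h4⟩ => ⟨h1.symm, t, h2, h4, h3⟩⟩
  loopless := ⟨fun _ h => h.1 rfl⟩

omit [DecidableEq V] in
theorem gT_adj {T : Finset (Finset V)} {u v : V} :
    (gT T).Adj u v ↔ u ≠ v ∧ ∃ t ∈ T, u ∈ t ∧ v ∈ t := Iff.rfl

/-- triples, every edge in exactly two triples -/
structure Tri2 (T : Finset (Finset V)) : Prop where
  three : ∀ t ∈ T, t.card = 3
  two : ∀ u v, (gT T).Adj u v → (T.filter (fun t => u ∈ t ∧ v ∈ t)).card = 2

/-- triangulations of the sphere -/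
structure Tr (T : Finset (Finset V)) : Prop extends Tri2 T where
  dual : ∀ P ⊆ T, P.Nonempty → P ≠ T → ∃ s ∈ P, ∃ t ∈ T, t ∉ P ∧
    ∃ u v, u ≠ v ∧ u ∈ s ∧ v ∈ s ∧ u ∈ t ∧ v ∈ t
  euler : T.card + 4 = 2 * (vs T).card
  k5 : K5Free (gT T)

/-- `f` is a good placement: general position; the two triangles at an inner edge lie on different
sides, the two triangles at an edge of the outer triangle `T0` lie on the same side -/
structure Good (f : V → ℝ × ℝ) (T : Finset (Finset V)) (T0 : Finset V) : Prop where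
  gp : ∀ a b c, a ∈ vs T → b ∈ vs T → c ∈ vs T → a ≠ b → a ≠ c → b ≠ c →
    o (f a) (f b) (f c) ≠ 0
  inn : ∀ a b x y, ({a, b, x} : Finset V) ∈ T → ({a, b, y} : Finset V) ∈ T → x ≠ y →
    ¬ (a ∈ T0 ∧ b ∈ T0) → o (f a) (f b) (f x) * o (f a) (f b) (f y) < 0
  out : ∀ a b x y, ({a, b, x} : Finset V) = T0 → ({a, b, y} : Finset V) ∈ T → x ≠ y →
    0 < o (f a) (f b) (f x) * o (f a) (f b) (f y)

/-- number of triples at `v` -/
def dg (T : Finset (Finset V)) (v : V) : ℕ := (T.filter (fun t => v ∈ t)).card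

/-- the link of `v` is the cycle `w 0, …, w (d-1)`, `w d = w 0`; the corner `w 0` is in no chord, and
the triangles of the fan with apex `w 0` are not in `T` -/
structure Cor (T : Finset (Finset V)) (v : V) (d : ℕ) (w : ℕ → V) : Prop where
  three_le : 3 ≤ d
  inj : ∀ i j, i < d → j < d → w i = w j → i = j
  ne : ∀ i, i < d → w i ≠ v
  per : w d = w 0
  star : ∀ t, (t ∈ T ∧ v ∈ t) ↔ ∃ i, i < d ∧ t = {v, w i, w (i + 1)}
  chord : ∀ i, 2 ≤ i → i + 2 ≤ d → ¬ (gT T).Adj (w 0) (w i)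
  nfan : ∀ i, 1 ≤ i → i + 2 ≤ d → ({w 0, w i, w (i + 1)} : Finset V) ∉ T

/-- the fan -/
def fan (d : ℕ) (w : ℕ → V) : Finset (Finset V) :=
  (Finset.Ico 1 (d - 1)).image (fun i => {w 0, w i, w (i + 1)})

theorem mem_fan {d : ℕ} {w : ℕ → V} {t : Finset V} :
    t ∈ fan d w ↔ ∃ i, 1 ≤ i ∧ i + 2 ≤ d ∧ t = {w 0, w i, w (i + 1)} := by
  unfold fan
  simp only [Finset.mem_image, Finset.mem_Ico]
  constructor
  · rintro ⟨i, ⟨h1, h2⟩, rfl⟩
    exact ⟨i, h1, by omega, rfl⟩
  · rintro ⟨i, h1, h2, rfl⟩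
    exact ⟨i, ⟨h1, by omega⟩, rfl⟩

/-- deletion of `v` and triangulation of the hole from the corner `w 0` -/
def red (T : Finset (Finset V)) (v : V) (d : ℕ) (w : ℕ → V) : Finset (Finset V) :=
  T.filter (fun t => v ∉ t) ∪ fan d w

theorem mem_red {T : Finset (Finset V)} {v : V} {d : ℕ} {w : ℕ → V} {t : Finset V} :
    t ∈ red T v d w ↔ (t ∈ T ∧ v ∉ t) ∨ ∃ i, 1 ≤ i ∧ i + 2 ≤ d ∧ t = {w 0, w i, w (i + 1)} := by
  unfold red
  rw [Finset.mem_union, Finset.mem_filter, mem_fan]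

end Pool.Agent.Fary
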