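import Pool.Agent.Fary.Bas

/-!
# FARY-Deg (0.9h): a vertex of small degree outside `T0`

PLAN.
1. `three_le`: every `v ∈ vs T` has `3 ≤ dg T v`: `{v, a, b} ∈ T` (`mem_vs`, `three`), the other triangle
   `{v, a, c}`, `c ≠ b` at `v a`, the other triangle `{v, b, c'}`, `c' ≠ a` at `v b` (use `tri_swap'` and
   `Tri2.other`); the three triangles are distinct (`a ∉ {v, b, c'}`) and contain `v`.
2. `∑ v ∈ vs T, dg T v = 3 * T.card` (double counting, `Finset.sum_card_bipartiteAbove_eq_sum_card_bipartiteBelow`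
   or `Finset.sum_comm`: `∑ v ∈ vs T, ∑ t ∈ T, [v ∈ t] = ∑ t ∈ T, t.card`, as `t ⊆ vs T`), and
   `T.card + 4 = 2 * (vs T).card`, so `∑ v ∈ vs T, (6 - dg T v : ℤ) = 12`.
3. If all `v ∈ vs T \ T0` have `dg T v ≥ 6` then the sum is at most `∑ v ∈ T0, (6 - dg T v) ≤ 3 * 3 = 9`,
   contradiction (`T0 ⊆ vs T`, `T0.card = 3`).
-/

set_option autoImplicit false

namespace Pool.Agent.Fary

open Finset

variable {V : Type} [DecidableEq V] {T : Finset (Finset V)}

theorem three_le (h : Tri2 T) {v : V} (hv : v ∈ vs T) : 3 ≤ dg T v := by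
  obtain ⟨t, ht, hvt⟩ := mem_vs.1 hv
  have hcard := h.three t ht
  obtain ⟨a, ha, hav⟩ : ∃ a ∈ t, a ≠ v := by
    have h1 : 1 < t.card := by omega
    exact Finset.exists_mem_ne h1 v
  obtain ⟨b, rfl⟩ := h.exists_third ht hvt ha hav.symm
  obtain ⟨hva, hvb, hab⟩ := h.ne ht
  obtain ⟨c, hcb, hc⟩ := h.other ht
  have ht' : ({v, b, a} : Finset V) ∈ T := by rwa [tri_swap']
  obtain ⟨c', hca, hc'⟩ := h.other ht'
  obtain ⟨hva', hvc, hac⟩ := h.ne hc
  obtain ⟨hvb', hvc', hbc'⟩ := h.ne hc'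
  have h5 : ({{v, a, b}, {v, a, c}, {v, b, c'}} : Finset (Finset V)) ⊆
      T.filter (fun t => v ∈ t) := by
    intro t ht
    rw [Finset.mem_insert, Finset.mem_insert, Finset.mem_singleton] at ht
    rcases ht with rfl | rfl | rfl
    · exact Finset.mem_filter.2 ⟨by rwa [tri_swap'], by simp⟩
    · exact Finset.mem_filter.2 ⟨hc, by simp⟩
    · exact Finset.mem_filter.2 ⟨hc', by simp⟩
  have h7 : ({{v, a, b}, {v, a, c}, {v, b, c'}} : Finset (Finset V)).card = 3 := by
    rw [Finset.card_eq_three]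
    refine ⟨_, _, _, ?_, ?_, ?_, rfl⟩
    · intro h8
      exact hcb (eq_of_tri h8 hvb.symm hab.symm).symm
    · intro h8
      rw [tri_swap' v a b] at h8
      exact hca (eq_of_tri h8 hva.symm hab).symm
    · intro h8
      have h9 : a ∈ ({v, b, c'} : Finset V) := by
        rw [← h8]
        exact mem_tri.2 (Or.inr (Or.inl rfl))
      rcases mem_tri.1 h9 with h10 | h10 | h10
      · exact hva h10.symm
      · exact hab h10
      · exact hca h10.symm
  have h8 := Finset.card_le_card h5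
  unfold dg
  omega

private theorem sum_dg (h : Tri2 T) : ∑ v ∈ vs T, dg T v = 3 * T.card := by
  have h1 : ∀ v ∈ vs T, dg T v = ∑ t ∈ T, if v ∈ t then 1 else 0 := by
    intro v _
    unfold dg
    rw [Finset.card_filter]
  rw [Finset.sum_congr rfl h1, Finset.sum_comm]
  have h2 : ∀ t ∈ T, (∑ v ∈ vs T, if v ∈ t then 1 else 0) = 3 := by
    intro t ht
    rw [← Finset.card_filter]
    have h3 : (vs T).filter (fun v => v ∈ t) = t := by
      ext v
      rw [Finset.mem_filter]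
      constructor
      · exact fun h => h.2
      · exact fun hv => ⟨mem_vs.2 ⟨t, ht, hv⟩, hv⟩
    rw [h3]
    exact h.three t ht
  rw [Finset.sum_congr rfl h2, Finset.sum_const, smul_eq_mul, mul_comm]

theorem exists_deg (h : Tr T) {T0 : Finset V} (h0 : T0 ∈ T) :
    ∃ v ∈ vs T, v ∉ T0 ∧ 3 ≤ dg T v ∧ dg T v ≤ 5 := by
  by_contra hcon
  push Not at hcon
  have h6 : ∀ v ∈ vs T \ T0, 6 ≤ dg T v := by
    intro v hv
    rw [Finset.mem_sdiff] at hv
    exact hcon v hv.1 hv.2 (three_le h.toTri2 hv.1)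
  have hsub : T0 ⊆ vs T := fun v hv => mem_vs.2 ⟨T0, h0, hv⟩
  have h3 : ∀ v ∈ T0, 3 ≤ dg T v := fun v hv => three_le h.toTri2 (hsub hv)
  have hsum := sum_dg h.toTri2
  rw [← Finset.sum_sdiff hsub] at hsum
  have h7 : (vs T \ T0).card • 6 ≤ ∑ v ∈ vs T \ T0, dg T v :=
    Finset.card_nsmul_le_sum _ _ _ h6
  have h8 : T0.card • 3 ≤ ∑ v ∈ T0, dg T v := Finset.card_nsmul_le_sum _ _ _ h3
  rw [h.three T0 h0] at h8
  have h9 := Finset.card_sdiff_add_card_eq_card hsub
  rw [h.three T0 h0] at h9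
  have h10 := h.euler
  simp only [smul_eq_mul] at h7 h8
  omega

end Pool.Agent.Fary
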