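import Pool.Agent.Fary.Avoid

/-!
# FARY-Loc (0.9h): near a crossing point of two edges the triangles overlap

PLAN.  `z` is in the open segment `a b` and in the open segment `c e`; `x1`, `x2` are on different sides of
the line `a b`; `x'` is not on the line `c e`.
* `W` = the set of `y` with `0 < o b x1 a * o b x1 y`, `0 < o x1 a b * o x1 a y`, `0 < o b x2 a * o b x2 y`,
  `0 < o x2 a b * o x2 a y`: open (continuity), and `z ∈ W`: `o` is affine in the last argument,
  `o b x1 z = (1 - t) * o b x1 a + t * o b x1 b = (1 - t) * o b x1 a`, and `o b x1 a = o a b x1 ≠ 0` etc.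
* `O' = {y | InT c e x' y}` is open, and `y_r = z + r • (x' - z)` for `0 < r < 1` is in `O'`:
  `o c e y_r = r * o c e x'` (as `o c e z = 0`), `o e x' y_r = (1 - r) * o e x' z`,
  `o e x' z = (1 - s) * o e x' c`, `o x' c y_r = (1 - r) * o x' c z`, `o x' c z = s * o x' c e`.
  As `y_r → z` for `r → 0`, `W ∩ O'` is nonempty; it is open.
* `avoid_points` gives `y ∈ W ∩ O'` generic for `S`; `o a b y ≠ 0` since `a, b ∈ S`, `a ≠ b`; its sign is the
  sign of `o a b x1` or of `o a b x2` (the product of these is negative), so `InT a b x1 y` or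
  `InT a b x2 y` (use `InT a b x y`: `0 < o a b x * o a b y`, `0 < o b x a * o b x y`,
  `0 < o x a b * o x a y`).
-/

set_option autoImplicit false

namespace Pool.Agent.Fary

private theorem loc_cont (p q : ℝ × ℝ) : Continuous (fun y : ℝ × ℝ => o p q y) := by
  unfold o
  fun_prop

private theorem loc_open (k : ℝ) (p q : ℝ × ℝ) : IsOpen {y : ℝ × ℝ | 0 < k * o p q y} :=
  isOpen_lt continuous_const (continuous_const.mul (loc_cont p q))

theorem loc {a b x1 x2 c e x' z : ℝ × ℝ} (S : Finset (ℝ × ℝ)) (ha : a ∈ S) (hb : b ∈ S)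
    (hab : a ≠ b) (h1 : o a b x1 * o a b x2 < 0) {t s : ℝ} (ht : t ∈ Set.Ioo (0 : ℝ) 1)
    (hz : z = (1 - t) • a + t • b) (hs : s ∈ Set.Ioo (0 : ℝ) 1) (hz' : z = (1 - s) • c + s • e)
    (h3 : o c e x' ≠ 0) :
    ∃ y, (∀ p ∈ S, p.2 ≠ y.2) ∧ (∀ p ∈ S, ∀ q ∈ S, p ≠ q → o p q y ≠ 0) ∧ InT c e x' y ∧
      (InT a b x1 y ∨ InT a b x2 y) := by
  have hz1 : z.1 = (1 - t) * a.1 + t * b.1 := by rw [hz]; simp
  have hz2 : z.2 = (1 - t) * a.2 + t * b.2 := by rw [hz]; simp
  have hy1 : z.1 = (1 - s) * c.1 + s * e.1 := by rw [hz']; simp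
  have hy2 : z.2 = (1 - s) * c.2 + s * e.2 := by rw [hz']; simp
  have hA1 : o a b x1 ≠ 0 := fun h => by
    rw [h, zero_mul] at h1
    exact lt_irrefl _ h1
  have hA2 : o a b x2 ≠ 0 := fun h => by
    rw [h, mul_zero] at h1
    exact lt_irrefl _ h1
  have hW : ∀ x : ℝ × ℝ, o a b x ≠ 0 → 0 < o b x a * o b x z ∧ 0 < o x a b * o x a z := by
    intro x hx
    have e1 : o b x z = (1 - t) * o b x a := by
      unfold o
      rw [hz1, hz2]
      ring
    have e2 : o x a z = t * o x a b := by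
      unfold o
      rw [hz1, hz2]
      ring
    have e3 : o b x a = o a b x := o_cyc a b x
    have e4 : o x a b = o a b x := by rw [← o_cyc x a b]
    rw [e1, e2, e3, e4]
    have h5 : 0 < o a b x ^ 2 := by positivity
    have h6 : 0 < 1 - t := by linarith [ht.2]
    have h7 : 0 < t := ht.1
    refine ⟨?_, ?_⟩
    · have h8 : o a b x * ((1 - t) * o a b x) = (1 - t) * o a b x ^ 2 := by ring
      rw [h8]
      exact mul_pos h6 h5
    · have h8 : o a b x * (t * o a b x) = t * o a b x ^ 2 := by ring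
      rw [h8]
      exact mul_pos h7 h5
  set W : Set (ℝ × ℝ) := {y | 0 < o b x1 a * o b x1 y} ∩ {y | 0 < o x1 a b * o x1 a y} ∩
    ({y | 0 < o b x2 a * o b x2 y} ∩ {y | 0 < o x2 a b * o x2 a y}) with hWd
  have hWo : IsOpen W :=
    ((loc_open _ _ _).inter (loc_open _ _ _)).inter ((loc_open _ _ _).inter (loc_open _ _ _))
  have hzW : z ∈ W := ⟨⟨(hW x1 hA1).1, (hW x1 hA1).2⟩, ⟨(hW x2 hA2).1, (hW x2 hA2).2⟩⟩
  set O' : Set (ℝ × ℝ) := {y | 0 < o c e x' * o c e y} ∩ ({y | 0 < o e x' c * o e x' y} ∩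
    {y | 0 < o x' c e * o x' c y}) with hOd
  have hOo : IsOpen O' := (loc_open _ _ _).inter ((loc_open _ _ _).inter (loc_open _ _ _))
  have hin : ∀ r : ℝ, 0 < r → r < 1 → z + r • (x' - z) ∈ O' := by
    intro r hr0 hr1
    have c1 : (z + r • (x' - z)).1 = z.1 + r * (x'.1 - z.1) := by simp
    have c2 : (z + r • (x' - z)).2 = z.2 + r * (x'.2 - z.2) := by simp
    have e1 : o c e (z + r • (x' - z)) = r * o c e x' := by
      unfold o
      rw [c1, c2, hy1, hy2]
      ring
    have e2 : o e x' (z + r • (x' - z)) = (1 - r) * (1 - s) * o e x' c := by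
      unfold o
      rw [c1, c2, hy1, hy2]
      ring
    have e3 : o x' c (z + r • (x' - z)) = (1 - r) * s * o x' c e := by
      unfold o
      rw [c1, c2, hy1, hy2]
      ring
    have e4 : o e x' c = o c e x' := o_cyc c e x'
    have e5 : o x' c e = o c e x' := by rw [← o_cyc x' c e]
    have h5 : 0 < o c e x' ^ 2 := by positivity
    have h6 : 0 < 1 - s := by linarith [hs.2]
    have h7 : 0 < s := hs.1
    have h8 : 0 < 1 - r := by linarith
    refine ⟨?_, ?_, ?_⟩
    · show 0 < o c e x' * o c e (z + r • (x' - z))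
      rw [e1]
      have h9 : o c e x' * (r * o c e x') = r * o c e x' ^ 2 := by ring
      rw [h9]
      exact mul_pos hr0 h5
    · show 0 < o e x' c * o e x' (z + r • (x' - z))
      rw [e2, e4]
      have h9 : o c e x' * ((1 - r) * (1 - s) * o c e x') =
          ((1 - r) * (1 - s)) * o c e x' ^ 2 := by ring
      rw [h9]
      exact mul_pos (mul_pos h8 h6) h5
    · show 0 < o x' c e * o x' c (z + r • (x' - z))
      rw [e3, e5]
      have h9 : o c e x' * ((1 - r) * s * o c e x') = ((1 - r) * s) * o c e x' ^ 2 := by ring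
      rw [h9]
      exact mul_pos (mul_pos h8 h7) h5
  have hne : (W ∩ O').Nonempty := by
    have hc : Continuous (fun r : ℝ => z + r • (x' - z)) := by fun_prop
    have hpre : IsOpen ((fun r : ℝ => z + r • (x' - z)) ⁻¹' W) := hWo.preimage hc
    have h0 : (0 : ℝ) ∈ (fun r : ℝ => z + r • (x' - z)) ⁻¹' W := by
      show z + (0 : ℝ) • (x' - z) ∈ W
      rw [zero_smul, add_zero]
      exact hzW
    obtain ⟨δ, hδ, hball⟩ := Metric.isOpen_iff.1 hpre 0 h0
    have hm : 0 < min (δ / 2) (1 / 2) := lt_min (by linarith) (by norm_num)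
    have hr : min (δ / 2) (1 / 2) ∈ Metric.ball (0 : ℝ) δ := by
      rw [Metric.mem_ball, dist_zero_right, Real.norm_of_nonneg hm.le]
      exact (min_le_left _ _).trans_lt (by linarith)
    exact ⟨_, hball hr, hin _ hm ((min_le_right _ _).trans_lt (by norm_num))⟩
  obtain ⟨y, ⟨hyW, hyO⟩, hg1, hg2⟩ := avoid_points (hWo.inter hOo) hne S
  refine ⟨y, hg1, hg2, ⟨hyO.1, hyO.2.1, hyO.2.2⟩, ?_⟩
  have hy0 : o a b y ≠ 0 := hg2 a ha b hb hab
  obtain ⟨⟨w1, w2⟩, w3, w4⟩ := hyW
  rcases lt_or_gt_of_ne (mul_ne_zero hA1 hy0) with h5 | h5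
  · refine Or.inr ⟨?_, w3, w4⟩
    have h6 : 0 < (o a b x1 * o a b x2) * (o a b x1 * o a b y) := mul_pos_of_neg_of_neg h1 h5
    have h7 : (o a b x1 * o a b x2) * (o a b x1 * o a b y) =
        o a b x1 ^ 2 * (o a b x2 * o a b y) := by ring
    rw [h7] at h6
    exact (mul_pos_iff_of_pos_left (by positivity)).1 h6
  · exact Or.inl ⟨h5, w1, w2⟩

end Pool.Agent.Fary
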