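import Pool.Agent.Fary.Cover
import Pool.Agent.Fary.Loc

/-!
# FARY-Draw (1.1h): a good placement is a straight line drawing

PLAN.  `f` is injective: if `f a = f b`, `a ≠ b`, take a third vertex `c` (`vs T = univ`, `a` lies in a
triple, which has three elements); `gp` for `a, b, c` contradicts `o_self`.  Take
`γ u v t = (1 - t) • f u + t • f v`.  Continuity, injectivity on `[0, 1]` (`f u ≠ f v`), ends: routine.
* no vertex in an open edge: `γ u v t = f w`, `0 < t < 1`: then `o (f u) (f v) (f w) = 0`, so by `gp`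
  `w = u` or `w = v`, and then `t = 0` or `t = 1` by injectivity.
* two edges `a b`, `c e` of `gT T` with `s(a,b) ≠ s(c,e)`, `z = γ a b t = γ c e s`:
  - if they share a vertex, say `a = c` (4 cases, reverse the segments by `t ↦ 1 - t`): then `b ≠ e`,
    `z = f a + t • (f b - f a) = f a + s • (f e - f a)` with `t, s ≠ 0`, so
    `o (f a) (f b) (f e) = 0` (multiply by `t * s`), contradiction to `gp`.
  - otherwise `a, b, c, e` are distinct.  One of the two edges is inner, i.e. not both ends in `T0` (`T0` has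
    three elements, four are distinct).  By symmetry let `¬ (a ∈ T0 ∧ b ∈ T0)`.  Take `{a, b, x1} ∈ T`
    (`exists_third`), `{a, b, x2} ∈ T`, `x2 ≠ x1` (`other`), both are `≠ T0`.  Take `{c, e, x'} ∈ T` different
    from `T0` (of the two triangles at `c e` at least one is not `T0`).  `o (f c) (f e) (f x') ≠ 0` by `gp`,
    `o (f a) (f b) (f x1) * o (f a) (f b) (f x2) < 0` by `inn`.  `loc` with `S = univ.image f` gives a
    generic `y`, and `cover` gives `{c, e, x'} = {a, b, x1}` or `= {a, b, x2}`: then four distinct elements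
    `a, b, c, e` lie in a set of three elements, contradiction.
-/

set_option autoImplicit false

namespace Pool.Agent.Fary

open Finset

private theorem dr_seg_inj {p q : ℝ × ℝ} (h : p ≠ q) {t s : ℝ}
    (e : (1 - t) • p + t • q = (1 - s) • p + s • q) : t = s := by
  have e1 := congrArg Prod.fst e
  have e2 := congrArg Prod.snd e
  simp only [Prod.fst_add, Prod.snd_add, Prod.smul_fst, Prod.smul_snd, smul_eq_mul] at e1 e2
  by_contra hne
  have h0 : t - s ≠ 0 := sub_ne_zero.2 hne
  apply h
  refine Prod.ext ?_ ?_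
  · have h1 : (t - s) * (p.1 - q.1) = 0 := by linarith
    have h2 := (mul_eq_zero.1 h1).resolve_left h0
    linarith
  · have h1 : (t - s) * (p.2 - q.2) = 0 := by linarith
    have h2 := (mul_eq_zero.1 h1).resolve_left h0
    linarith

private theorem dr_share {p q r : ℝ × ℝ} {t s : ℝ} (ht : t ≠ 0) (hs : s ≠ 0)
    (e : (1 - t) • p + t • q = (1 - s) • p + s • r) : o p q r = 0 := by
  have e1 := congrArg Prod.fst e
  have e2 := congrArg Prod.snd e
  simp only [Prod.fst_add, Prod.snd_add, Prod.smul_fst, Prod.smul_snd, smul_eq_mul] at e1 e2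
  have f1 : t * (q.1 - p.1) = s * (r.1 - p.1) := by linarith
  have f2 : t * (q.2 - p.2) = s * (r.2 - p.2) := by linarith
  have h1 : (t * s) * o p q r = 0 := by
    unfold o
    calc (t * s) * ((q.1 - p.1) * (r.2 - p.2) - (r.1 - p.1) * (q.2 - p.2))
        = (t * (q.1 - p.1)) * (s * (r.2 - p.2)) - (s * (r.1 - p.1)) * (t * (q.2 - p.2)) := by
          ring
      _ = 0 := by rw [f1, f2]; ring
  exact (mul_eq_zero.1 h1).resolve_left (mul_ne_zero ht hs)

private theorem dr_line {p q r : ℝ × ℝ} {t : ℝ} (e : (1 - t) • p + t • q = r) : o p q r = 0 := by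
  rw [← e]
  unfold o
  simp only [Prod.fst_add, Prod.snd_add, Prod.smul_fst, Prod.smul_snd, smul_eq_mul]
  ring

private theorem dr_rev (p q : ℝ × ℝ) (t : ℝ) :
    (1 - t) • p + t • q = (1 - (1 - t)) • q + (1 - t) • p := by
  rw [sub_sub_cancel, add_comm]

/-- disjoint edges do not cross -/
private theorem dr_cross {V : Type} [DecidableEq V] [Fintype V] {T : Finset (Finset V)}
    {T0 : Finset V} {f : V → ℝ × ℝ} (h : Tri2 T) (hv : vs T = univ) (h0 : T0 ∈ T)
    (g : Good f T T0) (hf : Function.Injective f) {a b c e : V} (hab : (gT T).Adj a b)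
    (hce : (gT T).Adj c e) (n1 : a ≠ c) (n2 : a ≠ e) (n3 : b ≠ c) (n4 : b ≠ e)
    (hin : ¬ (a ∈ T0 ∧ b ∈ T0)) {t s : ℝ} (ht : t ∈ Set.Ioo (0 : ℝ) 1)
    (hs : s ∈ Set.Ioo (0 : ℝ) 1)
    (hz : (1 - t) • f a + t • f b = (1 - s) • f c + s • f e) : False := by
  have hall : ∀ v : V, v ∈ vs T := fun v => by rw [hv]; exact mem_univ v
  obtain ⟨hab0, t1, ht1, hat, hbt⟩ := hab
  obtain ⟨x1, rfl⟩ := h.exists_third ht1 hat hbt hab0
  obtain ⟨x2, hx21, hx2⟩ := h.other ht1
  obtain ⟨hce0, t2, ht2, hct, het⟩ := hce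
  have hx' : ∃ x', ({c, e, x'} : Finset V) ∈ T ∧ ({c, e, x'} : Finset V) ≠ T0 := by
    obtain ⟨y1, rfl⟩ := h.exists_third ht2 hct het hce0
    obtain ⟨y2, hy21, hy2⟩ := h.other ht2
    by_cases hy : ({c, e, y1} : Finset V) = T0
    · refine ⟨y2, hy2, fun h5 => hy21 ?_⟩
      obtain ⟨-, h6, h7⟩ := h.ne hy2
      exact eq_of_tri (h5.trans hy.symm) h6.symm h7.symm
    · exact ⟨y1, ht2, hy⟩
  obtain ⟨x', hx'T, hx'0⟩ := hx'
  have hn : ∀ x, ({a, b, x} : Finset V) ≠ T0 := by
    intro x h5
    apply hin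
    rw [← h5]
    exact ⟨mem_tri.2 (Or.inl rfl), mem_tri.2 (Or.inr (Or.inl rfl))⟩
  obtain ⟨k1, k2, k3⟩ := h.ne hx'T
  obtain ⟨y, hy1, hy2, hy3, hy4⟩ := loc (a := f a) (b := f b) (x1 := f x1) (x2 := f x2)
    (c := f c) (e := f e) (x' := f x') (z := (1 - t) • f a + t • f b) (univ.image f)
    (mem_image_of_mem f (mem_univ a)) (mem_image_of_mem f (mem_univ b))
    (fun h5 => hab0 (hf h5)) (g.inn a b x1 x2 ht1 hx2 hx21.symm hin) ht rfl hs hz
    (g.gp c e x' (hall c) (hall e) (hall x') k1 k2 k3)
  have hc1 : ∀ v ∈ vs T, (f v).2 ≠ y.2 := fun v _ => hy1 _ (mem_image_of_mem f (mem_univ v))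
  have hc2 : ∀ v ∈ vs T, ∀ w ∈ vs T, v ≠ w → o (f v) (f w) y ≠ 0 := fun v _ w _ hvw =>
    hy2 _ (mem_image_of_mem f (mem_univ v)) _ (mem_image_of_mem f (mem_univ w))
      (fun h5 => hvw (hf h5))
  have hfin : ∀ x, ({a, b, x} : Finset V) ∈ T → InT (f a) (f b) (f x) y → False := by
    intro x hx hi
    have h5 := cover h h0 g hc1 hc2 hx'T hx hx'0 (hn x) hy3 hi
    have h6 : a ∈ ({c, e, x'} : Finset V) := by rw [h5]; exact mem_tri.2 (Or.inl rfl)
    have h7 : b ∈ ({c, e, x'} : Finset V) := by rw [h5]; exact mem_tri.2 (Or.inr (Or.inl rfl))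
    have h8 : a = x' := by
      rcases mem_tri.1 h6 with h9 | h9 | h9
      · exact absurd h9 n1
      · exact absurd h9 n2
      · exact h9
    have h10 : b = x' := by
      rcases mem_tri.1 h7 with h9 | h9 | h9
      · exact absurd h9 n3
      · exact absurd h9 n4
      · exact h9
    exact hab0 (h8.trans h10.symm)
  rcases hy4 with hy4 | hy4
  · exact hfin x1 ht1 hy4
  · exact hfin x2 hx2 hy4

theorem draw {V : Type} [DecidableEq V] [Fintype V] {T : Finset (Finset V)} {T0 : Finset V}
    {f : V → ℝ × ℝ} (h : Tri2 T) (hv : vs T = univ) (h0 : T0 ∈ T) (g : Good f T T0) :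
    Drawn (gT T) := by
  have hall : ∀ v : V, v ∈ vs T := fun v => by rw [hv]; exact mem_univ v
  have hf : Function.Injective f := by
    intro a b hab
    by_contra hne
    obtain ⟨t, ht, hat⟩ := mem_vs.1 (hall a)
    have h3 := h.three t ht
    have h4 : ({a, b} : Finset V).card < t.card := by
      have := Finset.card_le_two (a := a) (b := b)
      omega
    obtain ⟨c, hc, hc'⟩ := Finset.exists_mem_notMem_of_card_lt_card h4
    rw [mem_insert, mem_singleton, not_or] at hc'
    refine g.gp a b c (hall a) (hall b) (hall c) hne (Ne.symm hc'.1) (Ne.symm hc'.2) ?_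
    rw [hab]
    exact (o_self _ _).1
  have hne : ∀ u v : V, u ≠ v → f u ≠ f v := fun u v huv h5 => huv (hf h5)
  refine ⟨f, fun u v t => (1 - t) • f u + t • f v, hf, ?_, ?_⟩
  · intro u v huv
    have huv' : u ≠ v := huv.1
    refine ⟨?_, ?_, ?_, ?_, ?_⟩
    · have hc : Continuous (fun t : ℝ => (1 - t) • f u + t • f v) := by fun_prop
      exact hc.continuousOn
    · intro t _ s _ hts
      exact dr_seg_inj (hne u v huv') hts
    · simp
    · simp
    · intro t ht w hw0
      have hw : (1 - t) • f u + t • f v = f w := hw0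
      have h5 := dr_line hw
      by_cases h6 : w = u
      · rw [h6] at hw
        have h7 : t = 0 := by
          apply dr_seg_inj (hne u v huv')
          rw [hw]
          simp
        exact absurd h7 ht.1.ne'
      · by_cases h8 : w = v
        · rw [h8] at hw
          have h7 : t = 1 := by
            apply dr_seg_inj (hne u v huv')
            rw [hw]
            simp
          exact absurd h7 ht.2.ne
        · exact g.gp u v w (hall u) (hall v) (hall w) huv' (Ne.symm h6) (Ne.symm h8) h5
  · intro u v u' v' huv huv' hs t ht s hs' hz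
    have ht' : (1 - t) ∈ Set.Ioo (0 : ℝ) 1 := ⟨by linarith [ht.2], by linarith [ht.1]⟩
    have hs'' : (1 - s) ∈ Set.Ioo (0 : ℝ) 1 := ⟨by linarith [hs'.2], by linarith [hs'.1]⟩
    have hz' : (1 - t) • f u + t • f v = (1 - s) • f u' + s • f v' := hz
    -- a common vertex
    have hcom : ∀ (p q r : V), (gT T).Adj p q → (gT T).Adj p r → q ≠ r → ∀ τ σ : ℝ,
        τ ∈ Set.Ioo (0 : ℝ) 1 → σ ∈ Set.Ioo (0 : ℝ) 1 →
        (1 - τ) • f p + τ • f q ≠ (1 - σ) • f p + σ • f r := by
      intro p q r hpq hpr hqr τ σ hτ hσ he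
      exact g.gp p q r (hall p) (hall q) (hall r) hpq.1 hpr.1 hqr
        (dr_share hτ.1.ne' hσ.1.ne' he)
    by_cases c1 : u = u'
    · subst c1
      refine hcom u v v' huv huv' ?_ t s ht hs' hz'
      rintro rfl
      exact hs rfl
    by_cases c2 : u = v'
    · subst c2
      rw [dr_rev (f u')] at hz'
      refine hcom u v u' huv huv'.symm ?_ t (1 - s) ht hs'' hz'
      rintro rfl
      exact hs Sym2.eq_swap
    by_cases c3 : v = u'
    · subst c3
      rw [dr_rev (f u)] at hz'
      refine hcom v u v' huv.symm huv' ?_ (1 - t) s ht' hs' hz'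
      rintro rfl
      exact hs Sym2.eq_swap
    by_cases c4 : v = v'
    · subst c4
      rw [dr_rev (f u), dr_rev (f u')] at hz'
      refine hcom v u u' huv.symm huv'.symm ?_ (1 - t) (1 - s) ht' hs'' hz'
      rintro rfl
      exact hs rfl
    -- four different vertices
    by_cases hin : u ∈ T0 ∧ v ∈ T0
    · by_cases hin' : u' ∈ T0 ∧ v' ∈ T0
      · have h5 : ({u, v, u', v'} : Finset V) ⊆ T0 := by
          intro x hx
          simp only [mem_insert, mem_singleton] at hx
          rcases hx with rfl | rfl | rfl | rfl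
          · exact hin.1
          · exact hin.2
          · exact hin'.1
          · exact hin'.2
        have h6 := card_le_card h5
        rw [h.three T0 h0] at h6
        have h7 : ({u, v, u', v'} : Finset V).card = 4 := by
          rw [card_insert_of_notMem, card_insert_of_notMem, card_insert_of_notMem,
            card_singleton]
          · rw [mem_singleton]
            exact huv'.1
          · rw [mem_insert, mem_singleton, not_or]
            exact ⟨c3, c4⟩
          · rw [mem_insert, mem_insert, mem_singleton, not_or, not_or]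
            exact ⟨huv.1, c1, c2⟩
        omega
      · exact dr_cross h hv h0 g hf huv' huv (Ne.symm c1) (Ne.symm c3) (Ne.symm c2) (Ne.symm c4)
          hin' hs' ht hz'.symm
    · exact dr_cross h hv h0 g hf huv huv' c1 c2 c3 c4 hin ht hs' hz'

end Pool.Agent.Fary
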