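import Pool.Agent.Fary.Bas

/-!
# FARY-FanPt: a point that sees the polygon of a fan

The point is `q 0 + ε • u` for small `ε > 0`, where `u` is the multiple of the sum of the two extreme edges
at `q 0` with the right cross products.
-/

set_option autoImplicit false

namespace Pool.Agent.Fary

theorem fan_open (d : ℕ) (q : ℕ → ℝ × ℝ) (s : ℝ) :
    IsOpen {p : ℝ × ℝ | ∀ i, i < d → 0 < s * o p (q i) (q (i + 1))} := by
  have h : {p : ℝ × ℝ | ∀ i, i < d → 0 < s * o p (q i) (q (i + 1))} =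
      ⋂ i ∈ Finset.range d, {p : ℝ × ℝ | 0 < s * o p (q i) (q (i + 1))} := by
    ext p
    simp
  rw [h]
  refine isOpen_biInter_finset fun i _ => ?_
  refine isOpen_lt continuous_const ?_
  unfold o
  fun_prop

theorem fan_point {d : ℕ} (hd : 3 ≤ d) (q : ℕ → ℝ × ℝ) (hper : q d = q 0) (s : ℝ)
    (h1 : ∀ i, 1 ≤ i → i + 2 ≤ d → 0 < s * o (q 0) (q i) (q (i + 1)))
    (h2 : o (q 0) (q 1) (q (d - 1)) ≠ 0) :
    ∃ p : ℝ × ℝ, ∀ i, i < d → 0 < s * o p (q i) (q (i + 1)) := by
  have hs : s ≠ 0 := by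
    rintro rfl
    have := h1 1 le_rfl hd
    rw [zero_mul] at this
    exact lt_irrefl _ this
  have hss : 0 < s * s := mul_self_pos.2 hs
  obtain ⟨t, ht⟩ : ∃ t, t * o (q 0) (q 1) (q (d - 1)) = s :=
    ⟨s / o (q 0) (q 1) (q (d - 1)), div_mul_cancel₀ s h2⟩
  set u : ℝ × ℝ := (t * (((q 1).1 - (q 0).1) + ((q (d - 1)).1 - (q 0).1)),
    t * (((q 1).2 - (q 0).2) + ((q (d - 1)).2 - (q 0).2))) with hu
  set P : ℝ → ℝ × ℝ := fun ε => ((q 0).1 + ε * u.1, (q 0).2 + ε * u.2) with hP
  have e0 : ∀ ε, o (P ε) (q 0) (q 1) = ε * s := by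
    intro ε
    rw [← ht, hP, hu]
    unfold o
    ring
  have e1 : ∀ ε, o (P ε) (q (d - 1)) (q 0) = ε * s := by
    intro ε
    rw [← ht, hP, hu]
    unfold o
    ring
  have hmid : ∀ᶠ ε in nhdsWithin (0 : ℝ) (Set.Ioi 0), ∀ i ∈ Finset.range d,
      1 ≤ i → i + 2 ≤ d → 0 < s * o (P ε) (q i) (q (i + 1)) := by
    rw [Filter.eventually_all_finset]
    intro i _
    by_cases hi : 1 ≤ i ∧ i + 2 ≤ d
    · have hc : Continuous fun ε : ℝ => s * o (P ε) (q i) (q (i + 1)) := by
        rw [hP]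
        unfold o
        fun_prop
      have h0 : 0 < (fun ε : ℝ => s * o (P ε) (q i) (q (i + 1))) 0 := by
        have : P 0 = q 0 := by
          rw [hP]
          simp
        show 0 < s * o (P 0) (q i) (q (i + 1))
        rw [this]
        exact h1 i hi.1 hi.2
      have := (hc.tendsto 0).eventually (lt_mem_nhds h0)
      filter_upwards [nhdsWithin_le_nhds this] with ε hε _ _
      exact hε
    · exact Filter.Eventually.of_forall fun ε h3 h4 => absurd ⟨h3, h4⟩ hi
  obtain ⟨ε, hε, hpos⟩ := (hmid.and self_mem_nhdsWithin).exists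
  have hε0 : 0 < ε := hpos
  refine ⟨P ε, fun i hi => ?_⟩
  rcases Nat.eq_zero_or_pos i with h0 | h0
  · subst h0
    rw [zero_add, e0]
    have : s * (ε * s) = ε * (s * s) := by ring
    rw [this]
    exact mul_pos hε0 hss
  · by_cases h3 : i + 2 ≤ d
    · exact hε i (Finset.mem_range.2 hi) h0 h3
    · have h4 : i = d - 1 := by omega
      subst h4
      have h5 : d - 1 + 1 = d := by omega
      rw [h5, hper, e1]
      have : s * (ε * s) = ε * (s * s) := by ring
      rw [this]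
      exact mul_pos hε0 hss

end Pool.Agent.Fary
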