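import Pool.Agent.Fary.Bas

/-!
# FARY-RedE (0.8h): vertices and number of triangles after the reduction

PLAN.
* `vs_red`: `⊆`: a member of `T` without `v`: its elements are in `vs T` and `≠ v`; a fan triangle: its
  elements are some `w i`, `i < d` or `w d = w 0`, which are in `vs T` (`c.star`: `{v, w i, w (i+1)} ∈ T`) and
  `≠ v`.  `⊇`: `x ∈ t ∈ T`, `x ≠ v`: if `v ∉ t` fine, otherwise `t = {v, w i, w (i+1)}`, so `x = w j` with
  `j < d` (`w d = w 0`), and every `w j` is in a fan triangle `{w 0, w i, w (i+1)}`, `1 ≤ i`, `i + 2 ≤ d`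
  (`j = 0`: `i = 1`; `1 ≤ j ≤ d - 2`: `i = j`; `j = d - 1`: `i = d - 2`).
* `card_star`: the star `T.filter (v ∈ ·)` is the image of `range d` under `i ↦ {v, w i, w (i+1)}`, which is
  injective on `range d`: the card is `d`.  (If `{v, w i, w (i+1)} = {v, w j, w (j+1)}` with `i < j < d`
  then `{w i, w (i+1)} = {w j, w (j+1)}` (erase `v`); `w i ≠ w j`, so `w i = w (j+1)`, `j + 1 = d`, `i = 0`,
  and `w (i+1) = w 1 = w j`, `j = 1`, so `d = 2`, contradiction to `3 ≤ d`.)
* `card_fan`: injective on `Ico 1 (d-1)`: the card is `d - 2`.  (`w 0` is in all, `{w i, w (i+1)}` with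
  `1 ≤ i`, `i + 1 < d` determines `i`.)
* `red_card`: `T.card = card (filter v ∉) + d`, the fan is disjoint from `T` (`nfan`), so
  `(red T v d w).card + 2 = T.card`.
-/

set_option autoImplicit false

namespace Pool.Agent.Fary

open Finset

variable {V : Type} [DecidableEq V] {T : Finset (Finset V)}

private theorem w_mem {v : V} {d : ℕ} {w : ℕ → V} (c : Cor T v d w) {j : ℕ} (hj : j < d) :
    w j ∈ vs T :=
  mem_vs.2 ⟨_, ((c.star _).2 ⟨j, hj, rfl⟩).1, mem_tri.2 (Or.inr (Or.inl rfl))⟩

theorem vs_red {v : V} {d : ℕ} {w : ℕ → V} (c : Cor T v d w) :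
    vs (red T v d w) = (vs T).erase v := by
  have h3 := c.three_le
  ext x
  rw [Finset.mem_erase]
  constructor
  · intro hx
    obtain ⟨t, ht, hxt⟩ := mem_vs.1 hx
    rcases mem_red.1 ht with ⟨h1, h2⟩ | ⟨i, h1, h2, rfl⟩
    · refine ⟨?_, mem_vs.2 ⟨t, h1, hxt⟩⟩
      rintro rfl
      exact h2 hxt
    · rcases mem_tri.1 hxt with rfl | rfl | rfl
      · exact ⟨c.ne 0 (by omega), w_mem c (by omega)⟩
      · exact ⟨c.ne i (by omega), w_mem c (by omega)⟩
      · exact ⟨c.ne (i + 1) (by omega), w_mem c (by omega)⟩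
  · rintro ⟨hxv, hx⟩
    obtain ⟨t, ht, hxt⟩ := mem_vs.1 hx
    by_cases hv : v ∈ t
    · obtain ⟨i, hi, rfl⟩ := (c.star t).1 ⟨ht, hv⟩
      have hj : ∃ j, j < d ∧ x = w j := by
        rcases mem_tri.1 hxt with h5 | h5 | h5
        · exact absurd h5 hxv
        · exact ⟨i, hi, h5⟩
        · by_cases hid : i + 1 = d
          · refine ⟨0, by omega, ?_⟩
            rw [h5, hid, c.per]
          · exact ⟨i + 1, by omega, h5⟩
      obtain ⟨j, hj, rfl⟩ := hj
      by_cases hj0 : j = 0
      · subst hj0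
        exact mem_vs.2 ⟨_, mem_red.2 (Or.inr ⟨1, le_rfl, by omega, rfl⟩), mem_tri.2 (Or.inl rfl)⟩
      · by_cases hj1 : j + 2 ≤ d
        · exact mem_vs.2 ⟨_, mem_red.2 (Or.inr ⟨j, by omega, hj1, rfl⟩),
            mem_tri.2 (Or.inr (Or.inl rfl))⟩
        · refine mem_vs.2 ⟨_, mem_red.2 (Or.inr ⟨d - 2, by omega, by omega, rfl⟩),
            mem_tri.2 (Or.inr (Or.inr ?_))⟩
          have : d - 2 + 1 = j := by omega
          rw [this]
    · exact mem_vs.2 ⟨t, mem_red.2 (Or.inl ⟨ht, hv⟩), hxt⟩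

private theorem star_ne {v : V} {d : ℕ} {w : ℕ → V} (c : Cor T v d w) {i j : ℕ} (hij : i < j)
    (hj : j < d) (h : ({v, w i, w (i + 1)} : Finset V) = {v, w j, w (j + 1)}) : False := by
  have h3 := c.three_le
  have h1 : w i ∈ ({v, w j, w (j + 1)} : Finset V) := by
    rw [← h]; exact mem_tri.2 (Or.inr (Or.inl rfl))
  rcases mem_tri.1 h1 with h2 | h2 | h2
  · exact c.ne i (by omega) h2
  · have := c.inj i j (by omega) hj h2
    omega
  · by_cases hjd : j + 1 < d
    · have := c.inj i (j + 1) (by omega) hjd h2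
      omega
    · have hjd' : j + 1 = d := by omega
      rw [hjd', c.per] at h2
      have hi0 := c.inj i 0 (by omega) (by omega) h2
      subst hi0
      have h4 : w (0 + 1) ∈ ({v, w j, w (j + 1)} : Finset V) := by
        rw [← h]; exact mem_tri.2 (Or.inr (Or.inr rfl))
      rcases mem_tri.1 h4 with h5 | h5 | h5
      · exact c.ne (0 + 1) (by omega) h5
      · have := c.inj (0 + 1) j (by omega) hj h5
        omega
      · rw [hjd', c.per] at h5
        have := c.inj (0 + 1) 0 (by omega) (by omega) h5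
        omega

private theorem card_star {v : V} {d : ℕ} {w : ℕ → V} (c : Cor T v d w) :
    (T.filter (fun t => v ∈ t)).card = d := by
  have h1 : T.filter (fun t => v ∈ t) =
      (Finset.range d).image (fun i => ({v, w i, w (i + 1)} : Finset V)) := by
    ext t
    rw [Finset.mem_filter, c.star t, Finset.mem_image]
    constructor
    · rintro ⟨i, hi, rfl⟩
      exact ⟨i, Finset.mem_range.2 hi, rfl⟩
    · rintro ⟨i, hi, rfl⟩
      exact ⟨i, Finset.mem_range.1 hi, rfl⟩
  rw [h1, Finset.card_image_of_injOn, Finset.card_range]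
  intro i hi j hj hij
  have hi' : i < d := Finset.mem_range.1 (Finset.mem_coe.1 hi)
  have hj' : j < d := Finset.mem_range.1 (Finset.mem_coe.1 hj)
  simp only at hij
  rcases Nat.lt_trichotomy i j with h2 | h2 | h2
  · exact (star_ne c h2 hj' hij).elim
  · exact h2
  · exact (star_ne c h2 hi' hij.symm).elim

private theorem fan_ne {v : V} {d : ℕ} {w : ℕ → V} (c : Cor T v d w) {i j : ℕ} (hi : 1 ≤ i)
    (hij : i < j) (hj : j + 1 < d)
    (h : ({w 0, w i, w (i + 1)} : Finset V) = {w 0, w j, w (j + 1)}) : False := by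
  have h1 : w i ∈ ({w 0, w j, w (j + 1)} : Finset V) := by
    rw [← h]; exact mem_tri.2 (Or.inr (Or.inl rfl))
  rcases mem_tri.1 h1 with h2 | h2 | h2
  · have := c.inj i 0 (by omega) (by omega) h2
    omega
  · have := c.inj i j (by omega) (by omega) h2
    omega
  · have := c.inj i (j + 1) (by omega) (by omega) h2
    omega

private theorem card_fan {v : V} {d : ℕ} {w : ℕ → V} (c : Cor T v d w) :
    (fan d w).card = d - 2 := by
  unfold fan
  rw [Finset.card_image_of_injOn, Nat.card_Ico]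
  · omega
  · intro i hi j hj hij
    have hi' := Finset.mem_Ico.1 (Finset.mem_coe.1 hi)
    have hj' := Finset.mem_Ico.1 (Finset.mem_coe.1 hj)
    simp only at hij
    rcases Nat.lt_trichotomy i j with h2 | h2 | h2
    · exact (fan_ne c hi'.1 h2 (by omega) hij).elim
    · exact h2
    · exact (fan_ne c hj'.1 h2 (by omega) hij.symm).elim

theorem red_card {v : V} {d : ℕ} {w : ℕ → V} (c : Cor T v d w) :
    (red T v d w).card + 2 = T.card := by
  have h3 := c.three_le
  have hdis : Disjoint (T.filter (fun t => v ∉ t)) (fan d w) := by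
    rw [Finset.disjoint_left]
    intro t ht hf
    obtain ⟨i, h1, h2, rfl⟩ := mem_fan.1 hf
    exact c.nfan i h1 h2 (Finset.mem_filter.1 ht).1
  unfold red
  rw [Finset.card_union_of_disjoint hdis, card_fan c]
  have h4 := Finset.card_filter_add_card_filter_not (s := T) (fun t => v ∈ t)
  have h5 := card_star c
  omega

end Pool.Agent.Fary
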