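import Pool.Agent.Fary.Avoid
import Pool.Agent.Fary.FanPt
import Pool.Agent.Fary.RedE

/-!
# FARY-ExtA (1.0h): the point for the new vertex

PLAN.
1. All `o (f (w 0)) (f (w i)) (f (w (i+1)))`, `1 ≤ i`, `i + 2 ≤ d`, have the same sign: for `2 ≤ i`,
   `i + 2 ≤ d`, `{w 0, w i, w (i-1)}` and `{w 0, w i, w (i+1)}` are in `red T v d w` (fan triangles, use
   `tri_swap'`), `w (i-1) ≠ w (i+1)` (`c.inj`), and not both `w 0, w i ∈ T0` (else `gT T` has the edge
   `w 0 w i`, against `c.chord`), so `g.inn` gives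
   `o (f (w 0)) (f (w i)) (f (w (i-1))) * o (f (w 0)) (f (w i)) (f (w (i+1))) < 0`, with `o_swap'` the
   orientations of consecutive fan triangles have the same sign.  Let `s = o (f (w 0)) (f (w 1)) (f (w 2))`
   (nonzero by `g.gp`); by induction on `i`, `0 < s * o (f (w 0)) (f (w i)) (f (w (i+1)))`.
2. `fan_point` with `q i = f (w i)` (`q d = q 0` by `c.per`; `o (q 0) (q 1) (q (d-1)) ≠ 0` by `g.gp`: the three
   vertices are distinct and in `vs (red ..) = (vs T).erase v`), `fan_open`, and `avoid_points` with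
   `S = ((vs T).erase v).image f`.  For `a ≠ b` in `(vs T).erase v`: `f a ≠ f b` by `g.gp` with a third vertex
   (there are at least three vertices `w 0, w 1, w 2`; `o_self`).
-/

set_option autoImplicit false

namespace Pool.Agent.Fary

open Finset

variable {V : Type} [DecidableEq V] {T : Finset (Finset V)}

theorem ext_point (h : Tri2 T) {v : V} {d : ℕ} {w : ℕ → V} (c : Cor T v d w) {T0 : Finset V}
    (h0 : T0 ∈ T) {f : V → ℝ × ℝ} (g : Good f (red T v d w) T0) :
    ∃ (p : ℝ × ℝ) (s : ℝ), (∀ i, i < d → 0 < s * o p (f (w i)) (f (w (i + 1)))) ∧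
      (∀ i, 1 ≤ i → i + 2 ≤ d → 0 < s * o (f (w 0)) (f (w i)) (f (w (i + 1)))) ∧
      ∀ a b, a ∈ vs T → b ∈ vs T → a ≠ v → b ≠ v → a ≠ b → o (f a) (f b) p ≠ 0 := by
  have _ := h
  have hd := c.three_le
  have hwT : ∀ i, i < d → w i ∈ vs T := by
    intro i hi
    have h1 := (c.star {v, w i, w (i + 1)}).2 ⟨i, hi, rfl⟩
    exact mem_vs.2 ⟨_, h1.1, mem_tri.2 (Or.inr (Or.inl rfl))⟩
  have hmem : ∀ x, x ∈ vs T → x ≠ v → x ∈ vs (red T v d w) := by
    intro x hx hxv
    rw [vs_red c]
    exact Finset.mem_erase.2 ⟨hxv, hx⟩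
  have hw : ∀ i, i < d → w i ∈ vs (red T v d w) := fun i hi => hmem _ (hwT i hi) (c.ne i hi)
  have hne : ∀ i j, i < d → j < d → i ≠ j → w i ≠ w j := fun i j hi hj hij he =>
    hij (c.inj i j hi hj he)
  obtain ⟨s, hs⟩ : ∃ s, s = o (f (w 0)) (f (w 1)) (f (w 2)) := ⟨_, rfl⟩
  have hs0 : s ≠ 0 := by
    rw [hs]
    exact g.gp _ _ _ (hw 0 (by omega)) (hw 1 (by omega)) (hw 2 (by omega))
      (hne _ _ (by omega) (by omega) (by omega)) (hne _ _ (by omega) (by omega) (by omega))
      (hne _ _ (by omega) (by omega) (by omega))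
  have h1 : ∀ i, 1 ≤ i → i + 2 ≤ d → 0 < s * o (f (w 0)) (f (w i)) (f (w (i + 1))) := by
    intro i hi
    induction i, hi using Nat.le_induction with
    | base =>
      intro _
      show 0 < s * o (f (w 0)) (f (w 1)) (f (w 2))
      rw [← hs]
      exact mul_self_pos.2 hs0
    | succ i hi ih =>
      intro h2
      have ih := ih (by omega)
      have m1 : ({w 0, w (i + 1), w i} : Finset V) ∈ red T v d w := by
        rw [tri_swap', mem_red]
        exact Or.inr ⟨i, hi, by omega, rfl⟩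
      have m2 : ({w 0, w (i + 1), w (i + 1 + 1)} : Finset V) ∈ red T v d w := by
        rw [mem_red]
        exact Or.inr ⟨i + 1, by omega, by omega, rfl⟩
      have m3 : w i ≠ w (i + 1 + 1) := hne _ _ (by omega) (by omega) (by omega)
      have m4 : ¬ (w 0 ∈ T0 ∧ w (i + 1) ∈ T0) := by
        rintro ⟨m5, m6⟩
        refine c.chord (i + 1) (by omega) (by omega) ?_
        exact ⟨hne _ _ (by omega) (by omega) (by omega), T0, h0, m5, m6⟩
      have m5 := g.inn _ _ _ _ m1 m2 m3 m4
      rw [o_swap' (f (w 0)) (f (w i)) (f (w (i + 1)))] at m5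
      have m6 : 0 < o (f (w 0)) (f (w i)) (f (w (i + 1))) *
          o (f (w 0)) (f (w (i + 1))) (f (w (i + 1 + 1))) := by linarith
      have m7 := mul_pos ih m6
      have m8 : s * o (f (w 0)) (f (w i)) (f (w (i + 1))) *
          (o (f (w 0)) (f (w i)) (f (w (i + 1))) *
          o (f (w 0)) (f (w (i + 1))) (f (w (i + 1 + 1)))) =
          (s * o (f (w 0)) (f (w (i + 1))) (f (w (i + 1 + 1)))) *
            (o (f (w 0)) (f (w i)) (f (w (i + 1)))) ^ 2 := by ring
      rw [m8] at m7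
      exact pos_of_mul_pos_left m7 (sq_nonneg _)
  have h2 : o (f (w 0)) (f (w 1)) (f (w (d - 1))) ≠ 0 := by
    exact g.gp _ _ _ (hw 0 (by omega)) (hw 1 (by omega)) (hw (d - 1) (by omega))
      (hne _ _ (by omega) (by omega) (by omega)) (hne _ _ (by omega) (by omega) (by omega))
      (hne _ _ (by omega) (by omega) (by omega))
  obtain ⟨p0, hp0⟩ := fan_point hd (fun i => f (w i)) (by simp only [c.per]) s h1 h2
  obtain ⟨y, hy, -, hav⟩ := avoid_points (fan_open d (fun i => f (w i)) s) ⟨p0, hp0⟩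
    (((vs T).erase v).image f)
  refine ⟨y, s, hy, h1, ?_⟩
  intro a b ha hb hav' hbv hab
  refine hav _ (Finset.mem_image_of_mem f (Finset.mem_erase.2 ⟨hav', ha⟩)) _
    (Finset.mem_image_of_mem f (Finset.mem_erase.2 ⟨hbv, hb⟩)) ?_
  intro hf
  have h3 : ∃ j, j < d ∧ w j ≠ a ∧ w j ≠ b := by
    by_contra hcon
    push Not at hcon
    have k0 := hcon 0 (by omega)
    have k1 := hcon 1 (by omega)
    have k2 := hcon 2 (by omega)
    have n01 := hne 0 1 (by omega) (by omega) (by omega)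
    have n02 := hne 0 2 (by omega) (by omega) (by omega)
    have n12 := hne 1 2 (by omega) (by omega) (by omega)
    by_cases e0 : w 0 = a
    · have e1 : w 1 = b := k1 (fun h' => n01 (e0.trans h'.symm))
      have e2 : w 2 = b := k2 (fun h' => n02 (e0.trans h'.symm))
      exact n12 (e1.trans e2.symm)
    · have e1 : w 0 = b := k0 e0
      by_cases e3 : w 1 = a
      · have e2 : w 2 = b := k2 (fun h' => n12 (e3.trans h'.symm))
        exact n02 (e1.trans e2.symm)
      · exact n01 (e1.trans (k1 e3).symm)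
  obtain ⟨j, hj, hja, hjb⟩ := h3
  have h4 := g.gp a b (w j) (hmem a ha hav') (hmem b hb hbv) (hw j hj) hab hja.symm hjb.symm
  rw [hf] at h4
  exact h4 (o_self (f b) (f (w j))).1

end Pool.Agent.Fary
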