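import Pool.Agent.Fary.ExtA

/-!
# FARY-ExtB (1.4h): the new placement is good

Case analysis on the position of the new vertex `v` among the four vertices of two adjacent triangles.
-/

set_option autoImplicit false

namespace Pool.Agent.Fary

open Finset

variable {V : Type} [DecidableEq V] {T : Finset (Finset V)}

private theorem xb_pair (h : Tri2 T) {v : V} {d : ℕ} {w : ℕ → V} (c : Cor T v d w) {b x : V}
    (ht : ({v, b, x} : Finset V) ∈ T) :
    ∃ i, i < d ∧ ((b = w i ∧ x = w (i + 1)) ∨ (b = w (i + 1) ∧ x = w i)) := by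
  obtain ⟨h1, h2, h3⟩ := h.ne ht
  obtain ⟨i, hi, he⟩ := (c.star _).1 ⟨ht, mem_tri.2 (Or.inl rfl)⟩
  refine ⟨i, hi, ?_⟩
  have hb : b ∈ ({v, w i, w (i + 1)} : Finset V) := by
    rw [← he]
    exact mem_tri.2 (Or.inr (Or.inl rfl))
  have hx : x ∈ ({v, w i, w (i + 1)} : Finset V) := by
    rw [← he]
    exact mem_tri.2 (Or.inr (Or.inr rfl))
  rcases mem_tri.1 hb with h4 | h4 | h4
  · exact absurd h4.symm h1
  · rcases mem_tri.1 hx with h5 | h5 | h5
    · exact absurd h5.symm h2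
    · exact absurd (h4.trans h5.symm) h3
    · exact Or.inl ⟨h4, h5⟩
  · rcases mem_tri.1 hx with h5 | h5 | h5
    · exact absurd h5.symm h2
    · exact Or.inr ⟨h4, h5⟩
    · exact absurd (h4.trans h5.symm) h3

private theorem xb_ne {v : V} {d : ℕ} {w : ℕ → V} (c : Cor T v d w) {i : ℕ} (hi : i < d) :
    w (i + 1) ≠ v := by
  by_cases h : i + 1 < d
  · exact c.ne _ h
  · have h1 : i + 1 = d := by omega
    rw [h1, c.per]
    exact c.ne 0 (by have := c.three_le; omega)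

private theorem xb_succ_inj {v : V} {d : ℕ} {w : ℕ → V} (c : Cor T v d w) {i j : ℕ} (hi : i < d)
    (hj : j < d) (h : w (i + 1) = w (j + 1)) : i = j := by
  have h3 := c.three_le
  by_cases hi1 : i + 1 < d
  · by_cases hj1 : j + 1 < d
    · have := c.inj _ _ hi1 hj1 h
      omega
    · have h1 : j + 1 = d := by omega
      rw [h1, c.per] at h
      have := c.inj _ _ hi1 (by omega) h
      omega
  · have h1 : i + 1 = d := by omega
    by_cases hj1 : j + 1 < d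
    · rw [h1, c.per] at h
      have := c.inj _ _ (by omega) hj1 h
      omega
    · omega

private theorem xb_K2 {v : V} {d : ℕ} {w : ℕ → V} (c : Cor T v d w) {f : V → ℝ × ℝ} {s : ℝ}
    (hp2 : ∀ i, 1 ≤ i → i + 2 ≤ d → 0 < s * o (f (w 0)) (f (w i)) (f (w (i + 1)))) {i : ℕ}
    (hi : i < d) : ∃ z, ({w i, w (i + 1), z} : Finset V) ∈ red T v d w ∧
      ({w i, w (i + 1), z} : Finset V) ∉ T ∧ 0 < s * o (f (w i)) (f (w (i + 1))) (f z) := by
  have h3 := c.three_le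
  by_cases h0 : i = 0
  · subst h0
    refine ⟨w 2, ?_, ?_, ?_⟩
    · exact mem_red.2 (Or.inr ⟨1, le_refl _, h3, rfl⟩)
    · exact c.nfan 1 (le_refl _) h3
    · exact hp2 1 (le_refl _) h3
  · by_cases h1 : i + 2 ≤ d
    · refine ⟨w 0, ?_, ?_, ?_⟩
      · rw [← tri_rot]
        exact mem_red.2 (Or.inr ⟨i, by omega, h1, rfl⟩)
      · rw [← tri_rot]
        exact c.nfan i (by omega) h1
      · rw [o_cyc]
        exact hp2 i (by omega) h1
    · obtain ⟨k, hk⟩ : ∃ k, d = k + 2 := ⟨d - 2, by omega⟩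
      have hik : i = k + 1 := by omega
      subst hik
      have hw : w (k + 1 + 1) = w 0 := by
        rw [← c.per, hk]
      rw [hw]
      have e1 : ({w (k + 1), w 0, w k} : Finset V) = {w 0, w k, w (k + 1)} := tri_rot _ _ _
      refine ⟨w k, ?_, ?_, ?_⟩
      · rw [e1]
        exact mem_red.2 (Or.inr ⟨k, by omega, by omega, rfl⟩)
      · rw [e1]
        exact c.nfan k (by omega) (by omega)
      · rw [← o_cyc]
        exact hp2 k (by omega) (by omega)

private theorem xb_mul_neg {s a b : ℝ} (h1 : 0 < s * a) (h2 : 0 < s * (-b)) : a * b < 0 := by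
  by_contra h
  have h3 : 0 ≤ a * b := not_lt.1 h
  have h4 : 0 < (s * a) * (s * (-b)) := mul_pos h1 h2
  have h5 : (s * a) * (s * (-b)) = -(s ^ 2 * (a * b)) := by ring
  have h6 : 0 ≤ s ^ 2 * (a * b) := mul_nonneg (sq_nonneg s) h3
  linarith

private theorem xb_same {s a b : ℝ} (h1 : 0 < s * a) (h2 : 0 < s * b) : 0 < a * b := by
  have h3 := xb_mul_neg (s := s) (a := a) (b := -b) h1 (by rw [neg_neg]; exact h2)
  linarith

private theorem xb_tr_neg {p z y : ℝ} (h1 : 0 < p * z) (h2 : z * y < 0) : p * y < 0 := by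
  by_contra h
  have h3 : 0 ≤ p * y := not_lt.1 h
  have h4 : (p * z) * (z * y) < 0 := mul_neg_of_pos_of_neg h1 h2
  have h5 : (p * z) * (z * y) = z ^ 2 * (p * y) := by ring
  have h6 : 0 ≤ z ^ 2 * (p * y) := mul_nonneg (sq_nonneg z) h3
  linarith

private theorem xb_D1 (h : Tri2 T) {v : V} {d : ℕ} {w : ℕ → V} (c : Cor T v d w)
    {f : V → ℝ × ℝ} {p : ℝ × ℝ} {s : ℝ}
    (hp1 : ∀ i, i < d → 0 < s * o p (f (w i)) (f (w (i + 1)))) {b x y : V}
    (hx : ({v, b, x} : Finset V) ∈ T) (hy : ({v, b, y} : Finset V) ∈ T) (hxy : x ≠ y) :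
    o p (f b) (f x) * o p (f b) (f y) < 0 := by
  obtain ⟨i, hi, ⟨h1, h2⟩ | ⟨h1, h2⟩⟩ := xb_pair h c hx
  · obtain ⟨j, hj, ⟨h3, h4⟩ | ⟨h3, h4⟩⟩ := xb_pair h c hy
    · exfalso
      have h5 := c.inj i j hi hj (h1.symm.trans h3)
      subst h5
      exact hxy (h2.trans h4.symm)
    · have h5 := hp1 i hi
      have h6 := hp1 j hj
      rw [← h1, ← h2] at h5
      rw [← h3, ← h4, o_swap'] at h6
      exact xb_mul_neg h5 h6
  · obtain ⟨j, hj, ⟨h3, h4⟩ | ⟨h3, h4⟩⟩ := xb_pair h c hy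
    · have h5 := hp1 i hi
      have h6 := hp1 j hj
      rw [← h1, ← h2, o_swap'] at h5
      rw [← h3, ← h4] at h6
      rw [mul_comm]
      exact xb_mul_neg h6 h5
    · exfalso
      have h5 := xb_succ_inj c hi hj (h1.symm.trans h3)
      subst h5
      exact hxy (h2.trans h4.symm)

private theorem xb_D2 {v : V} {d : ℕ} {w : ℕ → V} (c : Cor T v d w) {T0 : Finset V}
    {f : V → ℝ × ℝ} (g : Good f (red T v d w) T0) {p : ℝ × ℝ} {s : ℝ}
    (hp1 : ∀ i, i < d → 0 < s * o p (f (w i)) (f (w (i + 1))))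
    (hp2 : ∀ i, 1 ≤ i → i + 2 ≤ d → 0 < s * o (f (w 0)) (f (w i)) (f (w (i + 1)))) {i : ℕ}
    (hi : i < d) {y : V} (hyv : y ≠ v) (hy : ({w i, w (i + 1), y} : Finset V) ∈ T)
    (hn : ¬ (w i ∈ T0 ∧ w (i + 1) ∈ T0)) :
    o (f (w i)) (f (w (i + 1))) p * o (f (w i)) (f (w (i + 1))) (f y) < 0 := by
  obtain ⟨z, hz1, hz2, hz3⟩ := xb_K2 c hp2 hi
  have hyr : ({w i, w (i + 1), y} : Finset V) ∈ red T v d w := by
    refine mem_red.2 (Or.inl ⟨hy, ?_⟩)
    rw [mem_tri]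
    rintro (h1 | h1 | h1)
    · exact c.ne i hi h1.symm
    · exact xb_ne c hi h1.symm
    · exact hyv h1.symm
  have hzy : z ≠ y := by
    rintro rfl
    exact hz2 hy
  have h1 := g.inn _ _ _ _ hz1 hyr hzy hn
  have h2 := hp1 i hi
  rw [← o_cyc] at h2
  exact xb_tr_neg (xb_same h2 hz3) h1

private theorem xb_D2o {v : V} {d : ℕ} {w : ℕ → V} (c : Cor T v d w)
    {T0 : Finset V} (h0 : T0 ∈ T)
    {f : V → ℝ × ℝ} (g : Good f (red T v d w) T0) {p : ℝ × ℝ} {s : ℝ}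
    (hp1 : ∀ i, i < d → 0 < s * o p (f (w i)) (f (w (i + 1))))
    (hp2 : ∀ i, 1 ≤ i → i + 2 ≤ d → 0 < s * o (f (w 0)) (f (w i)) (f (w (i + 1)))) {i : ℕ}
    (hi : i < d) {x : V} (hx : ({w i, w (i + 1), x} : Finset V) = T0) :
    0 < o (f (w i)) (f (w (i + 1))) (f x) * o (f (w i)) (f (w (i + 1))) p := by
  obtain ⟨z, hz1, hz2, hz3⟩ := xb_K2 c hp2 hi
  have hxz : x ≠ z := by
    rintro rfl
    exact hz2 (by rw [hx]; exact h0)
  have h1 := g.out _ _ _ _ hx hz1 hxz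
  have h2 := hp1 i hi
  rw [← o_cyc] at h2
  have h3 := xb_same h2 hz3
  have h4 := xb_tr_neg (p := o (f (w i)) (f (w (i + 1))) p)
    (z := o (f (w i)) (f (w (i + 1))) (f z)) (y := -o (f (w i)) (f (w (i + 1))) (f x)) h3
    (by linarith)
  linarith

private theorem xb_inn_x (h : Tri2 T) {v : V} {d : ℕ} {w : ℕ → V} (c : Cor T v d w)
    {T0 : Finset V} {f : V → ℝ × ℝ} (g : Good f (red T v d w) T0) {p : ℝ × ℝ} {s : ℝ}
    (hp1 : ∀ i, i < d → 0 < s * o p (f (w i)) (f (w (i + 1))))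
    (hp2 : ∀ i, 1 ≤ i → i + 2 ≤ d → 0 < s * o (f (w 0)) (f (w i)) (f (w (i + 1)))) {a b y : V}
    (hv : ({a, b, v} : Finset V) ∈ T) (hyv : y ≠ v) (hy : ({a, b, y} : Finset V) ∈ T)
    (hn : ¬ (a ∈ T0 ∧ b ∈ T0)) :
    o (f a) (f b) p * o (f a) (f b) (f y) < 0 := by
  rw [← tri_rot] at hv
  obtain ⟨i, hi, ⟨h1, h2⟩ | ⟨h1, h2⟩⟩ := xb_pair h c hv
  · rw [h1, h2] at hy hn ⊢
    exact xb_D2 c g hp1 hp2 hi hyv hy hn
  · rw [h1, h2] at hy hn ⊢
    rw [tri_swap] at hy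
    have h3 := xb_D2 c g hp1 hp2 hi hyv hy (fun h4 => hn ⟨h4.2, h4.1⟩)
    rw [o_swap (f (w i)), o_swap (f (w i)) _ (f y)]
    linarith

private theorem xb_out_y (h : Tri2 T) {v : V} {d : ℕ} {w : ℕ → V} (c : Cor T v d w)
    {T0 : Finset V} (h0 : T0 ∈ T) {f : V → ℝ × ℝ} (g : Good f (red T v d w) T0) {p : ℝ × ℝ}
    {s : ℝ} (hp1 : ∀ i, i < d → 0 < s * o p (f (w i)) (f (w (i + 1))))
    (hp2 : ∀ i, 1 ≤ i → i + 2 ≤ d → 0 < s * o (f (w 0)) (f (w i)) (f (w (i + 1)))) {a b x : V}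
    (hv : ({a, b, v} : Finset V) ∈ T) (hx : ({a, b, x} : Finset V) = T0) :
    0 < o (f a) (f b) (f x) * o (f a) (f b) p := by
  rw [← tri_rot] at hv
  obtain ⟨i, hi, ⟨h1, h2⟩ | ⟨h1, h2⟩⟩ := xb_pair h c hv
  · rw [h1, h2] at hx ⊢
    exact xb_D2o c h0 g hp1 hp2 hi hx
  · rw [h1, h2] at hx ⊢
    rw [tri_swap] at hx
    have h3 := xb_D2o c h0 g hp1 hp2 hi hx
    rw [o_swap (f (w i)) _ (f x), o_swap (f (w i)) _ p]
    linarith

private theorem xb_red {v : V} {d : ℕ} {w : ℕ → V} {a b x : V}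
    (hx : ({a, b, x} : Finset V) ∈ T) (h1 : a ≠ v) (h2 : b ≠ v) (h3 : x ≠ v) :
    ({a, b, x} : Finset V) ∈ red T v d w := by
  refine mem_red.2 (Or.inl ⟨hx, ?_⟩)
  rw [mem_tri]
  rintro (h4 | h4 | h4)
  · exact h1 h4.symm
  · exact h2 h4.symm
  · exact h3 h4.symm

theorem ext_good (h : Tri2 T) {v : V} {d : ℕ} {w : ℕ → V} (c : Cor T v d w) {T0 : Finset V}
    (h0 : T0 ∈ T) (hv0 : v ∉ T0) {f : V → ℝ × ℝ} (g : Good f (red T v d w) T0) {p : ℝ × ℝ} {s : ℝ}
    (hp1 : ∀ i, i < d → 0 < s * o p (f (w i)) (f (w (i + 1))))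
    (hp2 : ∀ i, 1 ≤ i → i + 2 ≤ d → 0 < s * o (f (w 0)) (f (w i)) (f (w (i + 1))))
    (hp3 : ∀ a b, a ∈ vs T → b ∈ vs T → a ≠ v → b ≠ v → a ≠ b → o (f a) (f b) p ≠ 0) :
    Good (Function.update f v p) T T0 := by
  have hfv : Function.update f v p v = p := Function.update_self ..
  have hf : ∀ x, x ≠ v → Function.update f v p x = f x := fun x hx =>
    Function.update_of_ne hx ..
  refine { gp := ?_, inn := ?_, out := ?_ }
  · intro a b e ha hb he hab hae hbe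
    by_cases h1 : a = v
    · subst h1
      rw [hfv, hf b hab.symm, hf e hae.symm, ← o_cyc]
      exact hp3 b e hb he hab.symm hae.symm hbe
    · by_cases h2 : b = v
      · subst h2
        rw [hfv, hf a hab, hf e hbe.symm, o_swap', neg_ne_zero]
        exact hp3 a e ha he hab hbe.symm hae
      · by_cases h3 : e = v
        · subst h3
          rw [hfv, hf a hae, hf b hbe]
          exact hp3 a b ha hb hae hbe hab
        · rw [hf a h1, hf b h2, hf e h3]
          have h4 : ∀ x, x ∈ vs T → x ≠ v → x ∈ vs (red T v d w) := by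
            intro x hx hxv
            rw [vs_red c]
            exact Finset.mem_erase.2 ⟨hxv, hx⟩
          exact g.gp a b e (h4 a ha h1) (h4 b hb h2) (h4 e he h3) hab hae hbe
  · intro a b x y hx hy hxy hn
    obtain ⟨hab, hax, hbx⟩ := h.ne hx
    obtain ⟨-, hay, hby⟩ := h.ne hy
    by_cases h1 : a = v
    · subst h1
      rw [hfv, hf b hab.symm, hf x hax.symm, hf y hay.symm]
      exact xb_D1 h c hp1 hx hy hxy
    · by_cases h2 : b = v
      · subst h2
        rw [hfv, hf a hab, hf x hbx.symm, hf y hby.symm, o_swap p (f a) (f x),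
          o_swap p (f a) (f y), neg_mul_neg]
        rw [tri_swap] at hx hy
        exact xb_D1 h c hp1 hx hy hxy
      · by_cases h3 : x = v
        · subst h3
          rw [hfv, hf a h1, hf b h2, hf y hxy.symm]
          exact xb_inn_x h c g hp1 hp2 hx hxy.symm hy hn
        · by_cases h4 : y = v
          · subst h4
            rw [hfv, hf a h1, hf b h2, hf x h3, mul_comm]
            exact xb_inn_x h c g hp1 hp2 hy hxy hx hn
          · rw [hf a h1, hf b h2, hf x h3, hf y h4]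
            exact g.inn a b x y (xb_red hx h1 h2 h3) (xb_red hy h1 h2 h4) hxy hn
  · intro a b x y hx hy hxy
    have h1 : a ≠ v := by
      rintro rfl
      exact hv0 (by rw [← hx]; exact mem_tri.2 (Or.inl rfl))
    have h2 : b ≠ v := by
      rintro rfl
      exact hv0 (by rw [← hx]; exact mem_tri.2 (Or.inr (Or.inl rfl)))
    have h3 : x ≠ v := by
      rintro rfl
      exact hv0 (by rw [← hx]; exact mem_tri.2 (Or.inr (Or.inr rfl)))
    by_cases h4 : y = v
    · subst h4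
      rw [hfv, hf a h1, hf b h2, hf x h3]
      exact xb_out_y h c h0 g hp1 hp2 hy hx
    · rw [hf a h1, hf b h2, hf x h3, hf y h4]
      exact g.out a b x y hx (xb_red hy h1 h2 h4) hxy

end Pool.Agent.Fary
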