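import Pool.Agent.Fary.TwoC

/-!
# FARY-Face3 (1.2h): all faces of an edge maximal graph are triangles

PLAN.  `exists_planeData'` with `emax_twoC`: `a, b, D`, `IsPl a b`,
`D.on f u v ↔ ∃ e, Jn a u v e ∧ Inc b f e`.
* Dual connectedness: `hp.dconn` is `Cn b`; a step `Lk b f g` is given by an edge `e` with `b e = (f, g)` or
  `(g, f)`; then `D.on f (a e).1 (a e).2` and `D.on g (a e).1 (a e).2`.
* (*) two different vertices on a face (`D.Von f p`, `D.Von f r`) are adjacent: `pl_ad_face` and maximality, as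
  `hface` in `SB/CTri.lean`.
* `D.len f = 3`: suppose `4 ≤ D.len f` (`three_le_len`).  `x_i = D.vx f i` for `i = 0, 1, 2, 3` are four distinct
  vertices (`vx_inj`, the numerals `0,1,2,3` are different in `ZMod (D.len f)`: `zmod_cast_ne_zero` in
  `Api.lean`), pairwise adjacent by (*).  The pairs `x0 x2` and `x1 x3` are not on `f` (`D.on_vx`/`D.on_eq_vx`;
  the index difference is `2 ≠ ±1` as `4 ≤ len`; for `len = 4` also `3 = -1`: the difference of `0, 2` and of
  `1, 3` is `2`).
  Let `Z u v = 1` if `{u, v}` is one of the three pairs of `x0, x1, x2`, else `0`: symmetric, supported on edges,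
  even at every vertex (`0` or `2` neighbours).  `D.jordan` gives `s`.
  At `x1`: `f = D.fc x1 m` (`Von_iff`), the two edges of `f` at `x1` are `x1 x0`, `x1 x2`
  (`D.nb x1 m`, `D.nb x1 (m+1)`); the edge `D.nb x1 (m+1)` lies on `f` and `g1 = D.fc x1 (m+1)`, so
  `s f + s g1 = 1`; going on around `x1` all further edges `nb x1 (m+2), …` are not in `Z`, so all faces
  `D.fc x1 j`, `j ≠ m`, have `s = s f + 1` (`arc_const`/`side_vertex` in `Sep.lean` may help).
  At `x3`: no edge of `Z` is at `x3`, so all faces at `x3` have the same `s`, namely `s f` (`f` is at `x3`;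
  `side_vertex`).
  The edge `x1 x3` lies on a face `g = D.fc x1 j`, and `g ≠ f`; so `s g = s f + 1`; but `g` is a face at `x3`, so
  `s g = s f`.  Contradiction.
-/

set_option autoImplicit false

noncomputable section

namespace Pool.Agent.Fary

open Pool.Agent.Helper1.PG
open Pool.Agent.SB (EMax ad pl_ad_face exists_planeData')

private theorem z2_one_ne (x : ZMod 2) (h : x = x + 1) : False := by
  have h1 : (1 : ZMod 2) = 0 := by linear_combination -h
  exact absurd h1 (by decide)

private theorem len_lt {V F : Type} [Fintype V] [Fintype F] {G : SimpleGraph V}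
    (D : PlaneData G F)
    (hface : ∀ f p r, D.Von f p → D.Von f r → p ≠ r → G.Adj p r) (u : V) (m : ZMod (D.deg u))
    (h4 : 4 ≤ D.len (D.fc u m)) : False := by
  classical
  obtain ⟨x, hxf, hxu, hx0, hx2⟩ := D.exists_Von_of_four_le h4
  set x0 := D.nb u m with hdx0
  set x2 := D.nb u (m + 1) with hdx2
  have hVu : D.Von (D.fc u m) u := D.Von_fc u m
  have hV0 : D.Von (D.fc u m) x0 := D.Von_nb u m
  have hV2 : D.Von (D.fc u m) x2 := D.Von_nb' u m
  have h02 : x0 ≠ x2 := D.nb_ne u m
  have hu0 : u ≠ x0 := (D.adj_nb u m).ne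
  have hu2 : u ≠ x2 := (D.adj_nb u (m + 1)).ne
  set T : Finset V := {u, x0, x2} with hT
  have hTcard : T.card = 3 := by
    rw [hT, Finset.card_insert_of_notMem (by simp [hu0, hu2]),
      Finset.card_insert_of_notMem (by simp [h02]), Finset.card_singleton]
  have hTV : ∀ w ∈ T, D.Von (D.fc u m) w := by
    intro w hw
    rw [hT] at hw
    simp only [Finset.mem_insert, Finset.mem_singleton] at hw
    rcases hw with rfl | rfl | rfl
    · exact hVu
    · exact hV0
    · exact hV2
  obtain ⟨s, hs⟩ := D.jordan (fun p q => if p ∈ T ∧ q ∈ T ∧ p ≠ q then 1 else 0)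
    (fun p q => by
      refine if_congr ?_ rfl rfl
      constructor
      · rintro ⟨h1, h2, h3⟩
        exact ⟨h2, h1, h3.symm⟩
      · rintro ⟨h1, h2, h3⟩
        exact ⟨h2, h1, h3.symm⟩)
    (fun p q hpq => by
      refine if_neg ?_
      rintro ⟨h1, h2, h3⟩
      exact hpq (hface _ p q (hTV p h1) (hTV q h2) h3))
    (fun v => by
      by_cases hv : v ∈ T
      · have h1 : ∀ w, (if v ∈ T ∧ w ∈ T ∧ v ≠ w then (1 : ZMod 2) else 0) =
            if w ∈ T.erase v then 1 else 0 := by
          intro w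
          refine if_congr ?_ rfl rfl
          rw [Finset.mem_erase]
          exact ⟨fun h => ⟨h.2.2.symm, h.2.1⟩, fun h => ⟨hv, h.2, h.1.symm⟩⟩
        rw [Finset.sum_congr rfl fun w _ => h1 w, Finset.sum_ite_mem, Finset.univ_inter,
          Finset.sum_const, Finset.card_erase_of_mem hv, hTcard]
        decide
      · refine Finset.sum_eq_zero fun w _ => if_neg ?_
        rintro ⟨h1, _⟩
        exact hv h1)
  have hstep : ∀ k : ZMod (D.deg u), k ≠ m → k ≠ m + 1 →
      s (D.fc u k) = s (D.fc u (k - 1)) := by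
    intro k hk1 hk2
    have h1 := hs _ _ u (D.nb u k) (D.fc_ne u k) ((D.on_iff u k _).2 (Or.inl rfl))
      ((D.on_iff u k _).2 (Or.inr rfl))
    rw [if_neg] at h1
    · have h2 : s (D.fc u (k - 1)) + s (D.fc u (k - 1)) = 0 := z2_add_self _
      linear_combination h1 - h2
    · rintro ⟨_, h2, h3⟩
      rw [hT] at h2
      simp only [Finset.mem_insert, Finset.mem_singleton] at h2
      rcases h2 with h2 | h2 | h2
      · exact h3 h2.symm
      · exact hk1 (D.nb_inj u h2)
      · exact hk2 (D.nb_inj u h2)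
  have hjump : s (D.fc u (m + 1)) = s (D.fc u m) + 1 := by
    have h1 := hs _ _ u (D.nb u (m + 1)) (D.fc_ne u (m + 1))
      ((D.on_iff u (m + 1) _).2 (Or.inl rfl)) ((D.on_iff u (m + 1) _).2 (Or.inr rfl))
    rw [if_pos ⟨by simp [hT], by simp [hT, hdx2], hu2⟩, add_sub_cancel_right] at h1
    have h2 : s (D.fc u m) + s (D.fc u m) = 0 := z2_add_self _
    linear_combination h1 - h2
  -- the edge from `u` to `x`
  obtain ⟨k, hk⟩ := (D.adj_iff u x).1 (hface _ u x hVu hxf (Ne.symm hxu))
  have hkm : k ≠ m := by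
    rintro rfl
    exact hx0 hk.symm
  have hkm1 : k ≠ m + 1 := by
    rintro rfl
    exact hx2 hk.symm
  have hsk : s (D.fc u k) = s (D.fc u (m + 1)) := by
    obtain ⟨t, ht, hkt⟩ := PlaneData.exists_arc (m + 1) k
    rw [hkt]
    refine D.arc_const (m + 1) t fun r hr1 hr2 => hstep _ ?_ ?_
    · intro h1
      have h2 : ((r + 1 : ℕ) : ZMod (D.deg u)) = 0 := by
        push_cast
        linear_combination h1
      by_cases h3 : r + 1 < D.deg u
      · exact zmod_cast_ne_zero (by omega) h3 h2
      · have h4 : r = t := by omega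
        apply hkm
        rw [hkt, ← h4]
        exact h1
    · intro h1
      have h2 : ((r : ℕ) : ZMod (D.deg u)) = 0 := by linear_combination h1
      exact zmod_cast_ne_zero hr1 (by omega) h2
  have hgx : D.Von (D.fc u k) x := by
    rw [← hk]
    exact D.Von_nb u k
  have hZx : ∀ w, (if x ∈ T ∧ w ∈ T ∧ x ≠ w then (1 : ZMod 2) else 0) = 0 := by
    intro w
    refine if_neg ?_
    rintro ⟨h1, _⟩
    rw [hT] at h1
    simp only [Finset.mem_insert, Finset.mem_singleton] at h1
    rcases h1 with h1 | h1 | h1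
    · exact hxu h1
    · exact hx0 h1
    · exact hx2 h1
  have h5 := D.side_vertex (Z := fun p q => if p ∈ T ∧ q ∈ T ∧ p ≠ q then (1 : ZMod 2) else 0)
    hs hZx hxf hgx
  rw [hsk, hjump] at h5
  exact z2_one_ne _ h5

theorem exists_data3 {W : Type} [Fintype W] {Y : SimpleGraph W} (h : EMax Y)
    (h4 : 4 ≤ Fintype.card W) :
    ∃ (F : Type) (_ : Fintype F) (D : PlaneData Y F), (∀ f, D.len f = 3) ∧
      ∀ f g, Relation.ReflTransGen (fun f g => ∃ u v, D.on f u v ∧ D.on g u v) f g := by
  classical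
  obtain ⟨F, E, _, _, a, b, D, hp, _, hlk, hon⟩ :=
    exists_planeData' (by omega) (emax_twoC h (by omega)) h.1
  have hVon : ∀ f p, D.Von f p → ∃ e, Inc a p e ∧ Inc b f e := by
    intro f p h
    obtain ⟨i, rfl⟩ := (D.Von_iff f p).1 h
    obtain ⟨e, he1, he2⟩ := (hon _ _ _).1 (D.on_fc p i)
    exact ⟨e, he1.inc, he2⟩
  have hface : ∀ f p r, D.Von f p → D.Von f r → p ≠ r → Y.Adj p r := by
    intro f p r h1 h2 hne
    exact h.2 p r hne (pl_ad_face hp hlk (hVon f p h1) (hVon f r h2))
  refine ⟨F, inferInstance, D, ?_, ?_⟩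
  · intro f
    by_contra hcon
    have h5 : 4 ≤ D.len f := by
      have := D.three_le_len f
      omega
    have h6 : D.Von f (D.vx f 0) := ⟨0, rfl⟩
    generalize D.vx f 0 = u at h6
    obtain ⟨m, rfl⟩ := (D.Von_iff f u).1 h6
    exact len_lt D hface u m h5
  · intro f g
    refine Relation.ReflTransGen.mono ?_ _ _ (hp.dconn f g)
    rintro f g ⟨e, he⟩
    refine ⟨(a e).1, (a e).2, (hon _ _ _).2 ⟨e, Or.inl ⟨rfl, rfl⟩, ?_⟩,
      (hon _ _ _).2 ⟨e, Or.inl ⟨rfl, rfl⟩, ?_⟩⟩
    · rcases he with he | he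
      · exact Or.inl he.1
      · exact Or.inr he.2
    · rcases he with he | he
      · exact Or.inr he.2
      · exact Or.inl he.1

end Pool.Agent.Fary
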