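import Pool.Agent.Fary.MkA
import Pool.Agent.Fary.Face3
import Pool.Agent.U5.PlIso

/-!
# FARY-MkB (1.0h): the triangulation of an edge maximal graph

PLAN.  `exists_data3`, `emax_twoC`, `T = univ.image (tv D)`.
* `three`: `tv_card`.
* `gT T = Y`: `u ≠ v`, `u, v ∈ tv D f` iff `D.on f u v` for some `f` iff `Y.Adj u v` (`on_adj`, `exists_two` or
  `adj_iff` and `on_fc`).
* `two`: for `Y.Adj u v`, `v = D.nb u i`: the faces `f` with `D.on f u v` are `D.fc u i`, `D.fc u (i-1)`
  (`on_iff`), different (`fc_ne`); `T.filter (u ∈ · ∧ v ∈ ·) = {tv D (fc u i), tv D (fc u (i-1))}` and `tv_inj`.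
* `dual`: `P ⊆ T` nonempty, `≠ T`: faces `f`, `g` with `tv D f ∈ P`, `tv D g ∉ P`; along the path from `f` to `g`
  (`exists_step_ne` with `p f := tv D f ∈ P`) there is a step `f' g'` with `tv D f' ∈ P`, `tv D g' ∉ P`,
  `D.on f' u v`, `D.on g' u v`; `tv_on`.
* `euler`: `T.card = Fintype.card F` (`tv_inj`).  `D.euler` with `len = 3`: `Nat.card Y.edgeSet = 3 * card W - 6`.
  `∑ v, D.deg v = 2 * Nat.card Y.edgeSet` (copy from the end of the proof of `exists_tri` in `SB/CTri.lean`) and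
  `∑ v, D.deg v = ∑ f, D.len f = 3 * card F` (`D.sum_corners` in `Api.lean` with `φ = 1`).  `vs T = univ`: every
  vertex has a face (`D.fc v 0`, `Von_fc`).
* `k5`: `Pool.Agent.U5.Pl_k5 h.1` (check the name space) rewritten with `gT T = Y`.
-/

set_option autoImplicit false

noncomputable section

namespace Pool.Agent.Fary

open Finset
open Pool.Agent.Helper1.PG
open Pool.Agent.SB (EMax)

private theorem mkb_deg {W F : Type} [Fintype W] [Fintype F] {Y : SimpleGraph W}
    (D : PlaneData Y F) : ∑ v, (D.deg v : ℤ) = 2 * (Nat.card Y.edgeSet : ℤ) := by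
  classical
  have h3 : ∀ v, D.deg v = Y.degree v := by
    intro v
    rw [D.deg_eq_card, ← SimpleGraph.card_neighborFinset_eq_degree,
      SimpleGraph.neighborFinset_eq_filter]
  have h6 := Y.sum_degrees_eq_twice_card_edges
  have h7 : Nat.card Y.edgeSet = Y.edgeFinset.card := by
    rw [Nat.card_eq_fintype_card, SimpleGraph.edgeFinset_card]
  rw [h7]
  simp only [h3]
  exact_mod_cast h6

private theorem mkb_len {W F : Type} [Fintype W] [Fintype F] {Y : SimpleGraph W}
    (D : PlaneData Y F) : ∑ v, (D.deg v : ℤ) = ∑ f, (D.len f : ℤ) := by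
  have h := D.sum_corners (M := ℤ) (fun _ _ => 1)
  have h1 : ∀ v, ∑ _m : ZMod (D.deg v), (1 : ℤ) = D.deg v := by
    intro v
    rw [Finset.sum_const, Finset.card_univ, ZMod.card]
    simp
  have h2 : ∀ f, ∑ _m : ZMod (D.len f), (1 : ℤ) = D.len f := by
    intro f
    rw [Finset.sum_const, Finset.card_univ, ZMod.card]
    simp
  rw [Finset.sum_congr rfl fun v _ => h1 v, Finset.sum_congr rfl fun f _ => h2 f] at h
  exact h

theorem exists_Tr {W : Type} [Fintype W] [DecidableEq W] {Y : SimpleGraph W} (h : EMax Y)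
    (h4 : 4 ≤ Fintype.card W) :
    ∃ T : Finset (Finset W), Tr T ∧ gT T = Y ∧ vs T = univ ∧ T.Nonempty := by
  classical
  obtain ⟨F, _, D, h3, hd⟩ := exists_data3 h h4
  have h2 := emax_twoC h (by omega)
  have hinj := tv_inj D h3 h4 h2
  set T : Finset (Finset W) := univ.image (tv D) with hT
  have hmem : ∀ t, t ∈ T ↔ ∃ f, tv D f = t := by
    intro t
    rw [hT, Finset.mem_image]
    constructor
    · rintro ⟨f, -, hf⟩
      exact ⟨f, hf⟩
    · rintro ⟨f, hf⟩
      exact ⟨f, mem_univ _, hf⟩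
  have hg : gT T = Y := by
    ext u v
    rw [gT_adj]
    constructor
    · rintro ⟨hne, t, ht, hu, hv⟩
      obtain ⟨f, rfl⟩ := (hmem t).1 ht
      exact D.on_adj f u v ((tv_on D h3 f u v).2 ⟨hne, hu, hv⟩)
    · intro huv
      obtain ⟨i, rfl⟩ := (D.adj_iff u v).1 huv
      have h5 := (tv_on D h3 (D.fc u i) u (D.nb u i)).1 (D.on_fc u i)
      exact ⟨h5.1, _, (hmem _).2 ⟨_, rfl⟩, h5.2.1, h5.2.2⟩
  have hvs : vs T = univ := by
    ext x
    simp only [mem_vs, mem_univ, iff_true]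
    exact ⟨_, (hmem _).2 ⟨D.fc x 0, rfl⟩, (mem_tv D _ _).2 (D.Von_fc x 0)⟩
  have hne : T.Nonempty := by
    have : 0 < Fintype.card W := by omega
    obtain ⟨x⟩ := Fintype.card_pos_iff.1 this
    exact ⟨_, (hmem _).2 ⟨D.fc x 0, rfl⟩⟩
  have hcard : T.card = Fintype.card F := by
    rw [hT, Finset.card_image_of_injective _ hinj, Finset.card_univ]
  refine ⟨T, { three := ?_, two := ?_, dual := ?_, euler := ?_, k5 := ?_ }, hg, hvs, hne⟩
  · intro t ht
    obtain ⟨f, rfl⟩ := (hmem t).1 ht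
    exact tv_card D h3 f
  · intro u v huv
    rw [hg] at huv
    have hnuv := huv.ne
    obtain ⟨i, rfl⟩ := (D.adj_iff u v).1 huv
    have h5 : T.filter (fun t => u ∈ t ∧ D.nb u i ∈ t) =
        {tv D (D.fc u i), tv D (D.fc u (i - 1))} := by
      ext t
      rw [Finset.mem_filter, hmem, Finset.mem_insert, Finset.mem_singleton]
      constructor
      · rintro ⟨⟨f, rfl⟩, h6, h7⟩
        have h8 := (tv_on D h3 f u (D.nb u i)).2 ⟨hnuv, h6, h7⟩
        rcases (D.on_iff u i f).1 h8 with rfl | rfl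
        · exact Or.inl rfl
        · exact Or.inr rfl
      · rintro (rfl | rfl)
        · have h8 := (tv_on D h3 _ _ _).1 ((D.on_iff u i (D.fc u i)).2 (Or.inl rfl))
          exact ⟨⟨_, rfl⟩, h8.2.1, h8.2.2⟩
        · have h8 := (tv_on D h3 _ _ _).1 ((D.on_iff u i (D.fc u (i - 1))).2 (Or.inr rfl))
          exact ⟨⟨_, rfl⟩, h8.2.1, h8.2.2⟩
    rw [h5, Finset.card_pair]
    intro h6
    exact D.fc_ne u i (hinj h6)
  · intro P hP hPne hPT
    obtain ⟨s, hs⟩ := hPne
    obtain ⟨f, rfl⟩ := (hmem s).1 (hP hs)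
    obtain ⟨t, ht, htP⟩ : ∃ t ∈ T, t ∉ P := by
      by_contra hcon
      push Not at hcon
      exact hPT (Finset.Subset.antisymm hP hcon)
    obtain ⟨g, rfl⟩ := (hmem t).1 ht
    obtain ⟨f', g', ⟨u, v, hu, hv⟩, h5, h6⟩ := exists_step_ne (p := fun f => tv D f ∈ P) (hd f g) hs htP
    have h7 := (tv_on D h3 _ _ _).1 hu
    have h8 := (tv_on D h3 _ _ _).1 hv
    exact ⟨_, h5, _, (hmem _).2 ⟨g', rfl⟩, h6, u, v, h7.1, h7.2.1, h7.2.2, h8.2.1, h8.2.2⟩
  · rw [hvs, hcard, Finset.card_univ]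
    have h5 := D.euler
    have h6 : ∑ f, ((D.len f : ℤ) - 3) = 0 :=
      Finset.sum_eq_zero (fun f _ => by rw [h3 f]; norm_num)
    rw [h6] at h5
    have h7 := mkb_deg D
    have h8 := mkb_len D
    have h9 : ∑ f, (D.len f : ℤ) = 3 * Fintype.card F := by
      rw [Finset.sum_congr rfl fun f _ => by rw [h3 f], Finset.sum_const, Finset.card_univ,
        nsmul_eq_mul, mul_comm]
      norm_num
    have h10 : (Fintype.card F : ℤ) + 4 = 2 * Fintype.card W := by linarith
    exact_mod_cast h10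
  · rw [hg]
    exact Pool.Agent.U5.Pl_k5 h.1

end Pool.Agent.Fary
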