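import Pool.Agent.Fary.Base
import Pool.Agent.Fary.Draw

/-!
# FARY-Small: at most four vertices

The boundary of the tetrahedron (all triples of `Fin 4`) is drawn by `base` and `draw`; a graph with at most
four vertices is a subgraph of it.
-/

set_option autoImplicit false

namespace Pool.Agent.Fary

open Finset

private def T4 : Finset (Finset (Fin 4)) := (univ : Finset (Fin 4)).powersetCard 3

private lemma small_vs : vs T4 = univ := by decide

private lemma small_adj {u v : Fin 4} (h : u ≠ v) : (gT T4).Adj u v := by
  refine ⟨h, ?_⟩
  revert u v
  decide

private lemma small_tri : Tri2 T4 where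
  three t ht := (mem_powersetCard.1 ht).2
  two u v huv := by
    have h : ∀ u v : Fin 4, u ≠ v → (T4.filter (fun t => u ∈ t ∧ v ∈ t)).card = 2 := by decide
    exact h u v huv.1

theorem drawn_small {V : Type} [Fintype V] (G : SimpleGraph V) (h : Fintype.card V ≤ 4) :
    Drawn G := by
  obtain ⟨f, hf⟩ := base small_tri (by rw [small_vs]; rfl) (T0 := {0, 1, 2}) (by decide)
  have hD : Drawn (gT T4) := draw small_tri small_vs (by decide) hf
  let e := Fintype.equivFin V
  refine hD.comap (fun v => Fin.castLE h (e v)) ?_ ?_
  · intro u v huv
    exact e.injective (Fin.castLE_injective h huv)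
  · intro u v huv
    apply small_adj
    intro h2
    exact huv.ne (e.injective (Fin.castLE_injective h h2))

end Pool.Agent.Fary
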