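import Pool.Agent.Fary.Ind
import Pool.Agent.Fary.Draw
import Pool.Agent.Fary.Small
import Pool.Agent.Fary.MkB

/-!
# FARY-Final: every finite graph of the class `Pl` has a straight line drawing
-/

set_option autoImplicit false

namespace Pool.Agent.Fary

open Finset
open Pool.Agent.Helper1.PG
open Pool.Agent.SB (EMax ad)

/-- an edge maximal graph of the class above a given one -/
theorem exists_emax {W : Type} [Fintype W] : ∀ (n : ℕ) (G : SimpleGraph W), Pl G →
    Nat.card {p : W × W // ¬ G.Adj p.1 p.2} = n → ∃ Y, G ≤ Y ∧ EMax Y := by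
  classical
  intro n
  induction n using Nat.strong_induction_on with
  | _ n ih =>
    intro G hG hn
    by_cases hmax : ∀ p r, p ≠ r → Pl (ad G p r) → G.Adj p r
    · exact ⟨G, le_rfl, hG, hmax⟩
    · push Not at hmax
      obtain ⟨p, r, hne, hpl, hnadj⟩ := hmax
      have hle : G ≤ ad G p r := fun u v huv => Or.inl huv
      have hlt : Nat.card {q : W × W // ¬ (ad G p r).Adj q.1 q.2} < n := by
        rw [← hn, Nat.card_eq_fintype_card, Nat.card_eq_fintype_card, Fintype.card_subtype,
          Fintype.card_subtype]
        apply Finset.card_lt_card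
        rw [Finset.ssubset_iff_of_subset]
        · refine ⟨(p, r), by simpa using hnadj, ?_⟩
          simp only [Finset.mem_filter, Finset.mem_univ, true_and, not_not]
          exact Or.inr ⟨hne, Or.inl ⟨rfl, rfl⟩⟩
        · intro q hq
          simp only [Finset.mem_filter, Finset.mem_univ, true_and] at hq ⊢
          exact fun h => hq (hle h)
      obtain ⟨Y, h1, h2⟩ := ih _ hlt (ad G p r) hpl rfl
      exact ⟨Y, hle.trans h1, h2⟩

/-- **Fary.**  Every finite graph of the class `Pl` is drawn in the plane (with straight edges). -/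
theorem pl_drawn {V : Type} [Fintype V] (G : SimpleGraph V) (h : Pl G) : Drawn G := by
  classical
  by_cases h4 : Fintype.card V ≤ 4
  · exact drawn_small G h4
  · obtain ⟨Y, hY, hmax⟩ := exists_emax _ G h rfl
    obtain ⟨T, hT, hgT, hvs, ⟨T0, h0⟩⟩ := exists_Tr hmax (by omega)
    obtain ⟨f, g⟩ := exists_good (Fintype.card V - 4) T T0 hT h0 (by
      rw [hvs, card_univ]; omega)
    have h5 := draw hT.toTri2 hvs h0 g
    rw [hgT] at h5
    exact h5.mono hY

end Pool.Agent.Fary
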