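import Pool.Agent.Fary.Bas

/-!
# FARY-Red2 (1.3h): after the reduction every edge is in exactly two triangles

PLAN.  `R = red T v d w`, members: the members of `T` without `v`, and the fan triangles
`F i = {w 0, w i, w (i+1)}`, `1 ≤ i`, `i + 2 ≤ d` (`mem_red`).
* `card_fan_mem`/`three`: `F i` has card 3 by `c.inj` (`card_tri`).
* `two`: enough: for `u ≠ u'` in a common member of `R` there are exactly two.  It is convenient to work with
  the following reformulation (private lemma): a family of triples satisfies `two` iff for all `a b x` with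
  `{a, b, x} ∈ R` there is `y ≠ x` with `{a, b, y} ∈ R` and for all `z`, `{a, b, z} ∈ R` implies `z = x` or
  `z = y`.
  For a triple `{a, b, x} ∈ R` (so `a ≠ b`):
  (i) `{a, b} = {w i, w (i+1)}` with `i < d` (link edge).  In `T` the triangles at `a b` are `{v, w i, w (i+1)}`
      and exactly one other `{w i, w (i+1), z}`, `z ≠ v`, which is in `R`.  Among the fan triangles exactly
      one contains `w i, w (i+1)`: `F i` if `1 ≤ i`, `i + 2 ≤ d`; `F 1` if `i = 0`; `F (d-2)` if `i = d - 1`
      (`w d = w 0`).  They are different since `F j ∉ T` (`nfan`).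
  (ii) `{a, b} = {w 0, w i}` with `2 ≤ i`, `i + 2 ≤ d` (chord): no member of `T` (`chord`); the fan triangles
      `F (i-1)`, `F i`.
  (iii) otherwise: `a, b` are not both in a fan triangle (two elements of `F j` are a link edge or a chord),
      so `{a, b, x} ∈ T`, `v ∉`; all members of `T` with `a, b` do not contain `v` (two elements `≠ v` of
      `{v, w i, w (i+1)}` form a link edge), so they are in `R`.
  The index arguments use `c.inj` on indices `< d` (rewrite `w d = w 0` first) and `omega`.
-/

set_option autoImplicit false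

namespace Pool.Agent.Fary

open Finset

variable {V : Type} [DecidableEq V] {T : Finset (Finset V)}

/-- two triples at a pair -/
private def Two (R : Finset (Finset V)) (a b : V) : Prop :=
  ∃ p q, p ≠ q ∧ ∀ z, ({a, b, z} : Finset V) ∈ R ↔ z = p ∨ z = q

private lemma Two.symm {R : Finset (Finset V)} {a b : V} (h : Two R a b) : Two R b a := by
  obtain ⟨p, q, h1, h2⟩ := h
  refine ⟨p, q, h1, fun z => ?_⟩
  rw [tri_swap b a z]
  exact h2 z

private lemma third3 {R : Finset (Finset V)} (h : ∀ t ∈ R, t.card = 3) {t : Finset V} (ht : t ∈ R)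
    {a b : V} (ha : a ∈ t) (hb : b ∈ t) (hab : a ≠ b) : ∃ c, t = {a, b, c} := by
  obtain ⟨x, y, z, hxy, hxz, hyz, rfl⟩ := Finset.card_eq_three.1 (h t ht)
  rcases mem_tri.1 ha with rfl | rfl | rfl <;> rcases mem_tri.1 hb with rfl | rfl | rfl
  · exact absurd rfl hab
  · exact ⟨z, rfl⟩
  · exact ⟨y, tri_swap' _ _ _⟩
  · exact ⟨z, tri_swap _ _ _⟩
  · exact absurd rfl hab
  · exact ⟨x, tri_rot _ _ _⟩
  · exact ⟨y, by rw [tri_rot, tri_rot]⟩
  · exact ⟨x, by rw [tri_rot, tri_swap]⟩
  · exact absurd rfl hab

private lemma two_card {R : Finset (Finset V)} (h : ∀ t ∈ R, t.card = 3) {a b : V} (hab : a ≠ b)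
    (h2 : Two R a b) : (R.filter (fun t => a ∈ t ∧ b ∈ t)).card = 2 := by
  obtain ⟨p, q, hpq, h3⟩ := h2
  have hp := (h3 p).2 (Or.inl rfl)
  have hq := (h3 q).2 (Or.inr rfl)
  rw [Finset.card_eq_two]
  refine ⟨{a, b, p}, {a, b, q}, ?_, ?_⟩
  · intro h4
    obtain ⟨_, h5, h6⟩ := card_tri.1 (h _ hp)
    exact hpq (eq_of_tri h4 h5.symm h6.symm)
  · ext t
    rw [Finset.mem_filter, Finset.mem_insert, Finset.mem_singleton]
    constructor
    · rintro ⟨h5, h6, h7⟩
      obtain ⟨c, rfl⟩ := third3 h h5 h6 h7 hab
      rcases (h3 c).1 h5 with rfl | rfl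
      · exact Or.inl rfl
      · exact Or.inr rfl
    · rintro (rfl | rfl)
      · exact ⟨hp, by simp, by simp⟩
      · exact ⟨hq, by simp, by simp⟩

private lemma fan_mem {v : V} {d : ℕ} {w : ℕ → V} {i : ℕ} (h1 : 1 ≤ i) (h2 : i + 2 ≤ d) :
    ({w 0, w i, w (i + 1)} : Finset V) ∈ red T v d w := mem_red.2 (Or.inr ⟨i, h1, h2, rfl⟩)

/-- equality of vertices of the link -/
private lemma idx {v : V} {d : ℕ} {w : ℕ → V} (c : Cor T v d w) {i j : ℕ} (hi : i < d)
    (hj : j < d) (h : w i ∈ ({w 0, w j, w (j + 1)} : Finset V)) (hj1 : j + 1 < d) :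
    i = 0 ∨ i = j ∨ i = j + 1 := by
  rcases mem_tri.1 h with h | h | h
  · exact Or.inl (c.inj _ _ hi (by omega) h)
  · exact Or.inr (Or.inl (c.inj _ _ hi hj h))
  · exact Or.inr (Or.inr (c.inj _ _ hi hj1 h))

/-- link edges -/
private lemma two_link (h : Tri2 T) {v : V} {d : ℕ} {w : ℕ → V} (c : Cor T v d w) {i : ℕ}
    (hi : i < d) : Two (red T v d w) (w i) (w (i + 1)) := by
  have hd := c.three_le
  have hv : ({w i, w (i + 1), v} : Finset V) ∈ T := by
    have := ((c.star {v, w i, w (i + 1)}).2 ⟨i, hi, rfl⟩).1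
    rwa [tri_rot] at this
  have hne := h.ne hv
  obtain ⟨y, hyv, hy⟩ := h.other hv
  have hyv' : v ∉ ({w i, w (i + 1), y} : Finset V) := by
    intro h1
    rcases mem_tri.1 h1 with h1 | h1 | h1
    · exact hne.2.1 h1.symm
    · exact hne.2.2 h1.symm
    · exact hyv h1.symm
  -- exactly one fan triangle
  have hfan : ∃ q, ({w i, w (i + 1), q} : Finset V) ∈ red T v d w ∧
      ({w i, w (i + 1), q} : Finset V) ∉ T ∧
      ∀ j, 1 ≤ j → j + 2 ≤ d → ∀ z, ({w i, w (i + 1), z} : Finset V) = {w 0, w j, w (j + 1)} →
        z = q := by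
    by_cases h0 : i = 0
    · subst h0
      refine ⟨w 2, fan_mem (i := 1) le_rfl (by omega), c.nfan 1 le_rfl (by omega), ?_⟩
      intro j hj1 hj2 z hz
      have h1 : w 1 ∈ ({w 0, w j, w (j + 1)} : Finset V) := by
        rw [← hz]
        simp
      have h2 := idx c (by omega) (by omega) h1 (by omega)
      have h3 : j = 1 := by omega
      subst h3
      refine (eq_of_tri hz.symm ?_ ?_).symm
      · intro h4
        have := c.inj _ _ (by omega) (by omega) h4
        omega
      · intro h4
        have := c.inj _ _ (by omega) (by omega) h4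
        omega
    by_cases h1 : i + 1 = d
    · have hw : w (i + 1) = w 0 := by rw [h1, c.per]
      have hT : ({w i, w (i + 1), w (i - 1)} : Finset V) = {w 0, w (i - 1), w (i - 1 + 1)} := by
        have e : i - 1 + 1 = i := by omega
        rw [hw, e, tri_rot (w i)]
      refine ⟨w (i - 1), ?_, ?_, ?_⟩
      · rw [hT]
        exact fan_mem (by omega) (by omega)
      · rw [hT]
        exact c.nfan _ (by omega) (by omega)
      · intro j hj1 hj2 z hz
        have h2 : w i ∈ ({w 0, w j, w (j + 1)} : Finset V) := by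
          rw [← hz]
          simp
        have h3 := idx c (by omega) (by omega) h2 (by omega)
        have h4 : j = i - 1 := by omega
        rw [h4, ← hT] at hz
        refine (eq_of_tri hz.symm ?_ ?_).symm
        · intro h5
          have := c.inj _ _ (by omega) (by omega) h5
          omega
        · intro h5
          rw [hw] at h5
          have := c.inj _ _ (by omega) (by omega) h5
          omega
    · have hT : ({w i, w (i + 1), w 0} : Finset V) = {w 0, w i, w (i + 1)} := by
        rw [tri_rot (w 0)]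
      refine ⟨w 0, ?_, ?_, ?_⟩
      · rw [hT]
        exact fan_mem (by omega) (by omega)
      · rw [hT]
        exact c.nfan _ (by omega) (by omega)
      · intro j hj1 hj2 z hz
        have h2 : w i ∈ ({w 0, w j, w (j + 1)} : Finset V) := by
          rw [← hz]
          simp
        have h2' : w (i + 1) ∈ ({w 0, w j, w (j + 1)} : Finset V) := by
          rw [← hz]
          simp
        have h3 := idx c (by omega) (by omega) h2 (by omega)
        have h3' := idx c (by omega) (by omega) h2' (by omega)
        have h4 : j = i := by omega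
        subst h4
        rw [← hT] at hz
        refine (eq_of_tri hz.symm ?_ ?_).symm
        · intro h5
          have := c.inj _ _ (by omega) (by omega) h5
          omega
        · intro h5
          have := c.inj _ _ (by omega) (by omega) h5
          omega
  obtain ⟨q, hq1, hq2, hq3⟩ := hfan
  refine ⟨y, q, ?_, fun z => ?_⟩
  · rintro rfl
    exact hq2 hy
  · constructor
    · intro hz
      rcases mem_red.1 hz with ⟨h1, h2⟩ | ⟨j, hj1, hj2, hj3⟩
      · rcases h.third hv hy hyv.symm h1 with rfl | rfl
        · exact absurd (by simp) h2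
        · exact Or.inl rfl
      · exact Or.inr (hq3 j hj1 hj2 z hj3)
    · rintro (rfl | rfl)
      · exact mem_red.2 (Or.inl ⟨hy, hyv'⟩)
      · exact hq1

/-- chords -/
private lemma two_chord {v : V} {d : ℕ} {w : ℕ → V} (c : Cor T v d w) {i : ℕ}
    (hi : 2 ≤ i) (hid : i + 2 ≤ d) : Two (red T v d w) (w 0) (w i) := by
  have hne : w 0 ≠ w i := by
    intro h1
    have := c.inj _ _ (by omega) (by omega) h1
    omega
  have hm : i - 1 + 1 = i := by omega
  have hT : ({w 0, w i, w (i - 1)} : Finset V) = {w 0, w (i - 1), w (i - 1 + 1)} := by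
    rw [hm, tri_swap' (w 0)]
  refine ⟨w (i + 1), w (i - 1), ?_, fun z => ?_⟩
  · intro h1
    have := c.inj _ _ (by omega) (by omega) h1
    omega
  · constructor
    · intro hz
      rcases mem_red.1 hz with ⟨h1, h2⟩ | ⟨j, hj1, hj2, hj3⟩
      · exact absurd ⟨hne, _, h1, by simp, by simp⟩ (c.chord i hi hid)
      · have h2 : w i ∈ ({w 0, w j, w (j + 1)} : Finset V) := by
          rw [← hj3]
          simp
        have h3 := idx c (by omega) (by omega) h2 (by omega)
        have h4 : j = i ∨ j = i - 1 := by omega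
        rcases h4 with h4 | h4
        · subst h4
          left
          refine (eq_of_tri hj3.symm ?_ ?_).symm
          · intro h5
            have := c.inj _ _ (by omega) (by omega) h5
            omega
          · intro h5
            have := c.inj _ _ (by omega) (by omega) h5
            omega
        · right
          rw [h4, ← hT] at hj3
          refine (eq_of_tri hj3.symm ?_ ?_).symm
          · intro h5
            have := c.inj _ _ (by omega) (by omega) h5
            omega
          · intro h5
            have := c.inj _ _ (by omega) (by omega) h5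
            omega
    · rintro (rfl | rfl)
      · exact fan_mem (by omega) hid
      · rw [hT]
        exact fan_mem (by omega) (by omega)

/-- pairs in a fan triangle -/
private lemma two_fan (h : Tri2 T) {v : V} {d : ℕ} {w : ℕ → V} (c : Cor T v d w) {j : ℕ}
    (hj1 : 1 ≤ j) (hj2 : j + 2 ≤ d) {a b : V} (hab : a ≠ b)
    (ha : a ∈ ({w 0, w j, w (j + 1)} : Finset V)) (hb : b ∈ ({w 0, w j, w (j + 1)} : Finset V)) :
    Two (red T v d w) a b := by
  have h0j : Two (red T v d w) (w 0) (w j) := by
    by_cases h1 : j = 1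
    · subst h1
      exact two_link h c (by omega)
    · exact two_chord c (by omega) hj2
  have h0j' : Two (red T v d w) (w 0) (w (j + 1)) := by
    by_cases h1 : j + 2 = d
    · have h2 := two_link h c (i := j + 1) (by omega)
      have h3 : w (j + 1 + 1) = w 0 := by
        have : j + 1 + 1 = d := by omega
        rw [this, c.per]
      rw [h3] at h2
      exact h2.symm
    · exact two_chord c (by omega) (by omega)
  have hjj : Two (red T v d w) (w j) (w (j + 1)) := two_link h c (by omega)
  rcases mem_tri.1 ha with rfl | rfl | rfl <;> rcases mem_tri.1 hb with rfl | rfl | rfl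
  · exact absurd rfl hab
  · exact h0j
  · exact h0j'
  · exact h0j.symm
  · exact absurd rfl hab
  · exact hjj
  · exact h0j'.symm
  · exact hjj.symm
  · exact absurd rfl hab

theorem red_tri2 (h : Tri2 T) {v : V} {d : ℕ} {w : ℕ → V} (c : Cor T v d w) :
    Tri2 (red T v d w) := by
  have h3 : ∀ t ∈ red T v d w, t.card = 3 := by
    intro t ht
    rcases mem_red.1 ht with ⟨h1, _⟩ | ⟨i, h1, h2, rfl⟩
    · exact h.three t h1
    · rw [card_tri]
      refine ⟨?_, ?_, ?_⟩
      · intro h4
        have := c.inj _ _ (by omega) (by omega) h4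
        omega
      · intro h4
        have := c.inj _ _ (by omega) (by omega) h4
        omega
      · intro h4
        have := c.inj _ _ (by omega) (by omega) h4
        omega
  refine ⟨h3, ?_⟩
  rintro a b ⟨hab, t, ht, ha, hb⟩
  apply two_card h3 hab
  -- case distinction
  by_cases hF : ∃ j, 1 ≤ j ∧ j + 2 ≤ d ∧ a ∈ ({w 0, w j, w (j + 1)} : Finset V) ∧
      b ∈ ({w 0, w j, w (j + 1)} : Finset V)
  · obtain ⟨j, hj1, hj2, h4, h5⟩ := hF
    exact two_fan h c hj1 hj2 hab h4 h5
  by_cases hL : ∃ i, i < d ∧ ((a = w i ∧ b = w (i + 1)) ∨ (b = w i ∧ a = w (i + 1)))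
  · obtain ⟨i, hi, ⟨rfl, rfl⟩ | ⟨rfl, rfl⟩⟩ := hL
    · exact two_link h c hi
    · exact (two_link h c hi).symm
  obtain ⟨x, rfl⟩ := third3 h3 ht ha hb hab
  have hred : ∀ z, ({a, b, z} : Finset V) ∈ red T v d w → ({a, b, z} : Finset V) ∈ T ∧
      v ∉ ({a, b, z} : Finset V) := by
    intro z hz
    rcases mem_red.1 hz with h1 | ⟨j, hj1, hj2, hj3⟩
    · exact h1
    · exfalso
      apply hF
      refine ⟨j, hj1, hj2, ?_, ?_⟩
      · rw [← hj3]
        simp
      · rw [← hj3]
        simp
  obtain ⟨hxT, hxv⟩ := hred x ht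
  have hva : v ≠ a := by
    rintro rfl
    exact hxv (by simp)
  have hvb : v ≠ b := by
    rintro rfl
    exact hxv (by simp)
  have hmem : ∀ z, ({a, b, z} : Finset V) ∈ T → v ∉ ({a, b, z} : Finset V) := by
    intro z hz hv
    obtain ⟨i, hi, hi2⟩ := (c.star _).1 ⟨hz, hv⟩
    have h4 : a ∈ ({v, w i, w (i + 1)} : Finset V) := by
      rw [← hi2]
      simp
    have h5 : b ∈ ({v, w i, w (i + 1)} : Finset V) := by
      rw [← hi2]
      simp
    rcases mem_tri.1 h4 with h4 | h4 | h4 <;> rcases mem_tri.1 h5 with h5 | h5 | h5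
    · exact hva h4.symm
    · exact hva h4.symm
    · exact hva h4.symm
    · exact hvb h5.symm
    · exact hab (h4.trans h5.symm)
    · exact hL ⟨i, hi, Or.inl ⟨h4, h5⟩⟩
    · exact hvb h5.symm
    · exact hL ⟨i, hi, Or.inr ⟨h5, h4⟩⟩
    · exact hab (h4.trans h5.symm)
  obtain ⟨y, hyx, hy⟩ := h.other hxT
  refine ⟨x, y, hyx.symm, fun z => ?_⟩
  constructor
  · intro hz
    exact h.third hxT hy hyx.symm (hred z hz).1
  · rintro (rfl | rfl)
    · exact ht
    · exact mem_red.2 (Or.inl ⟨hy, hmem _ hy⟩)

end Pool.Agent.Fary
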