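import Pool.Agent.Fary.Bas

/-!
# After the reduction the dual graph is connected
-/

set_option autoImplicit false

namespace Pool.Agent.Fary

open Finset

variable {V : Type} [DecidableEq V] {T : Finset (Finset V)}

/-- every edge of the link lies in a triangle of the fan -/
private theorem rd_fan {v : V} {d : ℕ} {w : ℕ → V} (c : Cor T v d w) {i : ℕ} (hi : i < d) :
    ∃ j, 1 ≤ j ∧ j + 2 ≤ d ∧ w i ∈ ({w 0, w j, w (j + 1)} : Finset V) ∧
      w (i + 1) ∈ ({w 0, w j, w (j + 1)} : Finset V) := by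
  have h3 := c.three_le
  rcases Nat.eq_zero_or_pos i with rfl | h0
  · exact ⟨1, le_rfl, by omega, mem_tri.2 (Or.inl rfl), mem_tri.2 (Or.inr (Or.inl rfl))⟩
  · by_cases h1 : i + 1 = d
    · refine ⟨i - 1, by omega, by omega, ?_, ?_⟩
      · rw [Nat.sub_add_cancel (by omega)]
        exact mem_tri.2 (Or.inr (Or.inr rfl))
      · rw [h1, c.per]
        exact mem_tri.2 (Or.inl rfl)
    · exact ⟨i, h0, by omega, mem_tri.2 (Or.inr (Or.inl rfl)), mem_tri.2 (Or.inr (Or.inr rfl))⟩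

theorem red_dual (h : Tr T) {v : V} {d : ℕ} {w : ℕ → V} (c : Cor T v d w) :
    ∀ P ⊆ red T v d w, P.Nonempty → P ≠ red T v d w → ∃ s ∈ P, ∃ t ∈ red T v d w, t ∉ P ∧
      ∃ a b, a ≠ b ∧ a ∈ s ∧ b ∈ s ∧ a ∈ t ∧ b ∈ t := by
  intro P hP hne hP'
  by_contra hcon
  push Not at hcon
  have h3 := c.three_le
  obtain ⟨F, hFd⟩ : ∃ F : ℕ → Finset V, F = fun i => {w 0, w i, w (i + 1)} := ⟨_, rfl⟩
  have hFR : ∀ i, 1 ≤ i → i + 2 ≤ d → F i ∈ red T v d w := by
    intro i h1 h2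
    rw [mem_red, hFd]
    exact Or.inr ⟨i, h1, h2, rfl⟩
  have hw0 : ∀ i, 1 ≤ i → i < d → w 0 ≠ w i := by
    intro i h1 h2 h4
    have := c.inj 0 i (by omega) h2 h4
    omega
  have hF : ∀ i, 1 ≤ i → i + 2 ≤ d → (F i ∈ P ↔ F 1 ∈ P) := by
    intro i
    induction i with
    | zero => intro h1; omega
    | succ i ih =>
      intro _ h2
      rcases Nat.eq_zero_or_pos i with rfl | h0
      · exact Iff.rfl
      · rw [← ih h0 (by omega)]
        have e1 : w 0 ∈ F i ∧ w (i + 1) ∈ F i := by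
          rw [hFd]
          exact ⟨mem_tri.2 (Or.inl rfl), mem_tri.2 (Or.inr (Or.inr rfl))⟩
        have e2 : w 0 ∈ F (i + 1) ∧ w (i + 1) ∈ F (i + 1) := by
          rw [hFd]
          exact ⟨mem_tri.2 (Or.inl rfl), mem_tri.2 (Or.inr (Or.inl rfl))⟩
        constructor
        · intro hp
          by_contra hq
          exact hcon _ hp _ (hFR i h0 (by omega)) hq _ _ (hw0 (i + 1) (by omega) (by omega))
            e2.1 e2.2 e1.1 e1.2
        · intro hp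
          by_contra hq
          exact hcon _ hp _ (hFR (i + 1) (by omega) h2) hq _ _
            (hw0 (i + 1) (by omega) (by omega)) e1.1 e1.2 e2.1 e2.2
  have hst : ({v, w 0, w (0 + 1)} : Finset V) ∈ T ∧ v ∈ ({v, w 0, w (0 + 1)} : Finset V) :=
    (c.star _).2 ⟨0, by omega, rfl⟩
  obtain ⟨Q, hQd⟩ : ∃ Q : Finset (Finset V), Q =
      T.filter (fun t => (v ∉ t ∧ t ∈ P) ∨ (v ∈ t ∧ F 1 ∈ P)) := ⟨_, rfl⟩
  have hQ : ∀ t, t ∈ Q ↔ t ∈ T ∧ ((v ∉ t ∧ t ∈ P) ∨ (v ∈ t ∧ F 1 ∈ P)) := by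
    intro t
    rw [hQd, Finset.mem_filter]
  have hQT : Q ⊆ T := fun t ht => ((hQ t).1 ht).1
  have hQne : Q.Nonempty := by
    obtain ⟨s, hs⟩ := hne
    rcases mem_red.1 (hP hs) with ⟨hs1, hs2⟩ | ⟨i, hi1, hi2, rfl⟩
    · exact ⟨s, (hQ s).2 ⟨hs1, Or.inl ⟨hs2, hs⟩⟩⟩
    · have h4 : F i ∈ P := by
        rw [hFd]
        exact hs
      exact ⟨_, (hQ _).2 ⟨hst.1, Or.inr ⟨hst.2, (hF i hi1 hi2).1 h4⟩⟩⟩
  have hQne' : Q ≠ T := by
    intro h4
    obtain ⟨t, ht1, ht2⟩ : ∃ t ∈ red T v d w, t ∉ P := by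
      by_contra h5
      push Not at h5
      exact hP' (Finset.Subset.antisymm hP h5)
    rcases mem_red.1 ht1 with ⟨hs1, hs2⟩ | ⟨i, hi1, hi2, rfl⟩
    · rw [← h4] at hs1
      rcases ((hQ t).1 hs1).2 with h5 | h5
      · exact ht2 h5.2
      · exact hs2 h5.1
    · have h5 : F i ∉ P := by
        rw [hFd]
        exact ht2
      have h6 := hst.1
      rw [← h4] at h6
      rcases ((hQ _).1 h6).2 with h7 | h7
      · exact h7.1 hst.2
      · exact h5 ((hF i hi1 hi2).2 h7.2)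
  obtain ⟨s, hs, t, ht, htQ, a, b, hab, has, hbs, hat, hbt⟩ := h.dual Q hQT hQne hQne'
  have hsT := ((hQ s).1 hs).1
  have hsQ := ((hQ s).1 hs).2
  have hmem : ∀ u ∈ T, v ∈ u → a ∈ u → b ∈ u → a ≠ v → b ≠ v →
      ∃ j, 1 ≤ j ∧ j + 2 ≤ d ∧ a ∈ F j ∧ b ∈ F j := by
    intro u hu hvu hau hbu hav hbv
    obtain ⟨i, hi, rfl⟩ := (c.star u).1 ⟨hu, hvu⟩
    obtain ⟨j, hj1, hj2, hj3, hj4⟩ := rd_fan c hi
    refine ⟨j, hj1, hj2, ?_, ?_⟩
    · rw [hFd]
      rcases mem_tri.1 hau with h4 | h4 | h4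
      · exact absurd h4 hav
      · rw [h4]
        exact hj3
      · rw [h4]
        exact hj4
    · rw [hFd]
      rcases mem_tri.1 hbu with h4 | h4 | h4
      · exact absurd h4 hbv
      · rw [h4]
        exact hj3
      · rw [h4]
        exact hj4
  by_cases hvs : v ∈ s
  · have hF1 : F 1 ∈ P := by
      rcases hsQ with h4 | h4
      · exact absurd hvs h4.1
      · exact h4.2
    by_cases hvt : v ∈ t
    · exact htQ ((hQ t).2 ⟨ht, Or.inr ⟨hvt, hF1⟩⟩)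
    · have htP : t ∉ P := fun h4 => htQ ((hQ t).2 ⟨ht, Or.inl ⟨hvt, h4⟩⟩)
      have hav : a ≠ v := by
        rintro rfl
        exact hvt hat
      have hbv : b ≠ v := by
        rintro rfl
        exact hvt hbt
      obtain ⟨j, hj1, hj2, hj3, hj4⟩ := hmem s hsT hvs has hbs hav hbv
      exact hcon _ ((hF j hj1 hj2).2 hF1) t (mem_red.2 (Or.inl ⟨ht, hvt⟩)) htP a b hab hj3 hj4
        hat hbt
  · have hsP : s ∈ P := by
      rcases hsQ with h4 | h4
      · exact h4.2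
      · exact absurd h4.1 hvs
    by_cases hvt : v ∈ t
    · have hF1 : F 1 ∉ P := fun h4 => htQ ((hQ t).2 ⟨ht, Or.inr ⟨hvt, h4⟩⟩)
      have hav : a ≠ v := by
        rintro rfl
        exact hvs has
      have hbv : b ≠ v := by
        rintro rfl
        exact hvs hbs
      obtain ⟨j, hj1, hj2, hj3, hj4⟩ := hmem t ht hvt hat hbt hav hbv
      exact hcon s hsP _ (hFR j hj1 hj2) (fun h4 => hF1 ((hF j hj1 hj2).1 h4)) a b hab has hbs
        hj3 hj4
    · have htP : t ∉ P := fun h4 => htQ ((hQ t).2 ⟨ht, Or.inl ⟨hvt, h4⟩⟩)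
      exact hcon s hsP t (mem_red.2 (Or.inl ⟨ht, hvt⟩)) htP a b hab has hbs hat hbt

end Pool.Agent.Fary
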