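import Pool.Agent.Fary.RedE

/-!
# FARY-RedK (0.9h): no `K₅` minor after the reduction

PLAN.  Suppose `IsMinor ⊤ (gT (red T v d w))` with branch sets `B : Fin 5 → Set V`
(`Helper36/BL/Minor.lean`).  Facts: `v` has no neighbour in `gT (red ..)` (`vs_red`: `v` is in no member).
An edge `x y` of `gT (red ..)` is an edge of `gT T` or has `w 0 ∈ {x, y}` and the other end is a `w i`,
adjacent to `v` in `gT T` (a fan triangle `{w 0, w i, w (i+1)}`: the pair `w i, w (i+1)` is in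
`{v, w i, w (i+1)} ∈ T`).
1. `v ∉ B k` for all `k`: `B k` has a vertex `x` with an edge to another branch set (`k' ≠ k` exists in
   `Fin 5`), so `x ≠ v`; if also `v ∈ B k` then connectedness of `B k` gives a neighbour of `v`
   (a walk from `v` to `x ≠ v` has a first step), contradiction.
2. `B' k = B k` if `w 0 ∉ B k`, `B' k = insert v (B k)` if `w 0 ∈ B k`.  Disjoint, since `w 0` is in at most
   one `B k` and `v` in none.
3. `B' k` is connected in `gT T`: if `w 0 ∉ B k` the edges inside `B k` are edges of `gT T`.  If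
   `w 0 ∈ B k`: every edge `x y` inside `B k` is an edge of `gT T` or is replaced by the path `x, v, y`
   (`v` is adjacent to `w 0` and to `w i` in `gT T`); `v` is joined to `w 0`.
4. edges between `B' k` and `B' k'`: an edge `x y` of `gT (red ..)` with `x ∈ B k`, `y ∈ B k'` is an edge of
   `gT T`, or `x = w 0` and `v y` is an edge of `gT T` with `v ∈ B' k` (or symmetric).
So `IsMinor ⊤ (gT T)`, contradiction to `h.k5`.
-/

set_option autoImplicit false

namespace Pool.Agent.Fary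

open Finset
open Pool.Agent.Helper36.BL (K5Free IsMinor)

variable {V : Type} [DecidableEq V] {T : Finset (Finset V)}

private theorem rk_no {v : V} {d : ℕ} {w : ℕ → V} (c : Cor T v d w) (x : V) :
    ¬ (gT (red T v d w)).Adj x v := by
  rintro ⟨-, t, ht, -, hv⟩
  rcases mem_red.1 ht with ⟨-, h⟩ | ⟨i, h1, h2, rfl⟩
  · exact h hv
  · rcases mem_tri.1 hv with h | h | h
    · exact c.ne 0 (by omega) h.symm
    · exact c.ne i (by omega) h.symm
    · exact c.ne (i + 1) (by omega) h.symm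

private theorem rk_v {v : V} {d : ℕ} {w : ℕ → V} (c : Cor T v d w) {j : ℕ} (hj : j < d) :
    (gT T).Adj v (w j) := by
  obtain ⟨h, -⟩ := (c.star {v, w j, w (j + 1)}).2 ⟨j, hj, rfl⟩
  exact ⟨(c.ne j hj).symm, _, h, mem_tri.2 (Or.inl rfl), mem_tri.2 (Or.inr (Or.inl rfl))⟩

private theorem rk_adj {v : V} {d : ℕ} {w : ℕ → V} (c : Cor T v d w) {x y : V}
    (h : (gT (red T v d w)).Adj x y) :
    (gT T).Adj x y ∨ (x = w 0 ∧ (gT T).Adj v y) ∨ (y = w 0 ∧ (gT T).Adj v x) := by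
  obtain ⟨hne, t, ht, hx, hy⟩ := h
  rcases mem_red.1 ht with ⟨h1, -⟩ | ⟨i, h1, h2, rfl⟩
  · exact Or.inl ⟨hne, t, h1, hx, hy⟩
  · have hi : i < d := by omega
    have hi1 : i + 1 < d := by omega
    rcases mem_tri.1 hx with hx | hx | hx
    · rcases mem_tri.1 hy with hy | hy | hy
      · exact absurd (hx.trans hy.symm) hne
      · exact Or.inr (Or.inl ⟨hx, hy ▸ rk_v c hi⟩)
      · exact Or.inr (Or.inl ⟨hx, hy ▸ rk_v c hi1⟩)
    · rcases mem_tri.1 hy with hy | hy | hy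
      · exact Or.inr (Or.inr ⟨hy, hx ▸ rk_v c hi⟩)
      · exact absurd (hx.trans hy.symm) hne
      · obtain ⟨h3, -⟩ := (c.star {v, w i, w (i + 1)}).2 ⟨i, hi, rfl⟩
        exact Or.inl ⟨hne, _, h3, mem_tri.2 (Or.inr (Or.inl hx)), mem_tri.2 (Or.inr (Or.inr hy))⟩
    · rcases mem_tri.1 hy with hy | hy | hy
      · exact Or.inr (Or.inr ⟨hy, hx ▸ rk_v c hi1⟩)
      · obtain ⟨h3, -⟩ := (c.star {v, w i, w (i + 1)}).2 ⟨i, hi, rfl⟩
        exact Or.inl ⟨hne, _, h3, mem_tri.2 (Or.inr (Or.inr hx)), mem_tri.2 (Or.inr (Or.inl hy))⟩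
      · exact absurd (hx.trans hy.symm) hne

theorem red_k5 (h : Tr T) {v : V} {d : ℕ} {w : ℕ → V} (c : Cor T v d w) :
    K5Free (gT (red T v d w)) := by
  have hd : 0 < d := by have := c.three_le; omega
  have hv0 : (gT T).Adj v (w 0) := rk_v c hd
  rintro ⟨B, hB1, hB2, hB3⟩
  apply h.k5
  have hvB : ∀ k, v ∉ B k := by
    intro k hvk
    obtain ⟨k', hk'⟩ : ∃ k' : Fin 5, k ≠ k' := by
      by_cases hk : k = 0
      · exact ⟨1, by rw [hk]; decide⟩
      · exact ⟨0, hk⟩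
    obtain ⟨a, ha, b, hb, hab⟩ := hB3 k k' ((SimpleGraph.top_adj _ _).2 hk')
    have hav : a ≠ v := by
      rintro rfl
      exact rk_no c b hab.symm
    obtain ⟨p⟩ := (hB1 k).preconnected ⟨v, hvk⟩ ⟨a, ha⟩
    cases p with
    | nil => exact hav rfl
    | cons h1 p =>
      have h2 := SimpleGraph.induce_adj.1 h1
      exact rk_no c _ h2.symm
  have hsub : ∀ k, B k ⊆ {x | x ∈ B k ∨ (x = v ∧ w 0 ∈ B k)} := fun k x hx => Or.inl hx
  refine ⟨fun k => {x | x ∈ B k ∨ (x = v ∧ w 0 ∈ B k)}, ?_, ?_, ?_⟩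
  · intro k
    have hwalk : ∀ (x y : B k), ((gT (red T v d w)).induce (B k)).Walk x y →
        ((gT T).induce {x | x ∈ B k ∨ (x = v ∧ w 0 ∈ B k)}).Reachable
          ⟨x, hsub k x.2⟩ ⟨y, hsub k y.2⟩ := by
      intro x y p
      induction p with
      | nil => exact SimpleGraph.Reachable.refl _
      | @cons x y z hxy p ih =>
        refine SimpleGraph.Reachable.trans ?_ ih
        have hxy' := SimpleGraph.induce_adj.1 hxy
        rcases rk_adj c hxy' with h1 | ⟨h1, h2⟩ | ⟨h1, h2⟩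
        · exact SimpleGraph.Adj.reachable (SimpleGraph.induce_adj.2 h1)
        · have hw : w 0 ∈ B k := h1 ▸ x.2
          have hv' : v ∈ {x | x ∈ B k ∨ (x = v ∧ w 0 ∈ B k)} := Or.inr ⟨rfl, hw⟩
          have e1 : ((gT T).induce {x | x ∈ B k ∨ (x = v ∧ w 0 ∈ B k)}).Adj
              ⟨x, hsub k x.2⟩ ⟨v, hv'⟩ := by
            refine SimpleGraph.induce_adj.2 ?_
            show (gT T).Adj x v
            rw [h1]
            exact hv0.symm
          have e2 : ((gT T).induce {x | x ∈ B k ∨ (x = v ∧ w 0 ∈ B k)}).Adj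
              ⟨v, hv'⟩ ⟨y, hsub k y.2⟩ := SimpleGraph.induce_adj.2 h2
          exact e1.reachable.trans e2.reachable
        · have hw : w 0 ∈ B k := h1 ▸ y.2
          have hv' : v ∈ {x | x ∈ B k ∨ (x = v ∧ w 0 ∈ B k)} := Or.inr ⟨rfl, hw⟩
          have e1 : ((gT T).induce {x | x ∈ B k ∨ (x = v ∧ w 0 ∈ B k)}).Adj
              ⟨v, hv'⟩ ⟨y, hsub k y.2⟩ := by
            refine SimpleGraph.induce_adj.2 ?_
            show (gT T).Adj v y
            rw [h1]
            exact hv0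
          have e2 : ((gT T).induce {x | x ∈ B k ∨ (x = v ∧ w 0 ∈ B k)}).Adj
              ⟨x, hsub k x.2⟩ ⟨v, hv'⟩ := SimpleGraph.induce_adj.2 h2.symm
          exact e2.reachable.trans e1.reachable
    obtain ⟨⟨x0, hx0⟩⟩ := (hB1 k).nonempty
    have key : ∀ x : {x // x ∈ {x | x ∈ B k ∨ (x = v ∧ w 0 ∈ B k)}},
        ((gT T).induce {x | x ∈ B k ∨ (x = v ∧ w 0 ∈ B k)}).Reachable ⟨x0, hsub k hx0⟩ x := by
      rintro ⟨x, hx | ⟨rfl, hw⟩⟩
      · obtain ⟨p⟩ := (hB1 k).preconnected ⟨x0, hx0⟩ ⟨x, hx⟩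
        exact hwalk _ _ p
      · obtain ⟨p⟩ := (hB1 k).preconnected ⟨x0, hx0⟩ ⟨w 0, hw⟩
        refine (hwalk _ _ p).trans (SimpleGraph.Adj.reachable (SimpleGraph.induce_adj.2 ?_))
        exact hv0.symm
    exact { preconnected := fun x y => (key x).symm.trans (key y), nonempty := ⟨⟨x0, hsub k hx0⟩⟩ }
  · intro k k' hkk
    rw [Set.disjoint_left]
    rintro x (hx | ⟨rfl, hw⟩) (hx' | ⟨hx', hw'⟩)
    · exact Set.disjoint_left.1 (hB2 k k' hkk) hx hx'
    · exact hvB k (hx' ▸ hx)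
    · exact hvB k' hx'
    · exact Set.disjoint_left.1 (hB2 k k' hkk) hw hw'
  · intro k k' hadj
    obtain ⟨a, ha, b, hb, hab⟩ := hB3 k k' hadj
    rcases rk_adj c hab with h1 | ⟨h1, h2⟩ | ⟨h1, h2⟩
    · exact ⟨a, Or.inl ha, b, Or.inl hb, h1⟩
    · exact ⟨v, Or.inr ⟨rfl, h1 ▸ ha⟩, b, Or.inl hb, h2⟩
    · exact ⟨a, Or.inl ha, v, Or.inr ⟨rfl, h1 ▸ hb⟩, h2.symm⟩

end Pool.Agent.Fary
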