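import Pool.Agent.Fary.Cor34
import Pool.Agent.Fary.Cor5
import Pool.Agent.Fary.Red2
import Pool.Agent.Fary.RedD
import Pool.Agent.Fary.RedK
import Pool.Agent.Fary.ExtB
import Pool.Agent.Fary.Base

/-!
# FARY-Ind: every triangulation has a good placement
-/

set_option autoImplicit false

namespace Pool.Agent.Fary

open Finset

variable {V : Type} [DecidableEq V] {T : Finset (Finset V)}

theorem red_Tr (h : Tr T) {v : V} {d : ℕ} {w : ℕ → V} (c : Cor T v d w) : Tr (red T v d w) := by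
  have hv : v ∈ vs T := by
    have h1 := (c.star {v, w 0, w (0 + 1)}).2 ⟨0, by have := c.three_le; omega, rfl⟩
    exact mem_vs.2 ⟨_, h1.1, h1.2⟩
  refine { toTri2 := red_tri2 h.toTri2 c, dual := red_dual h c, euler := ?_, k5 := red_k5 h c }
  have h1 := red_card c
  have h2 := h.euler
  rw [vs_red c, card_erase_of_mem hv]
  have h3 : 0 < (vs T).card := card_pos.2 ⟨v, hv⟩
  omega

theorem exists_cor (h : Tr T) (hn : 5 ≤ (vs T).card) {v : V} (h3 : 3 ≤ dg T v)
    (h5 : dg T v ≤ 5) : ∃ (d : ℕ) (w : ℕ → V), Cor T v d w := by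
  rcases Nat.lt_or_ge (dg T v) 4 with h6 | h6
  · exact ⟨3, cor3 h hn (by omega)⟩
  · rcases Nat.lt_or_ge (dg T v) 5 with h7 | h7
    · exact ⟨4, cor4 h (by omega)⟩
    · exact ⟨5, cor5 h (by omega)⟩

theorem exists_good : ∀ (n : ℕ) (T : Finset (Finset V)) (T0 : Finset V), Tr T → T0 ∈ T →
    (vs T).card = n + 4 → ∃ f : V → ℝ × ℝ, Good f T T0 := by
  intro n
  induction n with
  | zero =>
    intro T T0 h h0 hn
    exact base h.toTri2 hn h0
  | succ n ih =>
    intro T T0 h h0 hn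
    obtain ⟨v, hv, hv0, h3, h5⟩ := exists_deg h h0
    obtain ⟨d, w, c⟩ := exists_cor h (by omega) h3 h5
    obtain ⟨f, g⟩ := ih (red T v d w) T0 (red_Tr h c) (mem_red.2 (Or.inl ⟨h0, hv0⟩)) (by
      rw [vs_red c, card_erase_of_mem hv, hn]; rfl)
    obtain ⟨p, s, hp1, hp2, hp3⟩ := ext_point h.toTri2 c h0 g
    exact ⟨_, ext_good h.toTri2 c h0 hv0 g hp1 hp2 hp3⟩

end Pool.Agent.Fary
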