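import Pool.Agent.Fary.Deg

/-!
# FARY-Link: the link of a vertex of degree 3, 4, 5 is a cycle

A path of triangles at `v` is extended until it closes (`exists_cycle`); the vertices of the cycle are closed
under taking triangles at `v`, and another triangle at `v` would force three more triangles (`out3`).
-/

set_option autoImplicit false

namespace Pool.Agent.Fary

open Finset

variable {V : Type} [DecidableEq V] {T : Finset (Finset V)}

private theorem path_ext (h : Tri2 T) {v : V} {w : ℕ → V} {j : ℕ} (hj : 1 ≤ j)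
    (hT : ∀ i < j, ({v, w i, w (i + 1)} : Finset V) ∈ T)
    (hinj : ∀ i i', i ≤ j → i' ≤ j → w i = w i' → i = i') :
    ∃ y, ({v, w j, y} : Finset V) ∈ T ∧ ((y = w 0 ∧ 2 ≤ j) ∨ ∀ i ≤ j, y ≠ w i) := by
  have h1 : ({v, w j, w (j - 1)} : Finset V) ∈ T := by
    have h2 := hT (j - 1) (by omega)
    rw [show j - 1 + 1 = j by omega] at h2
    rwa [tri_swap']
  obtain ⟨y, hy, hyT⟩ := h.other h1
  refine ⟨y, hyT, ?_⟩
  by_contra hcon
  push Not at hcon
  obtain ⟨hc, i, hij, hi⟩ := hcon
  obtain ⟨n1, n2, n3⟩ := h.ne hyT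
  have hij' : i ≠ j := by
    rintro rfl
    exact n3 hi.symm
  have hij2 : i ≠ j - 1 := by
    rintro rfl
    exact hy hi
  by_cases h0 : i = 0
  · subst h0
    have := hc hi
    omega
  · have h3 : ({v, w i, w (i - 1)} : Finset V) ∈ T := by
      have h2 := hT (i - 1) (by omega)
      rw [show i - 1 + 1 = i by omega] at h2
      rwa [tri_swap']
    have h4 : ({v, w i, w (i + 1)} : Finset V) ∈ T := hT i (by omega)
    have h5 : ({v, w i, w j} : Finset V) ∈ T := by
      rw [hi] at hyT
      rwa [tri_swap']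
    have h6 : w (i - 1) ≠ w (i + 1) := by
      intro h7
      have := hinj _ _ (by omega) (by omega) h7
      omega
    rcases h.third h3 h4 h6 h5 with h7 | h7
    · have := hinj _ _ (by omega) (by omega) h7
      omega
    · have := hinj _ _ (by omega) (by omega) h7
      omega

/-- the vertices of a path are not `v` -/
private theorem path_ne (h : Tri2 T) {v : V} {w : ℕ → V} {j : ℕ}
    (hT : ∀ i < j, ({v, w i, w (i + 1)} : Finset V) ∈ T) {i : ℕ} (hi : i < j) :
    w i ≠ v ∧ w (i + 1) ≠ v := by
  obtain ⟨n1, n2, -⟩ := h.ne (hT i hi)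
  exact ⟨n1.symm, n2.symm⟩

private theorem path_card (h : Tri2 T) {v : V} {w : ℕ → V} {j : ℕ}
    (hT : ∀ i < j, ({v, w i, w (i + 1)} : Finset V) ∈ T)
    (hinj : ∀ i i', i ≤ j → i' ≤ j → w i = w i' → i = i') : j ≤ dg T v := by
  have h1 : ((range j).image (fun i => ({v, w i, w (i + 1)} : Finset V))).card = j := by
    rw [card_image_of_injOn, card_range]
    have key : ∀ i i' : ℕ, i < i' → i' < j →
        ({v, w i, w (i + 1)} : Finset V) ≠ {v, w i', w (i' + 1)} := by
      intro i i' h1 h2 h3
      have h4 : w i ∈ ({v, w i', w (i' + 1)} : Finset V) := by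
        rw [← h3]
        exact mem_tri.2 (Or.inr (Or.inl rfl))
      rcases mem_tri.1 h4 with h5 | h5 | h5
      · exact (path_ne h hT (by omega : i < j)).1 h5
      · have := hinj _ _ (by omega) (by omega) h5
        omega
      · have := hinj _ _ (by omega) (by omega) h5
        omega
    intro i hi i' hi' h2
    rw [coe_range, Set.mem_Iio] at hi hi'
    dsimp only at h2
    rcases lt_trichotomy i i' with h3 | h3 | h3
    · exact absurd h2 (key i i' h3 hi')
    · exact h3
    · exact absurd h2.symm (key i' i h3 hi)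
  have h2 : (range j).image (fun i => ({v, w i, w (i + 1)} : Finset V)) ⊆
      T.filter (fun t => v ∈ t) := by
    intro t ht
    obtain ⟨i, hi, rfl⟩ := mem_image.1 ht
    exact mem_filter.2 ⟨hT i (mem_range.1 hi), by simp⟩
  have h3 := card_le_card h2
  unfold dg
  omega

/-- a closed chain of triangles at `v` -/
private structure Cyc (T : Finset (Finset V)) (v : V) (m : ℕ) (w : ℕ → V) : Prop where
  three : 3 ≤ m
  per : w m = w 0
  inj : ∀ i i', i < m → i' < m → w i = w i' → i = i'
  mem : ∀ i < m, ({v, w i, w (i + 1)} : Finset V) ∈ T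

private theorem exists_cycle (h : Tri2 T) {v : V} : ∀ (n j : ℕ) (w : ℕ → V), 1 ≤ j →
    dg T v ≤ j + n → (∀ i < j, ({v, w i, w (i + 1)} : Finset V) ∈ T) →
    (∀ i i', i ≤ j → i' ≤ j → w i = w i' → i = i') → ∃ m w', Cyc T v m w' := by
  intro n
  induction n with
  | zero =>
    intro j w hj hd hT hinj
    obtain ⟨y, hyT, hy⟩ := path_ext h hj hT hinj
    rcases hy with ⟨hy, hj2⟩ | hy
    · refine ⟨j + 1, fun i => if i ≤ j then w i else w 0, by omega, ?_, ?_, ?_⟩
      · simp
      · intro i i' hi hi' h1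
        rw [if_pos (by omega), if_pos (by omega)] at h1
        exact hinj _ _ (by omega) (by omega) h1
      · intro i hi
        rw [if_pos (by omega)]
        by_cases h2 : i + 1 ≤ j
        · rw [if_pos h2]
          exact hT i (by omega)
        · rw [if_neg h2, show i = j by omega, ← hy]
          exact hyT
    · exfalso
      have h1 : j + 1 ≤ dg T v := by
        apply path_card h (w := Function.update w (j + 1) y)
        · intro i hi
          rw [Function.update_of_ne (by omega)]
          by_cases h2 : i = j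
          · subst h2
            rw [Function.update_self]
            exact hyT
          · rw [Function.update_of_ne (by omega)]
            exact hT i (by omega)
        · intro i i' hi hi' h2
          by_cases h3 : i = j + 1 <;> by_cases h4 : i' = j + 1
          · omega
          · rw [h3, Function.update_self, Function.update_of_ne h4] at h2
            exact absurd h2 (hy i' (by omega))
          · rw [h4, Function.update_self, Function.update_of_ne h3] at h2
            exact absurd h2.symm (hy i (by omega))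
          · rw [Function.update_of_ne h3, Function.update_of_ne h4] at h2
            exact hinj _ _ (by omega) (by omega) h2
      omega
  | succ n ih =>
    intro j w hj hd hT hinj
    obtain ⟨y, hyT, hy⟩ := path_ext h hj hT hinj
    rcases hy with ⟨hy, hj2⟩ | hy
    · refine ⟨j + 1, fun i => if i ≤ j then w i else w 0, by omega, ?_, ?_, ?_⟩
      · simp
      · intro i i' hi hi' h1
        rw [if_pos (by omega), if_pos (by omega)] at h1
        exact hinj _ _ (by omega) (by omega) h1
      · intro i hi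
        rw [if_pos (by omega)]
        by_cases h2 : i + 1 ≤ j
        · rw [if_pos h2]
          exact hT i (by omega)
        · rw [if_neg h2, show i = j by omega, ← hy]
          exact hyT
    · apply ih (j + 1) (Function.update w (j + 1) y) (by omega) (by omega)
      · intro i hi
        rw [Function.update_of_ne (by omega)]
        by_cases h2 : i = j
        · subst h2
          rw [Function.update_self]
          exact hyT
        · rw [Function.update_of_ne (by omega)]
          exact hT i (by omega)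
      · intro i i' hi hi' h2
        by_cases h3 : i = j + 1 <;> by_cases h4 : i' = j + 1
        · omega
        · rw [h3, Function.update_self, Function.update_of_ne h4] at h2
          exact absurd h2 (hy i' (by omega))
        · rw [h4, Function.update_self, Function.update_of_ne h3] at h2
          exact absurd h2.symm (hy i (by omega))
        · rw [Function.update_of_ne h3, Function.update_of_ne h4] at h2
          exact hinj _ _ (by omega) (by omega) h2

/-- a closed set of vertices with `S0.card` triangles at `v`: a further triangle forces three -/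
private theorem out3 (h : Tri2 T) {v : V} (P : Finset V)
    (hP : ∀ x ∈ P, ∀ y, ({v, x, y} : Finset V) ∈ T → y ∈ P) (S0 : Finset (Finset V))
    (hS0 : ∀ t ∈ S0, t ∈ T ∧ v ∈ t ∧ t ⊆ insert v P) (hd : dg T v < S0.card + 3) :
    ∀ t ∈ T, v ∈ t → ∃ x ∈ P, ∃ y ∈ P, t = {v, x, y} := by
  intro t ht hvt
  have hcard := h.three t ht
  obtain ⟨p, hp, hpv⟩ : ∃ a ∈ t, a ≠ v := exists_mem_ne (by omega) v
  obtain ⟨q, rfl⟩ := h.exists_third ht hvt hp hpv.symm
  by_cases hpP : p ∈ P
  · exact ⟨p, hpP, q, hP p hpP q ht, rfl⟩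
  exfalso
  have ht' : ({v, q, p} : Finset V) ∈ T := by rwa [tri_swap']
  have hqP : q ∉ P := fun hq => hpP (hP q hq p ht')
  obtain ⟨nvp, nvq, npq⟩ := h.ne ht
  obtain ⟨r, hrp, hr⟩ := h.other ht'
  obtain ⟨s, hsq, hs⟩ := h.other ht
  have hout : ∀ (x : V) (u : Finset V), x ∉ P → x ≠ v → x ∈ u → u ∉ S0 := by
    intro x u hx hxv hxu hu
    have h1 := (hS0 u hu).2.2 hxu
    rw [mem_insert] at h1
    rcases h1 with h1 | h1
    · exact hxv h1
    · exact hx h1
  have hdis : Disjoint S0 ({{v, p, q}, {v, q, r}, {v, p, s}} : Finset (Finset V)) := by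
    rw [disjoint_left]
    intro u hu hu'
    rw [mem_insert, mem_insert, mem_singleton] at hu'
    rcases hu' with rfl | rfl | rfl
    · exact hout p _ hpP hpv (by simp) hu
    · exact hout q _ hqP nvq.symm (by simp) hu
    · exact hout p _ hpP hpv (by simp) hu
  have hc3 : ({{v, p, q}, {v, q, r}, {v, p, s}} : Finset (Finset V)).card = 3 := by
    rw [card_eq_three]
    refine ⟨_, _, _, ?_, ?_, ?_, rfl⟩
    · intro h8
      rw [tri_swap' v p q] at h8
      exact hrp (eq_of_tri h8 hpv npq).symm
    · intro h8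
      exact hsq (eq_of_tri h8 nvq.symm npq.symm).symm
    · intro h8
      have h9 : q ∈ ({v, p, s} : Finset V) := by
        rw [← h8]
        exact mem_tri.2 (Or.inr (Or.inl rfl))
      rcases mem_tri.1 h9 with h10 | h10 | h10
      · exact nvq h10.symm
      · exact npq h10.symm
      · exact hsq h10.symm
  have hsub : S0 ∪ {{v, p, q}, {v, q, r}, {v, p, s}} ⊆ T.filter (fun t => v ∈ t) := by
    intro u hu
    rw [mem_union, mem_insert, mem_insert, mem_singleton] at hu
    rcases hu with hu | rfl | rfl | rfl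
    · exact mem_filter.2 ⟨(hS0 u hu).1, (hS0 u hu).2.1⟩
    · exact mem_filter.2 ⟨ht, by simp⟩
    · exact mem_filter.2 ⟨hr, by simp⟩
    · exact mem_filter.2 ⟨hs, by simp⟩
  have h1 := card_le_card hsub
  rw [card_union_of_disjoint hdis, hc3] at h1
  unfold dg at hd
  omega

private theorem link_gen (h : Tri2 T) {v : V} (hd1 : 0 < dg T v) (hd : dg T v ≤ 5) :
    ∃ w : ℕ → V, w (dg T v) = w 0 ∧ (∀ i i', i < dg T v → i' < dg T v → w i = w i' → i = i') ∧
      (∀ i < dg T v, w i ≠ v) ∧
      ∀ t, (t ∈ T ∧ v ∈ t) ↔ ∃ i < dg T v, t = {v, w i, w (i + 1)} := by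
  -- a first triangle
  obtain ⟨t0, ht0⟩ := card_pos.1 hd1
  rw [mem_filter] at ht0
  obtain ⟨ht0, hv0⟩ := ht0
  have hcard := h.three t0 ht0
  obtain ⟨a, ha, hav⟩ : ∃ a ∈ t0, a ≠ v := exists_mem_ne (by omega) v
  obtain ⟨b, rfl⟩ := h.exists_third ht0 hv0 ha hav.symm
  obtain ⟨nva, nvb, nab⟩ := h.ne ht0
  obtain ⟨m, w, hc⟩ := exists_cycle h (v := v) (dg T v) 1 (fun i => if i = 0 then a else b) le_rfl
    (by omega) (by
      intro i hi
      have h0 : i = 0 := by omega
      subst h0
      simpa using ht0) (by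
      intro i i' hi hi' h1
      by_cases h2 : i = 0 <;> by_cases h3 : i' = 0
      · omega
      · rw [if_pos h2, if_neg h3] at h1
        exact absurd h1 nab
      · rw [if_neg h2, if_pos h3] at h1
        exact absurd h1.symm nab
      · omega)
  have hm3 := hc.three
  have hne : ∀ i < m, w i ≠ v := fun i hi => (path_ne h hc.mem hi).1
  -- the two neighbours of `w i`
  have hnb : ∀ i < m, ∀ y, ({v, w i, y} : Finset V) ∈ T →
      (∃ i' < m, ({v, w i, y} : Finset V) = {v, w i', w (i' + 1)}) ∧ ∃ i' < m, y = w i' := by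
    intro i hi y hy
    by_cases h0 : i = 0
    · subst h0
      have h1 := hc.mem 0 (by omega)
      have h2 : ({v, w 0, w (m - 1)} : Finset V) ∈ T := by
        have h3 := hc.mem (m - 1) (by omega)
        rw [show m - 1 + 1 = m by omega, hc.per] at h3
        rwa [tri_swap']
      have h3 : w (0 + 1) ≠ w (m - 1) := by
        intro h4
        have := hc.inj _ _ (by omega) (by omega) h4
        omega
      rcases h.third h1 h2 h3 hy with h4 | h4
      · exact ⟨⟨0, by omega, by rw [h4]⟩, 0 + 1, by omega, h4⟩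
      · refine ⟨⟨m - 1, by omega, ?_⟩, m - 1, by omega, h4⟩
        rw [h4, show m - 1 + 1 = m by omega, hc.per, tri_swap']
    · have h1 := hc.mem i hi
      have h2 : ({v, w i, w (i - 1)} : Finset V) ∈ T := by
        have h3 := hc.mem (i - 1) (by omega)
        rw [show i - 1 + 1 = i by omega] at h3
        rwa [tri_swap']
      have h3 : w (i + 1) ≠ w (i - 1) := by
        intro h4
        by_cases h5 : i + 1 = m
        · rw [h5, hc.per] at h4
          have := hc.inj _ _ (by omega) (by omega) h4
          omega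
        · have := hc.inj _ _ (by omega) (by omega) h4
          omega
      rcases h.third h1 h2 h3 hy with h4 | h4
      · refine ⟨⟨i, hi, by rw [h4]⟩, ?_⟩
        by_cases h5 : i + 1 = m
        · exact ⟨0, by omega, by rw [h4, h5, hc.per]⟩
        · exact ⟨i + 1, by omega, h4⟩
      · refine ⟨⟨i - 1, by omega, ?_⟩, i - 1, by omega, h4⟩
        rw [h4, show i - 1 + 1 = i by omega, tri_swap']
  -- the triangles of the cycle
  obtain ⟨S0, hS0⟩ : ∃ S0 : Finset (Finset V),
      S0 = (range m).image (fun i => ({v, w i, w (i + 1)} : Finset V)) := ⟨_, rfl⟩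
  have hS0c : S0.card = m := by
    rw [hS0, card_image_of_injOn, card_range]
    have key : ∀ i i' : ℕ, i < i' → i' < m →
        ({v, w i, w (i + 1)} : Finset V) ≠ {v, w i', w (i' + 1)} := by
      intro i i' h1 h2 h3
      have h4 : w i ∈ ({v, w i', w (i' + 1)} : Finset V) := by
        rw [← h3]
        exact mem_tri.2 (Or.inr (Or.inl rfl))
      rcases mem_tri.1 h4 with h5 | h5 | h5
      · exact hne i (by omega) h5
      · have := hc.inj _ _ (by omega) (by omega) h5
        omega
      · by_cases h6 : i' + 1 = m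
        · rw [h6, hc.per] at h5
          have h7 := hc.inj _ _ (by omega) (by omega) h5
          subst h7
          have h8 : w (0 + 1) ∈ ({v, w i', w (i' + 1)} : Finset V) := by
            rw [← h3]
            exact mem_tri.2 (Or.inr (Or.inr rfl))
          rcases mem_tri.1 h8 with h9 | h9 | h9
          · exact hne _ (by omega) h9
          · have := hc.inj _ _ (by omega) (by omega) h9
            omega
          · rw [h6, hc.per] at h9
            have := hc.inj _ _ (by omega) (by omega) h9
            omega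
        · have := hc.inj _ _ (by omega) (by omega) h5
          omega
    intro i hi i' hi' h2
    rw [coe_range, Set.mem_Iio] at hi hi'
    dsimp only at h2
    rcases lt_trichotomy i i' with h3 | h3 | h3
    · exact absurd h2 (key i i' h3 hi')
    · exact h3
    · exact absurd h2.symm (key i' i h3 hi)
  have hsub : S0 ⊆ T.filter (fun t => v ∈ t) := by
    intro t ht
    rw [hS0] at ht
    obtain ⟨i, hi, rfl⟩ := mem_image.1 ht
    exact mem_filter.2 ⟨hc.mem i (mem_range.1 hi), by simp⟩
  have hall := out3 h ((range m).image w) (by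
      intro x hx y hy
      obtain ⟨i, hi, rfl⟩ := mem_image.1 hx
      obtain ⟨-, i', hi', rfl⟩ := hnb i (mem_range.1 hi) y hy
      exact mem_image.2 ⟨i', mem_range.2 hi', rfl⟩) S0 (by
      intro t ht
      have h1 := mem_filter.1 (hsub ht)
      refine ⟨h1.1, h1.2, ?_⟩
      rw [hS0] at ht
      obtain ⟨i, hi, rfl⟩ := mem_image.1 ht
      rw [mem_range] at hi
      intro x hx
      rw [mem_insert, mem_image]
      rcases mem_tri.1 hx with h2 | h2 | h2
      · exact Or.inl h2
      · exact Or.inr ⟨i, mem_range.2 hi, h2.symm⟩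
      · by_cases h5 : i + 1 = m
        · rw [h5, hc.per] at h2
          exact Or.inr ⟨0, mem_range.2 (by omega), h2.symm⟩
        · exact Or.inr ⟨i + 1, mem_range.2 (by omega), h2.symm⟩) (by omega)
  have hiff : ∀ t, (t ∈ T ∧ v ∈ t) ↔ ∃ i < m, t = {v, w i, w (i + 1)} := by
    intro t
    constructor
    · rintro ⟨h1, h2⟩
      obtain ⟨x, hx, y, hy, rfl⟩ := hall t h1 h2
      obtain ⟨i, hi, rfl⟩ := mem_image.1 hx
      exact (hnb i (mem_range.1 hi) y h1).1
    · rintro ⟨i, hi, rfl⟩
      exact ⟨hc.mem i hi, by simp⟩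
  have hdm : dg T v = m := by
    unfold dg
    rw [← hS0c]
    congr 1
    apply Subset.antisymm _ hsub
    intro t ht
    obtain ⟨i, hi, h1⟩ := (hiff t).1 (mem_filter.1 ht)
    rw [hS0]
    exact mem_image.2 ⟨i, mem_range.2 hi, h1.symm⟩
  rw [hdm]
  exact ⟨w, hc.per, hc.inj, hne, hiff⟩

theorem link3 (h : Tri2 T) {v : V} (hd : dg T v = 3) :
    ∃ a b c : V, [v, a, b, c].Nodup ∧
      ∀ t, (t ∈ T ∧ v ∈ t) ↔ (t = {v, a, b} ∨ t = {v, b, c} ∨ t = {v, c, a}) := by
  obtain ⟨w, h1, h2, h3, h4⟩ := link_gen h (v := v) (by omega) (by omega)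
  rw [hd] at h1 h2 h3 h4
  refine ⟨w 0, w 1, w 2, ?_, fun t => ?_⟩
  · have n0 := h3 0 (by norm_num)
    have n1 := h3 1 (by norm_num)
    have n2 := h3 2 (by norm_num)
    have k : ∀ i i' : ℕ, i < 3 → i' < 3 → i ≠ i' → w i ≠ w i' :=
      fun i i' a b c e => c (h2 i i' a b e)
    simp only [List.nodup_cons, List.mem_cons, List.not_mem_nil, or_false, not_or,
      not_false_eq_true, List.nodup_nil, and_true]
    refine ⟨⟨n0.symm, n1.symm, n2.symm⟩, ⟨?_, ?_⟩, ?_⟩ <;> apply k <;> norm_num
  · rw [h4 t]
    constructor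
    · rintro ⟨i, hi, rfl⟩
      interval_cases i
      · exact Or.inl rfl
      · exact Or.inr (Or.inl rfl)
      · refine Or.inr (Or.inr ?_)
        rw [h1]
    · rintro (rfl | rfl | rfl)
      · exact ⟨0, by norm_num, rfl⟩
      · exact ⟨1, by norm_num, rfl⟩
      · exact ⟨2, by norm_num, by rw [h1]⟩

theorem link4 (h : Tri2 T) {v : V} (hd : dg T v = 4) :
    ∃ a b c e : V, [v, a, b, c, e].Nodup ∧
      ∀ t, (t ∈ T ∧ v ∈ t) ↔ (t = {v, a, b} ∨ t = {v, b, c} ∨ t = {v, c, e} ∨ t = {v, e, a}) := by
  obtain ⟨w, h1, h2, h3, h4⟩ := link_gen h (v := v) (by omega) (by omega)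
  rw [hd] at h1 h2 h3 h4
  refine ⟨w 0, w 1, w 2, w 3, ?_, fun t => ?_⟩
  · have n0 := h3 0 (by norm_num)
    have n1 := h3 1 (by norm_num)
    have n2 := h3 2 (by norm_num)
    have n3 := h3 3 (by norm_num)
    have k : ∀ i i' : ℕ, i < 4 → i' < 4 → i ≠ i' → w i ≠ w i' :=
      fun i i' a b c e => c (h2 i i' a b e)
    simp only [List.nodup_cons, List.mem_cons, List.not_mem_nil, or_false, not_or,
      not_false_eq_true, List.nodup_nil, and_true]
    refine ⟨⟨n0.symm, n1.symm, n2.symm, n3.symm⟩, ⟨?_, ?_, ?_⟩, ⟨?_, ?_⟩, ?_⟩ <;> apply k <;>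
      norm_num
  · rw [h4 t]
    constructor
    · rintro ⟨i, hi, rfl⟩
      interval_cases i
      · exact Or.inl rfl
      · exact Or.inr (Or.inl rfl)
      · exact Or.inr (Or.inr (Or.inl rfl))
      · refine Or.inr (Or.inr (Or.inr ?_))
        rw [h1]
    · rintro (rfl | rfl | rfl | rfl)
      · exact ⟨0, by norm_num, rfl⟩
      · exact ⟨1, by norm_num, rfl⟩
      · exact ⟨2, by norm_num, rfl⟩
      · exact ⟨3, by norm_num, by rw [h1]⟩

theorem link5 (h : Tri2 T) {v : V} (hd : dg T v = 5) :
    ∃ a b c e g : V, [v, a, b, c, e, g].Nodup ∧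
      ∀ t, (t ∈ T ∧ v ∈ t) ↔ (t = {v, a, b} ∨ t = {v, b, c} ∨ t = {v, c, e} ∨ t = {v, e, g} ∨
        t = {v, g, a}) := by
  obtain ⟨w, h1, h2, h3, h4⟩ := link_gen h (v := v) (by omega) (by omega)
  rw [hd] at h1 h2 h3 h4
  refine ⟨w 0, w 1, w 2, w 3, w 4, ?_, fun t => ?_⟩
  · have n0 := h3 0 (by norm_num)
    have n1 := h3 1 (by norm_num)
    have n2 := h3 2 (by norm_num)
    have n3 := h3 3 (by norm_num)
    have n4 := h3 4 (by norm_num)
    have k : ∀ i i' : ℕ, i < 5 → i' < 5 → i ≠ i' → w i ≠ w i' :=
      fun i i' a b c e => c (h2 i i' a b e)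
    simp only [List.nodup_cons, List.mem_cons, List.not_mem_nil, or_false, not_or,
      not_false_eq_true, List.nodup_nil, and_true]
    refine ⟨⟨n0.symm, n1.symm, n2.symm, n3.symm, n4.symm⟩, ⟨?_, ?_, ?_, ?_⟩, ⟨?_, ?_, ?_⟩,
      ⟨?_, ?_⟩, ?_⟩ <;> apply k <;> norm_num
  · rw [h4 t]
    constructor
    · rintro ⟨i, hi, rfl⟩
      interval_cases i
      · exact Or.inl rfl
      · exact Or.inr (Or.inl rfl)
      · exact Or.inr (Or.inr (Or.inl rfl))
      · exact Or.inr (Or.inr (Or.inr (Or.inl rfl)))
      · refine Or.inr (Or.inr (Or.inr (Or.inr ?_)))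
        rw [h1]
    · rintro (rfl | rfl | rfl | rfl | rfl)
      · exact ⟨0, by norm_num, rfl⟩
      · exact ⟨1, by norm_num, rfl⟩
      · exact ⟨2, by norm_num, rfl⟩
      · exact ⟨3, by norm_num, rfl⟩
      · exact ⟨4, by norm_num, by rw [h1]⟩

end Pool.Agent.Fary
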