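import Pool.Agent.Fary.Bas
import Pool.Agent.SB.CFace

/-!
# FARY-MkA (1.0h): the vertex set of a triangular face

PLAN.  `D.len f = 3` for all `f`.
* `tv_card`: `tv D f` is the image of `ZMod (len f)` under the injective map `D.vx f` (rewrite `len f = 3`;
  `ZMod.card`).
* `tv_on`: `→` `on_Von`, `on_Von'`, `on_adj` (`.ne`).  `←`: `u = vx f i`, `v = vx f j`, `i ≠ j` in `ZMod 3`, so
  `j = i + 1` or `i = j + 1` (transport along `len f = 3`, `decide`), `on_vx_succ`, `on_symm`.
* `tv_inj`: let `f ≠ g` with `tv D f = tv D g`.  For `x ∈ tv D f`: `f = D.fc x m`, `g = D.fc x m'` (`Von_iff`),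
  `m ≠ m'`; the vertices `≠ x` of `tv D f` are exactly `D.nb x m`, `D.nb x (m+1)` (`Von_nb`, `Von_nb'`, `nb_ne`,
  card 3) and also exactly `D.nb x m'`, `D.nb x (m'+1)`; by `nb_inj` and `m ≠ m'`: `m = m' + 1`, `m + 1 = m'`, so
  `2 = 0` in `ZMod (D.deg x)`, `D.deg x ∣ 2`, with `two_le_deg` all indices are `m, m+1`: all neighbours of
  `x` are in `tv D f`.  So `tv D f` is closed under adjacency.  There is a vertex `q ∉ tv D f` (card `≥ 4`).
  For three distinct vertices `x, y, z` of `tv D f`: `h2 z x q` gives a path from `x` to `q`; it must leave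
  `tv D f` (`exists_step_ne`), contradiction.
-/

set_option autoImplicit false

noncomputable section

namespace Pool.Agent.Fary

open Finset
open Pool.Agent.Helper1.PG

variable {W F : Type} [Fintype W] [DecidableEq W] [Fintype F] {Y : SimpleGraph W}

open Classical in
/-- the vertices of a face -/
def tv (D : PlaneData Y F) (f : F) : Finset W := univ.filter (fun x => D.Von f x)

theorem mem_tv (D : PlaneData Y F) (f : F) (x : W) : x ∈ tv D f ↔ D.Von f x := by
  unfold tv
  simp

theorem tv_card (D : PlaneData Y F) (h3 : ∀ f, D.len f = 3) (f : F) : (tv D f).card = 3 := by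
  have h1 : tv D f = univ.image (D.vx f) := by
    ext x
    rw [mem_tv, mem_image]
    constructor
    · rintro ⟨i, hi⟩
      exact ⟨i, mem_univ i, hi⟩
    · rintro ⟨i, _, hi⟩
      exact ⟨i, hi⟩
  rw [h1, card_image_of_injective _ (D.vx_inj f), card_univ, ZMod.card, h3 f]

private theorem mka_three (n : ℕ) (hn : n = 3) (i j : ZMod n) (h : i ≠ j) :
    j = i + 1 ∨ i = j + 1 := by
  subst hn
  revert i j
  decide

private theorem mka_two (n : ℕ) (hn : n = 2) (m i : ZMod n) : i = m ∨ i = m + 1 := by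
  subst hn
  revert m i
  decide

theorem tv_on (D : PlaneData Y F) (h3 : ∀ f, D.len f = 3) (f : F) (u v : W) :
    D.on f u v ↔ u ≠ v ∧ u ∈ tv D f ∧ v ∈ tv D f := by
  constructor
  · intro h
    exact ⟨(D.on_adj _ _ _ h).ne, (mem_tv D f u).2 (D.on_Von h), (mem_tv D f v).2 (D.on_Von' h)⟩
  · rintro ⟨hne, hu, hv⟩
    obtain ⟨i, rfl⟩ := (mem_tv D f u).1 hu
    obtain ⟨j, rfl⟩ := (mem_tv D f v).1 hv
    have hij : i ≠ j := by
      rintro rfl
      exact hne rfl
    rcases mka_three _ (h3 f) i j hij with h | h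
    · rw [h]
      exact D.on_vx_succ f i
    · rw [h]
      exact D.on_symm _ _ _ (D.on_vx_succ f j)

theorem tv_inj (D : PlaneData Y F) (h3 : ∀ f, D.len f = 3) (h4 : 4 ≤ Fintype.card W)
    (h2 : TwoC Y) : Function.Injective (tv D) := by
  intro f g hfg
  by_contra hne
  have hclosed : ∀ x y, x ∈ tv D f → Y.Adj x y → y ∈ tv D f := by
    intro x y hx hxy
    have hxg : x ∈ tv D g := by rw [← hfg]; exact hx
    obtain ⟨m, hm⟩ := (D.Von_iff f x).1 ((mem_tv D f x).1 hx)
    obtain ⟨m', hm'⟩ := (D.Von_iff g x).1 ((mem_tv D g x).1 hxg)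
    have hmm : m ≠ m' := by
      rintro rfl
      exact hne (hm.symm.trans hm')
    have e1 : D.nb x m ∈ tv D f := by
      rw [mem_tv, ← hm]
      exact D.Von_nb x m
    have e2 : D.nb x (m + 1) ∈ tv D f := by
      rw [mem_tv, ← hm]
      exact D.Von_nb' x m
    have e3 : D.nb x m' ∈ tv D f := by
      rw [hfg, mem_tv, ← hm']
      exact D.Von_nb x m'
    have e4 : D.nb x (m' + 1) ∈ tv D f := by
      rw [hfg, mem_tv, ← hm']
      exact D.Von_nb' x m'
    have hx' : ∀ i, D.nb x i ≠ x := fun i => (D.adj_nb x i).ne'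
    have hset : {x, D.nb x m, D.nb x (m + 1)} = tv D f := by
      apply eq_of_subset_of_card_le
      · intro z hz
        rcases mem_tri.1 hz with rfl | rfl | rfl
        · exact hx
        · exact e1
        · exact e2
      · rw [tv_card D h3 f, card_tri.2 ⟨(hx' m).symm, (hx' (m + 1)).symm, D.nb_ne x m⟩]
    have a1 : m' = m + 1 := by
      rw [← hset] at e3
      rcases mem_tri.1 e3 with h | h | h
      · exact absurd h (hx' m')
      · exact absurd (D.nb_inj x h).symm hmm
      · exact D.nb_inj x h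
    have a2 : m' + 1 = m := by
      rw [← hset] at e4
      rcases mem_tri.1 e4 with h | h | h
      · exact absurd h (hx' (m' + 1))
      · exact D.nb_inj x h
      · exact absurd (add_right_cancel (D.nb_inj x h)).symm hmm
    have a3 : ((2 : ℕ) : ZMod (D.deg x)) = 0 := by
      rw [a1] at a2
      push_cast
      linear_combination a2
    have a4 : D.deg x = 2 := by
      have h5 := Nat.le_of_dvd (by norm_num) ((ZMod.natCast_eq_zero_iff 2 (D.deg x)).1 a3)
      have h6 := D.two_le_deg x
      omega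
    obtain ⟨i, rfl⟩ := (D.adj_iff x y).1 hxy
    rcases mka_two _ a4 m i with h | h
    · rw [h]
      exact e1
    · rw [h]
      exact e2
  obtain ⟨q, hq⟩ : ∃ q, q ∉ tv D f := by
    by_contra hall
    push Not at hall
    have h5 : tv D f = univ := eq_univ_iff_forall.2 hall
    have h6 := tv_card D h3 f
    rw [h5, card_univ] at h6
    omega
  obtain ⟨x, z, w, hxz, _, _, hset⟩ := card_eq_three.1 (tv_card D h3 f)
  have hx : x ∈ tv D f := by rw [hset]; simp
  have hz : z ∈ tv D f := by rw [hset]; simp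
  have hqz : q ≠ z := by
    rintro rfl
    exact hq hz
  obtain ⟨u, v, huv, hu, hv⟩ := exists_step_ne (p := fun y => y ∈ tv D f) (h2 z x q hxz hqz) hx hq
  exact hv (hclosed u v hu huv.1)

end Pool.Agent.Fary
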