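import Pool.Agent.Fary.Bas

/-!
# FARY-TriId: the ray from a point crosses the sides of a triangle

The signed number of crossings of the ray from `y` with the oriented sides of the triangle `a b c` is the indicator
of the interior of the triangle (case distinction on the signs of the heights and of the orientations).
-/

set_option autoImplicit false

namespace Pool.Agent.Fary

open Classical in
/-- the ray from `y` to the right crosses `p q`, upwards -/
noncomputable def X (p q y : ℝ × ℝ) : ℤ := if p.2 < y.2 ∧ y.2 < q.2 ∧ 0 < o p q y then 1 else 0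

open Classical in
/-- sign of a nonzero number -/
noncomputable def sg (x : ℝ) : ℤ := if 0 < x then 1 else -1

private lemma tri_sgn {P Q R A B C : ℝ} (h : P * A + Q * B + R * C = 0) :
    ¬ (0 < P * A ∧ 0 < Q * B ∧ 0 < R * C) ∧ ¬ (P * A < 0 ∧ Q * B < 0 ∧ R * C < 0) := by
  refine ⟨?_, ?_⟩
  · rintro ⟨h1, h2, h3⟩
    linarith
  · rintro ⟨h1, h2, h3⟩
    linarith

open Classical in
private lemma tri_key {P Q R A B C O : ℝ} (h : P * A + Q * B + R * C = 0) (hO' : O = A + B + C)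
    (hP : P ≠ 0) (hQ : Q ≠ 0) (hR : R ≠ 0) (hA : A ≠ 0) (hB : B ≠ 0) (hC : C ≠ 0) (hO : O ≠ 0) :
    (if P < 0 ∧ 0 < Q ∧ 0 < C then (1 : ℤ) else 0) * sg O +
      (if Q < 0 ∧ 0 < P ∧ 0 < -C then (1 : ℤ) else 0) * sg (-O) +
      (if Q < 0 ∧ 0 < R ∧ 0 < A then (1 : ℤ) else 0) * sg O +
      (if R < 0 ∧ 0 < Q ∧ 0 < -A then (1 : ℤ) else 0) * sg (-O) +
      (if R < 0 ∧ 0 < P ∧ 0 < B then (1 : ℤ) else 0) * sg O +
      (if P < 0 ∧ 0 < R ∧ 0 < -B then (1 : ℤ) else 0) * sg (-O) =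
      if 0 < O * C ∧ 0 < O * A ∧ 0 < O * B then 1 else 0 := by
  obtain ⟨h1, h2⟩ := tri_sgn h
  have h3 : ¬ (0 < A ∧ 0 < B ∧ 0 < C ∧ O < 0) := by
    rintro ⟨h4, h5, h6, h7⟩
    linarith
  have h4 : ¬ (A < 0 ∧ B < 0 ∧ C < 0 ∧ 0 < O) := by
    rintro ⟨h4, h5, h6, h7⟩
    linarith
  simp only [mul_pos_iff, mul_neg_iff] at h1 h2 ⊢
  clear h hO'
  rcases lt_or_gt_of_ne hP with hP | hP <;> rcases lt_or_gt_of_ne hQ with hQ | hQ <;>
    rcases lt_or_gt_of_ne hR with hR | hR <;> rcases lt_or_gt_of_ne hA with hA | hA <;>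
    rcases lt_or_gt_of_ne hB with hB | hB <;> rcases lt_or_gt_of_ne hC with hC | hC <;>
    rcases lt_or_gt_of_ne hO with hO | hO <;>
    simp [sg, hP, hQ, hR, hA, hB, hC, hO, hP.not_gt, hQ.not_gt, hR.not_gt, hA.not_gt, hB.not_gt,
      hC.not_gt, hO.not_gt] at h1 h2 h3 h4 ⊢

open Classical in
theorem tri_id {a b c y : ℝ × ℝ} (ha : a.2 ≠ y.2) (hb : b.2 ≠ y.2) (hc : c.2 ≠ y.2)
    (h : o a b c ≠ 0) (h1 : o a b y ≠ 0) (h2 : o b c y ≠ 0) (h3 : o c a y ≠ 0) :
    X a b y * sg (o a b c) + X b a y * sg (o b a c) + X b c y * sg (o b c a) +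
      X c b y * sg (o c b a) + X c a y * sg (o c a b) + X a c y * sg (o a c b) =
      if InT a b c y then 1 else 0 := by
  have e1 : o b a y = -o a b y := o_swap a b y
  have e2 : o c b y = -o b c y := o_swap b c y
  have e3 : o a c y = -o c a y := o_swap c a y
  have e4 : o b c a = o a b c := o_cyc a b c
  have e5 : o c a b = o a b c := by rw [o_cyc b c a, e4]
  have e6 : o b a c = -o a b c := o_swap a b c
  have e7 : o c b a = -o a b c := by rw [o_swap b c a, e4]
  have e8 : o a c b = -o a b c := by rw [o_swap c a b, e5]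
  have k1 : (a.2 - y.2) * o b c y + (b.2 - y.2) * o c a y + (c.2 - y.2) * o a b y = 0 := by
    unfold o
    ring
  have k2 : o a b c = o b c y + o c a y + o a b y := by
    unfold o
    ring
  have := tri_key k1 k2 (sub_ne_zero.2 ha) (sub_ne_zero.2 hb) (sub_ne_zero.2 hc) h2 h3 h1 h
  simp only [sub_neg, sub_pos] at this
  simp only [X, InT, e1, e2, e3, e4, e5, e6, e7, e8]
  exact this

end Pool.Agent.Fary
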