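import Pool.Agent.SB.CFace

/-!
# FARY-TwoC: an edge maximal graph of the class `Pl` is 2-connected

Take a simple plane multigraph whose graph is `Y`. If the deletion of `v` disconnects `x` from `y`,
then some face has an edge with an end in the component of `x` and an edge without such an end; by
maximality two vertices of this face are adjacent, which contradicts the separation.
-/

set_option autoImplicit false

noncomputable section

namespace Pool.Agent.Fary

open Pool.Agent.Helper1.PG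
open Pool.Agent.SB (EMax ad pl_ad_face exists_planeData')

/-- a simple plane multigraph with the given edge maximal graph -/
private theorem tc_model {W : Type} [Fintype W] {Y : SimpleGraph W} (h : EMax Y)
    (hne : Nonempty W) :
    ∃ (F E : Type) (_ : Fintype F) (_ : Fintype E) (a : E → W × W) (b : E → F × F),
      IsPl a b ∧ Simp a ∧ gr a = Y := by
  classical
  obtain ⟨F, E, i1, i2, a, b, hp, hl⟩ := h.1.exists_spanning
  obtain ⟨F', E', i1', i2', a', b', hp', hs, hl', -⟩ :=
    IsPl.exists_simple (fun u v => Lk a u v) (fun u v =>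
      Relation.ReflTransGen.mono (fun _ _ h => Or.inl h) _ _ (hp.toIsPlane.conn u v))
      (Fintype.card E) F E a b rfl hp (fun u v h _ => h)
  have hg : gr a' = Y := by
    apply le_antisymm
    · intro p r hpr
      apply h.2 p r hpr.1
      apply Pl.of_spanning hp'
      intro u v huv
      rcases huv with h1 | ⟨_, ⟨rfl, rfl⟩ | ⟨rfl, rfl⟩⟩
      · exact hl' u v (hl u v h1) h1.ne
      · exact hpr.2
      · exact hpr.2.symm
    · intro u v huv
      exact ⟨huv.ne, hl' u v (hl u v huv) huv.ne⟩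
  exact ⟨F', E', i1', i2', a', b', hp', hs, hg⟩

theorem emax_twoC {W : Type} [Fintype W] {Y : SimpleGraph W} (h : EMax Y)
    (h3 : 3 ≤ Fintype.card W) : TwoC Y := by
  classical
  have hne : Nonempty W := Fintype.card_pos_iff.1 (by omega)
  obtain ⟨F, E, i1, i2, a, b, hp, hs, hg⟩ := tc_model h hne
  have hY : ∀ u w, Y.Adj u w ↔ u ≠ w ∧ Lk a u w := by
    intro u w
    rw [← hg]
    exact Iff.rfl
  have hface : ∀ (f : F) (p r : W), p ≠ r → (∃ e, Inc a p e ∧ Inc b f e) →
      (∃ e, Inc a r e ∧ Inc b f e) → Y.Adj p r := by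
    intro f p r hpr h1 h2
    exact h.2 p r hpr (pl_ad_face hp (fun u w huw => ((hY u w).1 huw).2) h1 h2)
  intro v x y hx hy
  by_contra hcon
  set K : W → Prop := fun p =>
    Relation.ReflTransGen (fun p q => Y.Adj p q ∧ p ≠ v ∧ q ≠ v) x p with hK
  have hKx : K x := Relation.ReflTransGen.refl
  have hKy : ¬ K y := hcon
  have hKv : ∀ p, K p → p ≠ v := by
    intro p hp1
    rcases Relation.ReflTransGen.cases_tail hp1 with h1 | ⟨q, _, h1⟩
    · rw [h1]
      exact hx
    · exact h1.2.2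
  have hKc : ∀ p q, K p → Y.Adj p q → q ≠ v → K q := by
    intro p q hp1 hpq hq
    exact Relation.ReflTransGen.tail hp1 ⟨hpq, hKv p hp1, hq⟩
  have hxy : x ≠ y := by
    rintro rfl
    exact hKy hKx
  -- an edge at `x`
  obtain ⟨u1, w1, ⟨e1, he1⟩, hu1, -⟩ := exists_step_ne (p := fun z => z = x)
    (hp.toIsPlane.conn x y) rfl hxy.symm
  have hgood1 : K (a e1).1 ∨ K (a e1).2 := by
    rcases he1 with h1 | h1
    · left
      exact (h1.1.trans hu1) ▸ hKx
    · right
      exact (h1.2.trans hu1) ▸ hKx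
  -- an edge at `y`
  obtain ⟨u2, w2, ⟨e2, he2⟩, hu2, hw2⟩ := exists_step_ne (p := fun z => z = y)
    (hp.toIsPlane.conn y x) rfl hxy
  have hKw2 : ¬ K w2 := by
    intro h1
    apply hKy
    refine hKc w2 y h1 ?_ hy
    rw [hY]
    refine ⟨hw2, ⟨e2, ?_⟩⟩
    rw [← hu2]
    rcases he2 with h2 | h2
    · exact Or.inr h2
    · exact Or.inl h2
  have hbad2 : ¬ (K (a e2).1 ∨ K (a e2).2) := by
    rintro (h1 | h1)
    · rcases he2 with h2 | h2
      · rw [h2.1, hu2] at h1
        exact hKy h1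
      · rw [h2.1] at h1
        exact hKw2 h1
    · rcases he2 with h2 | h2
      · rw [h2.2] at h1
        exact hKw2 h1
      · rw [h2.2, hu2] at h1
        exact hKy h1
  -- a face with a good and a bad edge
  have hex : ∃ f e e', Inc b f e ∧ Inc b f e' ∧ (K (a e).1 ∨ K (a e).2) ∧
      ¬ (K (a e').1 ∨ K (a e').2) := by
    by_contra hno
    push Not at hno
    have H : ∀ f e e', Inc b f e → Inc b f e' → (K (a e).1 ∨ K (a e).2) →
        (K (a e').1 ∨ K (a e').2) := by
      intro f e e' hf hf' hge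
      by_contra hbe
      push Not at hbe
      rcases hno f e e' hf hf' hge with h1 | h1
      · exact hbe.1 h1
      · exact hbe.2 h1
    by_cases hP : ∃ e, Inc b (b e2).1 e ∧ (K (a e).1 ∨ K (a e).2)
    · obtain ⟨e, he, hge⟩ := hP
      exact hbad2 (H _ e e2 he (Or.inl rfl) hge)
    · obtain ⟨u, w, ⟨e, he⟩, ⟨e', he', hge'⟩, hw⟩ := exists_step_ne
        (p := fun f => ∃ e, Inc b f e ∧ (K (a e).1 ∨ K (a e).2))
        (hp.toIsPlane.dconn (b e1).1 (b e2).1) ⟨e1, Or.inl rfl, hgood1⟩ hP
      apply hw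
      have hinc : Inc b u e ∧ Inc b w e := by
        rcases he with h1 | h1
        · exact ⟨Or.inl h1.1, Or.inr h1.2⟩
        · exact ⟨Or.inr h1.2, Or.inl h1.1⟩
      exact ⟨e, hinc.2, H u e' e he' hinc.1 hge'⟩
  obtain ⟨f, e, e', hf, hf', hge, hbe⟩ := hex
  push Not at hbe
  obtain ⟨p, hpe, hKp⟩ : ∃ p, Inc a p e ∧ K p := by
    rcases hge with h1 | h1
    · exact ⟨_, Or.inl rfl, h1⟩
    · exact ⟨_, Or.inr rfl, h1⟩
  obtain ⟨r, hre, hrv, hKr⟩ : ∃ r, Inc a r e' ∧ r ≠ v ∧ ¬ K r := by
    by_cases h1 : (a e').1 = v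
    · refine ⟨(a e').2, Or.inr rfl, ?_, hbe.2⟩
      intro h2
      exact hs.noloop e' (h1.trans h2.symm)
    · exact ⟨(a e').1, Or.inl rfl, h1, hbe.1⟩
  have hpr : p ≠ r := by
    rintro rfl
    exact hKr hKp
  exact hKr (hKc p r hKp (hface f p r hpr ⟨e, hpe, hf⟩ ⟨e', hre, hf'⟩) hrv)

end Pool.Agent.Fary
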